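import Pool.Agent.Lib.MP_2c70cf_lc.Defs

set_option autoImplicit false

namespace Pool.Agent.Lib.MP_2c70cf_lc

open ZFSet

/-- `(M, ∈)` satisfies the axioms of ZF without Power Set in the weakest reading: with
Replacement, but without Collection. -/
structure ModelsZFrepl (M : Set ZFSet.{0}) : Prop where
  extensionality : ∀ x ∈ M, ∀ y ∈ M, (∀ z ∈ M, z ∈ x ↔ z ∈ y) → x = y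
  foundation : ∀ x ∈ M, (∃ y ∈ M, y ∈ x) → ∃ y ∈ M, y ∈ x ∧ ∀ z ∈ M, z ∈ y → z ∉ x
  pairing : ∀ x ∈ M, ∀ y ∈ M, ∃ s ∈ M, ∀ z ∈ M, z ∈ s ↔ z = x ∨ z = y
  union : ∀ x ∈ M, ∃ s ∈ M, ∀ z ∈ M, z ∈ s ↔ ∃ y ∈ M, y ∈ x ∧ z ∈ y
  infinity : ∃ s ∈ M, (∃ e ∈ M, e ∈ s ∧ ∀ z ∈ M, z ∉ e) ∧
    ∀ x ∈ M, x ∈ s → ∃ y ∈ M, y ∈ s ∧ ∀ z ∈ M, z ∈ y ↔ z ∈ x ∨ z = x
  separation : ∀ (φ : Fml) (ρ : ℕ → ZFSet.{0}), (∀ i, ρ i ∈ M) → ∀ c ∈ M,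
    ∃ s ∈ M, ∀ x ∈ M, x ∈ s ↔ x ∈ c ∧ Sat M φ (cons x ρ)
  replacement : ∀ (φ : Fml) (ρ : ℕ → ZFSet.{0}), (∀ i, ρ i ∈ M) → ∀ c ∈ M,
    (∀ x ∈ M, x ∈ c → ∃ y ∈ M, ∀ y' ∈ M, Sat M φ (cons y' (cons x ρ)) ↔ y' = y) →
    ∃ s ∈ M, ∀ y ∈ M, y ∈ s ↔ ∃ x ∈ M, x ∈ c ∧ Sat M φ (cons y (cons x ρ))

end Pool.Agent.Lib.MP_2c70cf_lc
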