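import Pool.Agent.Lib.MP_2c70cf_lc.Conds
import Pool.Agent.Lib.MP_2c70cf_lc.Defs2

set_option autoImplicit false

/-! Closure properties of transitive models of ZF without Power Set and without Collection. -/

namespace Pool.Agent.Lib.MP_2c70cf_lc

open ZFSet

section closure

variable {M : Set ZFSet.{0}} (hT : Trans M) (hM : ModelsZFrepl M)
include hT hM

theorem W.empty_mem : (∅ : ZFSet.{0}) ∈ M := by
  obtain ⟨s, -, ⟨e, he, -, h⟩, -⟩ := hM.infinity
  have : e = ∅ := (eq_empty e).mpr fun y hy => h y (hT e he y hy) hy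
  rwa [this] at he

theorem W.upair_mem {x y : ZFSet.{0}} (hx : x ∈ M) (hy : y ∈ M) : ({x, y} : ZFSet.{0}) ∈ M := by
  obtain ⟨s, hs, h⟩ := hM.pairing x hx y hy
  have : s = {x, y} := by
    ext z
    rw [ZFSet.mem_pair]
    refine ⟨fun hz => (h z (hT s hs z hz)).mp hz, fun hz => ?_⟩
    rcases hz with rfl | rfl
    · exact (h z hx).mpr (Or.inl rfl)
    · exact (h z hy).mpr (Or.inr rfl)
  rwa [this] at hs

theorem W.singleton_mem {x : ZFSet.{0}} (hx : x ∈ M) : ({x} : ZFSet.{0}) ∈ M := by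
  have := W.upair_mem hT hM hx hx
  rwa [pair_eq_singleton] at this

theorem W.pair_mem {x y : ZFSet.{0}} (hx : x ∈ M) (hy : y ∈ M) : pair x y ∈ M :=
  W.upair_mem hT hM (W.singleton_mem hT hM hx) (W.upair_mem hT hM hx hy)

theorem W.sUnion_mem {x : ZFSet.{0}} (hx : x ∈ M) : (⋃₀ x : ZFSet.{0}) ∈ M := by
  obtain ⟨s, hs, h⟩ := hM.union x hx
  have : s = ⋃₀ x := by
    ext z
    rw [mem_sUnion]
    constructor
    · intro hz
      obtain ⟨y, -, h1, h2⟩ := (h z (hT s hs z hz)).mp hz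
      exact ⟨y, h1, h2⟩
    · rintro ⟨y, h1, h2⟩
      exact (h z (hT y (hT x hx y h1) z h2)).mpr ⟨y, hT x hx y h1, h1, h2⟩
  rwa [this] at hs

theorem W.insert_mem {x y : ZFSet.{0}} (hx : x ∈ M) (hy : y ∈ M) : insert x y ∈ M := by
  rw [insert_eq, ← sUnion_pair]
  exact W.sUnion_mem hT hM (W.upair_mem hT hM (W.singleton_mem hT hM hx) hy)

theorem W.num_mem (n : ℕ) : num n ∈ M := by
  induction n with
  | zero => exact W.empty_mem hT hM
  | succ n ih => exact W.insert_mem hT hM ih ih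

theorem W.exists_finite_mem {S : Set ZFSet.{0}} (hS : S.Finite) (h : S ⊆ M) :
    ∃ x ∈ M, ∀ z, z ∈ x ↔ z ∈ S := by
  induction S, hS using Set.Finite.induction_on with
  | empty => exact ⟨∅, W.empty_mem hT hM, by simp⟩
  | insert _ _ ih =>
    obtain ⟨x, hx, hx'⟩ := ih fun z hz => h (Set.mem_insert_of_mem _ hz)
    exact ⟨insert _ x, W.insert_mem hT hM (h (Set.mem_insert _ _)) hx, by simp [hx']⟩

end closure

end Pool.Agent.Lib.MP_2c70cf_lc
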