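import Pool.Agent.Lib.MP_2c70cf_lc.Logic

set_option autoImplicit false

namespace Pool.Agent.Lib.MP_2c70cf_lc

open ZFSet

/-- The von Neumann numerals. -/
def num (n : ℕ) : ZFSet.{0} := ZFSet.mk (PSet.ofNat n)

theorem num_zero : num 0 = ∅ := rfl

theorem num_succ (n : ℕ) : num (n + 1) = insert (num n) (num n) := rfl

theorem mem_omega_iff (x : ZFSet.{0}) : x ∈ omega ↔ ∃ n, x = num n := by
  constructor
  · induction x using Quotient.inductionOn with
    | h x =>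
      rintro ⟨⟨n⟩, h⟩
      exact ⟨n, ZFSet.sound h⟩
  · rintro ⟨n, rfl⟩
    induction n with
    | zero => exact omega_zero
    | succ n ih => exact omega_succ ih

theorem num_mem_of_lt {m n : ℕ} (h : m < n) : num m ∈ num n := by
  induction n with
  | zero => omega
  | succ n ih =>
    rw [num_succ, mem_insert_iff]
    rcases Nat.lt_succ_iff_lt_or_eq.mp h with h | rfl
    · exact Or.inr (ih h)
    · exact Or.inl rfl

theorem num_injective : Function.Injective num := by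
  intro m n h
  rcases lt_trichotomy m n with h1 | h1 | h1
  · have := num_mem_of_lt h1
    rw [h] at this
    exact (mem_irrefl _ this).elim
  · exact h1
  · have := num_mem_of_lt h1
    rw [h] at this
    exact (mem_irrefl _ this).elim

@[simp] theorem num_inj {m n : ℕ} : num m = num n ↔ m = n := num_injective.eq_iff

theorem fst_mem {D : Set ZFSet.{0}} (hD : Trans D) {x y : ZFSet.{0}} (h : pair x y ∈ D) : x ∈ D :=
  hD _ (hD _ h {x} (by simp [ZFSet.pair])) x (by simp)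

theorem snd_mem {D : Set ZFSet.{0}} (hD : Trans D) {x y : ZFSet.{0}} (h : pair x y ∈ D) : y ∈ D :=
  hD _ (hD _ h {x, y} (by simp [ZFSet.pair])) y (by simp)

section closure

variable {M : Set ZFSet.{0}} (hT : Trans M) (hM : ModelsZFminus M)
include hT hM

theorem empty_mem : (∅ : ZFSet.{0}) ∈ M := by
  obtain ⟨s, -, ⟨e, he, -, h⟩, -⟩ := hM.infinity
  have : e = ∅ := (eq_empty e).mpr fun y hy => h y (hT e he y hy) hy
  rwa [this] at he

theorem upair_mem {x y : ZFSet.{0}} (hx : x ∈ M) (hy : y ∈ M) : ({x, y} : ZFSet.{0}) ∈ M := by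
  obtain ⟨s, hs, h⟩ := hM.pairing x hx y hy
  have : s = {x, y} := by
    ext z
    rw [ZFSet.mem_pair]
    refine ⟨fun hz => (h z (hT s hs z hz)).mp hz, fun hz => ?_⟩
    rcases hz with rfl | rfl
    · exact (h z hx).mpr (Or.inl rfl)
    · exact (h z hy).mpr (Or.inr rfl)
  rwa [this] at hs

theorem singleton_mem {x : ZFSet.{0}} (hx : x ∈ M) : ({x} : ZFSet.{0}) ∈ M := by
  have := upair_mem hT hM hx hx
  rwa [pair_eq_singleton] at this

theorem pair_mem {x y : ZFSet.{0}} (hx : x ∈ M) (hy : y ∈ M) : pair x y ∈ M :=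
  upair_mem hT hM (singleton_mem hT hM hx) (upair_mem hT hM hx hy)

theorem sUnion_mem {x : ZFSet.{0}} (hx : x ∈ M) : (⋃₀ x : ZFSet.{0}) ∈ M := by
  obtain ⟨s, hs, h⟩ := hM.union x hx
  have : s = ⋃₀ x := by
    ext z
    rw [mem_sUnion]
    constructor
    · intro hz
      obtain ⟨y, -, h1, h2⟩ := (h z (hT s hs z hz)).mp hz
      exact ⟨y, h1, h2⟩
    · rintro ⟨y, h1, h2⟩
      exact (h z (hT y (hT x hx y h1) z h2)).mpr ⟨y, hT x hx y h1, h1, h2⟩
  rwa [this] at hs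

theorem insert_mem {x y : ZFSet.{0}} (hx : x ∈ M) (hy : y ∈ M) : insert x y ∈ M := by
  rw [insert_eq, ← sUnion_pair]
  exact sUnion_mem hT hM (upair_mem hT hM (singleton_mem hT hM hx) hy)

theorem num_mem (n : ℕ) : num n ∈ M := by
  induction n with
  | zero => exact empty_mem hT hM
  | succ n ih => exact insert_mem hT hM ih ih

theorem exists_finite_mem {S : Set ZFSet.{0}} (hS : S.Finite) (h : S ⊆ M) :
    ∃ x ∈ M, ∀ z, z ∈ x ↔ z ∈ S := by
  induction S, hS using Set.Finite.induction_on with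
  | empty => exact ⟨∅, empty_mem hT hM, by simp⟩
  | insert _ _ ih =>
    obtain ⟨x, hx, hx'⟩ := ih fun z hz => h (Set.mem_insert_of_mem _ hz)
    exact ⟨insert _ x, insert_mem hT hM (h (Set.mem_insert _ _)) hx, by simp [hx']⟩

end closure

noncomputable def dS (s : Finset ℕ) : ZFSet.{0} := range (fun i : s => num i)

noncomputable def eS (s : Finset ℕ) (F : Env) : ZFSet.{0} :=
  range (fun p : {p : ℕ × ℕ // p.1 ∈ s ∧ p.2 ∈ s ∧ F p.1 ∈ F p.2} =>
    pair (num p.1.1) (num p.1.2))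

noncomputable def fS (s : Finset ℕ) (F : Env) : ZFSet.{0} :=
  range (fun i : s => pair (num i) (F i))

theorem mem_dS {s : Finset ℕ} {z : ZFSet.{0}} : z ∈ dS s ↔ ∃ i ∈ s, z = num i := by
  simp [dS, eq_comm]

theorem mem_eS {s : Finset ℕ} {F : Env} {z : ZFSet.{0}} :
    z ∈ eS s F ↔ ∃ i ∈ s, ∃ j ∈ s, F i ∈ F j ∧ z = pair (num i) (num j) := by
  rw [eS, mem_range]
  constructor
  · rintro ⟨⟨⟨i, j⟩, h1, h2, h3⟩, rfl⟩; exact ⟨i, h1, j, h2, h3, rfl⟩
  · rintro ⟨i, h1, j, h2, h3, rfl⟩; exact ⟨⟨(i, j), h1, h2, h3⟩, rfl⟩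

theorem mem_fS {s : Finset ℕ} {F : Env} {z : ZFSet.{0}} :
    z ∈ fS s F ↔ ∃ i ∈ s, z = pair (num i) (F i) := by
  simp [fS, eq_comm]

/-- The total condition given by the restriction of `F` to `s`. -/
noncomputable def cnd (s : Finset ℕ) (F : Env) : ZFSet.{0} := pair (dS s) (pair (eS s F) (fS s F))

theorem cnd_congr {s : Finset ℕ} {F F' : Env} (h : ∀ i ∈ s, F i = F' i) : cnd s F = cnd s F' := by
  have h1 : eS s F = eS s F' := by
    ext z
    simp only [mem_eS]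
    refine exists_congr fun i => and_congr_right fun hi => exists_congr fun j =>
      and_congr_right fun hj => ?_
    rw [h i hi, h j hj]
  have h2 : fS s F = fS s F' := by
    ext z
    simp only [mem_fS]
    refine exists_congr fun i => and_congr_right fun hi => ?_
    rw [h i hi]
  rw [cnd, cnd, h1, h2]

theorem isCond_cnd {M : Set ZFSet.{0}} {s : Finset ℕ} {F : Env} (hinj : Set.InjOn F s)
    (hM : ∀ i ∈ s, F i ∈ M) : IsCond M (cnd s F) := by
  refine ⟨dS s, eS s F, fS s F, rfl, ?_, ?_, ?_, ?_, ?_, ?_, ?_, ?_, ?_⟩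
  · intro z hz
    obtain ⟨i, -, rfl⟩ := mem_dS.mp hz
    exact (mem_omega_iff _).mpr ⟨i, rfl⟩
  · rw [dS, coe_range]; exact Set.finite_range _
  · intro z hz
    obtain ⟨i, hi, j, hj, -, rfl⟩ := mem_eS.mp hz
    exact ⟨_, mem_dS.mpr ⟨i, hi, rfl⟩, _, mem_dS.mpr ⟨j, hj, rfl⟩, rfl⟩
  · have key : ∀ u v, Relation.TransGen (fun i j : ZFSet.{0} => pair i j ∈ eS s F) u v →
        ∃ i j, u = num i ∧ v = num j ∧ rank (F i) < rank (F j) := by
      intro u v h
      induction h with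
      | single h =>
        obtain ⟨i, -, j, -, h1, h2⟩ := mem_eS.mp h
        exact ⟨i, j, (pair_inj.mp h2).1, (pair_inj.mp h2).2, rank_lt_of_mem h1⟩
      | tail _ h ih =>
        obtain ⟨i, j, h1, h2, h3⟩ := ih
        obtain ⟨j', -, k, -, h4, h5⟩ := mem_eS.mp h
        obtain ⟨h6, h7⟩ := pair_inj.mp h5
        obtain rfl : j = j' := num_injective (h2.symm.trans h6)
        exact ⟨i, k, h1, h7, h3.trans (rank_lt_of_mem h4)⟩
    intro u h
    obtain ⟨i, j, h1, h2, h3⟩ := key u u h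
    obtain rfl : i = j := num_injective (h1.symm.trans h2)
    exact lt_irrefl _ h3
  · intro z hz
    obtain ⟨i, hi, rfl⟩ := mem_fS.mp hz
    exact ⟨_, _, hM i hi, rfl⟩
  · intro u x y hx hy
    obtain ⟨i, -, h1⟩ := mem_fS.mp hx
    obtain ⟨j, -, h2⟩ := mem_fS.mp hy
    rw [pair_inj] at h1 h2
    obtain rfl : i = j := num_injective (h1.1.symm.trans h2.1)
    rw [h1.2, h2.2]
  · intro u v x hx hy
    obtain ⟨i, hi, h1⟩ := mem_fS.mp hx
    obtain ⟨j, hj, h2⟩ := mem_fS.mp hy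
    rw [pair_inj] at h1 h2
    obtain rfl : i = j := hinj hi hj (h1.2.symm.trans h2.2)
    rw [h1.1, h2.1]
  · right
    intro u
    rw [mem_dS]
    constructor
    · rintro ⟨i, hi, rfl⟩; exact ⟨_, mem_fS.mpr ⟨i, hi, rfl⟩⟩
    · rintro ⟨x, hx⟩
      obtain ⟨i, hi, h1⟩ := mem_fS.mp hx
      exact ⟨i, hi, (pair_inj.mp h1).1⟩
  · intro u v x y hx hy
    obtain ⟨i, hi, h1⟩ := mem_fS.mp hx
    obtain ⟨j, hj, h2⟩ := mem_fS.mp hy
    rw [pair_inj] at h1 h2
    obtain ⟨rfl, rfl⟩ := h1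
    obtain ⟨rfl, rfl⟩ := h2
    rw [mem_eS]
    constructor
    · rintro ⟨i', -, j', -, h3, h4⟩
      simp only [pair_inj, num_inj] at h4
      rw [h4.1, h4.2]; exact h3
    · intro h; exact ⟨i, hi, j, hj, h, rfl⟩

theorem Le.trans {p q r : ZFSet.{0}} (h₁ : Le p q) (h₂ : Le q r) : Le p r := by
  obtain ⟨d, e, f, d', e', f', rfl, rfl, h1, h2, h3⟩ := h₁
  obtain ⟨_, _, _, d'', e'', f'', h, rfl, h4, h5, h6⟩ := h₂
  simp only [pair_inj] at h
  obtain ⟨rfl, rfl, rfl⟩ := h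
  refine ⟨d, e, f, d'', e'', f'', rfl, rfl, fun z hz => h1 (h4 hz), ?_, fun z hz => h3 (h6 hz)⟩
  rw [← h5, ← h2]
  ext z
  simp only [mem_inter, mem_prod]
  constructor
  · rintro ⟨hz, a, ha, b, hb, rfl⟩
    exact ⟨⟨hz, a, h4 ha, b, h4 hb, rfl⟩, a, ha, b, hb, rfl⟩
  · rintro ⟨⟨hz, -⟩, h⟩; exact ⟨hz, h⟩

theorem cnd_le {s t : Finset ℕ} (h : s ⊆ t) (F : Env) : Le (cnd t F) (cnd s F) := by
  refine ⟨_, _, _, _, _, _, rfl, rfl, ?_, ?_, ?_⟩
  · intro z hz
    obtain ⟨i, hi, rfl⟩ := mem_dS.mp hz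
    exact mem_dS.mpr ⟨i, h hi, rfl⟩
  · ext z
    simp only [mem_inter, mem_prod, mem_eS, mem_dS]
    constructor
    · rintro ⟨⟨i, -, j, -, h1, rfl⟩, _, ⟨i', hi', rfl⟩, _, ⟨j', hj', rfl⟩, h2⟩
      simp only [pair_inj, num_inj] at h2
      obtain ⟨rfl, rfl⟩ := h2
      exact ⟨i, hi', j, hj', h1, rfl⟩
    · rintro ⟨i, hi, j, hj, h1, rfl⟩
      exact ⟨⟨i, h hi, j, h hj, h1, rfl⟩, _, ⟨i, hi, rfl⟩, _, ⟨j, hj, rfl⟩, rfl⟩
  · intro z hz
    obtain ⟨i, hi, rfl⟩ := mem_fS.mp hz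
    exact mem_fS.mpr ⟨i, h hi, rfl⟩

/-- A condition with nonempty third component is of the form `cnd s F`. -/
theorem exists_eq_cnd {M : Set ZFSet.{0}} {d e f : ZFSet.{0}} (h : IsCond M (pair d (pair e f)))
    (hf : f ≠ ∅) : ∃ (s : Finset ℕ) (F : Env), pair d (pair e f) = cnd s F ∧ Set.InjOn F s ∧
      ∀ i ∈ s, F i ∈ M := by
  classical
  obtain ⟨_, _, _, h0, h1, h2, h3, -, h5, h6, h7, h8, h9⟩ := h
  simp only [pair_inj] at h0
  obtain ⟨rfl, rfl, rfl⟩ := h0
  have h8 := h8.resolve_left hf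
  have hfin : {i : ℕ | num i ∈ d}.Finite := h2.preimage num_injective.injOn
  let F : Env := fun i => if h : ∃ x, pair (num i) x ∈ f then h.choose else ∅
  have hF : ∀ i, num i ∈ d → pair (num i) (F i) ∈ f := by
    intro i hi
    have := (h8 _).mp hi
    simp only [F, dif_pos this]
    exact this.choose_spec
  have hd : d = dS hfin.toFinset := by
    ext z
    rw [mem_dS]
    constructor
    · intro hz
      obtain ⟨i, rfl⟩ := (mem_omega_iff z).mp (h1 hz)
      exact ⟨i, by simpa using hz, rfl⟩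
    · rintro ⟨i, hi, rfl⟩; simpa using hi
  have he : e = eS hfin.toFinset F := by
    ext z
    rw [mem_eS]
    constructor
    · intro hz
      obtain ⟨u, hu, v, hv, rfl⟩ := h3 z hz
      obtain ⟨i, rfl⟩ := (mem_omega_iff u).mp (h1 hu)
      obtain ⟨j, rfl⟩ := (mem_omega_iff v).mp (h1 hv)
      exact ⟨i, by simpa using hu, j, by simpa using hv,
        (h9 _ _ _ _ (hF i hu) (hF j hv)).mp hz, rfl⟩
    · rintro ⟨i, hi, j, hj, h, rfl⟩
      exact (h9 _ _ _ _ (hF i (by simpa using hi)) (hF j (by simpa using hj))).mpr h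
  have hf' : f = fS hfin.toFinset F := by
    ext z
    rw [mem_fS]
    constructor
    · intro hz
      obtain ⟨u, x, -, rfl⟩ := h5 z hz
      have hu := (h8 u).mpr ⟨x, hz⟩
      obtain ⟨i, rfl⟩ := (mem_omega_iff u).mp (h1 hu)
      exact ⟨i, by simpa using hu, by rw [h6 _ _ _ hz (hF i hu)]⟩
    · rintro ⟨i, hi, rfl⟩; exact hF i (by simpa using hi)
  refine ⟨hfin.toFinset, F, by rw [cnd, ← hd, ← he, ← hf'], ?_, ?_⟩
  · intro i hi j hj e
    have h1 := hF i (by simpa using hi)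
    have h2 := hF j (by simpa using hj)
    rw [e] at h1
    exact num_injective (h7 _ _ _ h1 h2)
  · intro i hi
    obtain ⟨u, x, hx, h⟩ := h5 _ (hF i (by simpa using hi))
    rw [(pair_inj.mp h).2]; exact hx

/-- The filter of conditions compatible with `F`. -/
def GF (M : Set ZFSet.{0}) (F : Env) : Set ZFSet.{0} := {p | IsCond M p ∧ ∃ s, Le (cnd s F) p}

end Pool.Agent.Lib.MP_2c70cf_lc
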