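import Pool.Agent.Lib.MP_2c70cf_lc.Closure

set_option autoImplicit false

/-! Definable predicates and definable set operations over a transitive model, and closure of the
model under iteration of a definable operation. -/

namespace Pool.Agent.Lib.MP_2c70cf_lc

open ZFSet

/-- Predicates definable over `M`. -/
def DP (M : Set ZFSet.{0}) (P : Env → Prop) : Prop :=
  ∃ φ : Fml, ∀ ρ : Env, (∀ i, ρ i ∈ M) → (Sat M φ ρ ↔ P ρ)

/-- Operations under which `M` is closed and whose graph is definable over `M`. -/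
def DF (M : Set ZFSet.{0}) (f : Env → ZFSet.{0}) : Prop :=
  (∀ ρ : Env, (∀ i, ρ i ∈ M) → f ρ ∈ M) ∧ DP M (fun ρ => ρ 0 = f fun i => ρ (i + 1))

variable {M : Set ZFSet.{0}} {P Q : Env → Prop} {f g a : Env → ZFSet.{0}}

namespace DP

theorem congr (h : DP M P) (e : ∀ ρ : Env, (∀ i, ρ i ∈ M) → (P ρ ↔ Q ρ)) : DP M Q := by
  obtain ⟨φ, hφ⟩ := h
  exact ⟨φ, fun ρ hρ => (hφ ρ hρ).trans (e ρ hρ)⟩

theorem mem (i j : ℕ) : DP M (fun ρ => ρ i ∈ ρ j) := ⟨.mem i j, fun _ _ => Iff.rfl⟩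

theorem eq (i j : ℕ) : DP M (fun ρ => ρ i = ρ j) := ⟨.eq i j, fun _ _ => Iff.rfl⟩

theorem not (h : DP M P) : DP M (fun ρ => ¬ P ρ) := by
  obtain ⟨φ, hφ⟩ := h
  exact ⟨.neg φ, fun ρ hρ => not_congr (hφ ρ hρ)⟩

theorem and (h : DP M P) (h' : DP M Q) : DP M (fun ρ => P ρ ∧ Q ρ) := by
  obtain ⟨φ, hφ⟩ := h
  obtain ⟨ψ, hψ⟩ := h'
  exact ⟨.and φ ψ, fun ρ hρ => and_congr (hφ ρ hρ) (hψ ρ hρ)⟩

theorem or (h : DP M P) (h' : DP M Q) : DP M (fun ρ => P ρ ∨ Q ρ) :=
  (h.not.and h'.not).not.congr fun _ _ => by tauto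

theorem imp (h : DP M P) (h' : DP M Q) : DP M (fun ρ => P ρ → Q ρ) :=
  (h.and h'.not).not.congr fun _ _ => by tauto

theorem iff (h : DP M P) (h' : DP M Q) : DP M (fun ρ => P ρ ↔ Q ρ) :=
  ((h.imp h').and (h'.imp h)).congr fun _ _ => by tauto

theorem ex (h : DP M P) : DP M (fun ρ => ∃ x ∈ M, P (cons x ρ)) := by
  obtain ⟨φ, hφ⟩ := h
  exact ⟨.ex φ, fun ρ hρ => exists_congr fun x => and_congr_right fun hx =>
    hφ _ (cons_mem hx hρ)⟩

theorem all (h : DP M P) : DP M (fun ρ => ∀ x ∈ M, P (cons x ρ)) :=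
  h.not.ex.not.congr fun _ _ => by push Not; rfl

theorem rename (h : DP M P) (r : ℕ → ℕ) : DP M (fun ρ => P fun i => ρ (r i)) := by
  obtain ⟨φ, hφ⟩ := h
  exact ⟨φ.rename r, fun ρ hρ => (sat_rename M φ r ρ).trans (hφ _ fun i => hρ _)⟩

theorem subst (h : DP M P) (hf : DF M f) : DP M (fun ρ => P (cons (f ρ) ρ)) :=
  (hf.2.and h).ex.congr fun ρ hρ =>
    ⟨fun ⟨x, _, h1, h2⟩ => by
      have e : x = f ρ := h1
      rwa [e] at h2, fun h1 => ⟨_, hf.1 ρ hρ, rfl, h1⟩⟩

/-- Forgetting the variable `1`. -/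
theorem skip (h : DP M P) : DP M (fun ρ => P (cons (ρ 0) fun i => ρ (i + 2))) :=
  (h.rename fun i => match i with | 0 => 0 | i + 1 => i + 2).congr fun ρ _ => by
    have : (fun i => ρ (match i with | 0 => 0 | i + 1 => i + 2)) =
        cons (ρ 0) fun i => ρ (i + 2) := by
      funext i; cases i <;> rfl
    simp only [this]

end DP

namespace DF

theorem var (i : ℕ) : DF M (fun ρ => ρ i) := ⟨fun _ h => h i, DP.eq 0 (i + 1)⟩

theorem rename (hf : DF M f) (r : ℕ → ℕ) : DF M (fun ρ => f fun i => ρ (r i)) :=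
  ⟨fun _ h => hf.1 _ fun _ => h _, hf.2.rename (up r)⟩

theorem shift (hf : DF M f) : DF M (fun ρ => f fun i => ρ (i + 1)) := hf.rename (· + 1)

theorem skip (hf : DF M f) : DF M (fun ρ => f (cons (ρ 0) fun i => ρ (i + 2))) := by
  have h := hf.rename fun i => match i with | 0 => 0 | i + 1 => i + 2
  have : ∀ ρ : Env, (fun i => ρ (match i with | 0 => 0 | i + 1 => i + 2)) =
      cons (ρ 0) fun i => ρ (i + 2) := by
    intro ρ; funext i; cases i <;> rfl
  simpa only [this] using h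

theorem mem (hf : DF M f) (hg : DF M g) : DP M (fun ρ => f ρ ∈ g ρ) :=
  ((DP.mem 1 0).subst hg.shift).subst hf

theorem eq (hf : DF M f) (hg : DF M g) : DP M (fun ρ => f ρ = g ρ) :=
  ((DP.eq 1 0).subst hg.shift).subst hf

theorem comp {G : ZFSet.{0} → ZFSet.{0}} (hG : DF M fun ρ => G (ρ 0)) (hf : DF M f) :
    DF M (fun ρ => G (f ρ)) :=
  ⟨fun ρ h => hG.1 (fun _ => f ρ) fun _ => hf.1 ρ h,
    (hG.2.rename fun i => match i with | 0 => 1 | _ + 1 => 0).subst hf.shift⟩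

theorem of_mem (hT : Trans M) (hcl : ∀ ρ : Env, (∀ i, ρ i ∈ M) → f ρ ∈ M)
    (h : DP M fun ρ => ρ 0 ∈ f fun i => ρ (i + 1)) : DF M f :=
  ⟨hcl, ((DP.mem 0 1).iff h.skip).all.congr fun ρ hρ => by
    constructor
    · intro h'
      ext z
      exact ⟨fun hz => (h' z (hT _ (hρ 0) z hz)).mp hz,
        fun hz => (h' z (hT _ (hcl _ fun i => hρ _) z hz)).mpr hz⟩
    · intro e z _
      exact e ▸ Iff.rfl⟩

end DF

/-- The image of a set. -/
noncomputable def img (a : ZFSet.{0}) (g : ZFSet.{0} → ZFSet.{0}) : ZFSet.{0} :=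
  range fun x : a => g x.1

theorem mem_img {a z : ZFSet.{0}} {g : ZFSet.{0} → ZFSet.{0}} :
    z ∈ img a g ↔ ∃ x ∈ a, z = g x := by
  rw [img, mem_range]
  exact ⟨fun ⟨x, h⟩ => ⟨x.1, x.2, h.symm⟩, fun ⟨x, h1, h2⟩ => ⟨⟨x, h1⟩, h2.symm⟩⟩

/-- First component of a pair. -/
def fst (p : ZFSet.{0}) : ZFSet.{0} := ⋃₀ ((⋃₀ p).sep fun u => ({u} : ZFSet.{0}) ∈ p)

/-- Second component of a pair. -/
def snd (p : ZFSet.{0}) : ZFSet.{0} := ⋃₀ ((⋃₀ p).sep fun u => p = pair (fst p) u)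

@[simp] theorem fst_pair (x y : ZFSet.{0}) : fst (pair x y) = x := by
  have : ((⋃₀ pair x y : ZFSet.{0}).sep fun u => ({u} : ZFSet.{0}) ∈ pair x y) = {x} := by
    ext u
    rw [mem_sep, mem_singleton]
    constructor
    · rintro ⟨-, h⟩
      rcases ZFSet.mem_pair.mp h with h | h
      · exact singleton_inj.mp h
      · exact (mem_singleton.mp (h ▸ (by simp : x ∈ ({x, y} : ZFSet.{0})))).symm
    · rintro rfl
      exact ⟨mem_sUnion_of_mem (mem_singleton.mpr rfl) (by simp [ZFSet.pair]),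
        by simp [ZFSet.pair]⟩
  rw [fst, this, sUnion_singleton]

@[simp] theorem snd_pair (x y : ZFSet.{0}) : snd (pair x y) = y := by
  have : ((⋃₀ pair x y : ZFSet.{0}).sep fun u => pair x y = pair (fst (pair x y)) u) = {y} := by
    ext u
    rw [mem_sep, mem_singleton, fst_pair, pair_inj]
    constructor
    · rintro ⟨-, -, h⟩
      exact h.symm
    · rintro rfl
      exact ⟨mem_sUnion_of_mem (by simp : u ∈ ({x, u} : ZFSet.{0})) (by simp [ZFSet.pair]),
        rfl, rfl⟩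
  rw [snd, this, sUnion_singleton]

/-- Value of a table. -/
noncomputable def app (h x : ZFSet.{0}) : ZFSet.{0} := ⋃₀ img (h.sep fun e => fst e = x) snd

theorem app_img {S x : ZFSet.{0}} (hx : x ∈ S) (v : ZFSet.{0} → ZFSet.{0}) :
    app (img S fun p => pair p (v p)) x = v x := by
  have : img ((img S fun p => pair p (v p)).sep fun e => fst e = x) snd = {v x} := by
    ext u
    rw [mem_img, mem_singleton]
    constructor
    · rintro ⟨e, he, rfl⟩
      obtain ⟨h1, h2⟩ := mem_sep.mp he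
      obtain ⟨p, -, rfl⟩ := mem_img.mp h1
      rw [fst_pair] at h2
      rw [snd_pair, h2]
    · rintro rfl
      exact ⟨pair x (v x), mem_sep.mpr ⟨mem_img.mpr ⟨x, hx, rfl⟩, fst_pair _ _⟩, (snd_pair _ _).symm⟩
  rw [app, this, sUnion_singleton]

theorem mem_num {n : ℕ} {z : ZFSet.{0}} : z ∈ num n ↔ ∃ m < n, z = num m := by
  induction n with
  | zero => simp [num_zero]
  | succ n ih =>
    rw [num_succ, mem_insert_iff, ih]
    constructor
    · rintro (rfl | ⟨m, hm, rfl⟩)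
      exacts [⟨n, by omega, rfl⟩, ⟨m, by omega, rfl⟩]
    · rintro ⟨m, hm, rfl⟩
      rcases Nat.lt_succ_iff_lt_or_eq.mp hm with h | rfl
      exacts [Or.inr ⟨m, h, rfl⟩, Or.inl rfl]

theorem succ_inj {x y : ZFSet.{0}} (h : insert x x = insert y y) : x = y := by
  have h1 : x ∈ insert y y := h ▸ mem_insert x x
  have h2 : y ∈ insert x x := h.symm ▸ mem_insert y y
  rcases mem_insert_iff.mp h1 with h1 | h1
  · exact h1
  · rcases mem_insert_iff.mp h2 with h2 | h2
    · exact h2.symm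
    · exact (mem_asymm h1 h2).elim

theorem succ_ne_empty (x : ZFSet.{0}) : insert x x ≠ ∅ := fun h =>
  notMem_empty x (h ▸ mem_insert x x)

section

variable (hT : Trans M) (hM : ModelsZFrepl M)
include hT hM

theorem repl_mem (hP : DP M P) {ρ : Env} (hρ : ∀ i, ρ i ∈ M) {c : ZFSet.{0}} (hc : c ∈ M)
    (v : ZFSet.{0} → ZFSet.{0}) (hv : ∀ x ∈ c, v x ∈ M)
    (h : ∀ x ∈ c, ∀ y ∈ M, P (cons y (cons x ρ)) ↔ y = v x) : img c v ∈ M := by
  obtain ⟨φ, hφ⟩ := hP
  have hφ' : ∀ x ∈ c, ∀ y ∈ M, Sat M φ (cons y (cons x ρ)) ↔ y = v x := fun x hx y hy =>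
    (hφ _ (cons_mem hy (cons_mem (hT c hc x hx) hρ))).trans (h x hx y hy)
  obtain ⟨s, hs, hs'⟩ := hM.replacement φ ρ hρ c hc fun x _ hx => ⟨v x, hv x hx, hφ' x hx⟩
  have : s = img c v := by
    ext y
    rw [mem_img]
    constructor
    · intro hy
      obtain ⟨x, -, h1, h2⟩ := (hs' y (hT s hs y hy)).mp hy
      exact ⟨x, h1, (hφ' x h1 y (hT s hs y hy)).mp h2⟩
    · rintro ⟨x, hx, rfl⟩
      exact (hs' _ (hv x hx)).mpr ⟨x, hT c hc x hx, hx, (hφ' x hx _ (hv x hx)).mpr rfl⟩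
  rwa [this] at hs

theorem sep_mem (hP : DP M P) {ρ : Env} (hρ : ∀ i, ρ i ∈ M) {c : ZFSet.{0}} (hc : c ∈ M) :
    (c.sep fun x => P (cons x ρ)) ∈ M := by
  obtain ⟨φ, hφ⟩ := hP
  obtain ⟨s, hs, hs'⟩ := hM.separation φ ρ hρ c hc
  have : s = c.sep fun x => P (cons x ρ) := by
    ext y
    rw [mem_sep]
    constructor
    · intro hy
      have h1 := hT s hs y hy
      rw [← hφ _ (cons_mem h1 hρ)]
      exact (hs' y h1).mp hy
    · rintro ⟨h1, h2⟩
      have h3 := hT c hc y h1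
      exact (hs' y h3).mpr ⟨h1, (hφ _ (cons_mem h3 hρ)).mpr h2⟩
  rwa [this] at hs

namespace DF

theorem empty : DF M (fun _ => ∅) :=
  of_mem hT (fun _ _ => W.empty_mem hT hM) ((DP.eq 0 0).not.congr fun _ _ => by simp)

theorem upair (hf : DF M f) (hg : DF M g) : DF M (fun ρ => {f ρ, g ρ}) :=
  of_mem hT (fun ρ h => W.upair_mem hT hM (hf.1 ρ h) (hg.1 ρ h))
    ((((var 0).eq hf.shift).or ((var 0).eq hg.shift)).congr fun _ _ => ZFSet.mem_pair.symm)

theorem singleton (hf : DF M f) : DF M (fun ρ => {f ρ}) := by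
  simpa only [pair_eq_singleton] using upair hT hM hf hf

theorem pair (hf : DF M f) (hg : DF M g) : DF M (fun ρ => ZFSet.pair (f ρ) (g ρ)) :=
  upair hT hM (singleton hT hM hf) (upair hT hM hf hg)

theorem insert (hf : DF M f) (hg : DF M g) : DF M (fun ρ => insert (f ρ) (g ρ)) :=
  of_mem hT (fun ρ h => W.insert_mem hT hM (hf.1 ρ h) (hg.1 ρ h))
    ((((var 0).eq hf.shift).or ((var 0).mem hg.shift)).congr fun _ _ => mem_insert_iff.symm)

theorem sUnion (hf : DF M f) : DF M (fun ρ => ⋃₀ f ρ) :=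
  of_mem hT (fun ρ h => W.sUnion_mem hT hM (hf.1 ρ h))
    ((((var 0).mem hf.shift.shift).and (DP.mem 1 0)).ex.congr fun ρ hρ => by
      rw [mem_sUnion]
      exact ⟨fun ⟨x, _, h⟩ => ⟨x, h⟩,
        fun ⟨x, h⟩ => ⟨x, hT _ (hf.1 _ fun i => hρ _) x h.1, h⟩⟩)

theorem sep (ha : DF M a) (hP : DP M P) : DF M (fun ρ => (a ρ).sep fun x => P (cons x ρ)) :=
  of_mem hT (fun ρ h => sep_mem hT hM hP h (ha.1 ρ h))
    ((((var 0).mem ha.shift).and hP).congr fun ρ _ => by rw [mem_sep, cons_tail])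

theorem img (ha : DF M a) (hg : DF M g) :
    DF M (fun ρ => MP_2c70cf_lc.img (a ρ) fun x => g (cons x ρ)) :=
  of_mem hT (fun ρ h => repl_mem hT hM hg.2 h (ha.1 ρ h) _
      (fun x hx => hg.1 _ (cons_mem (hT _ (ha.1 ρ h) x hx) h)) fun _ _ _ _ => Iff.rfl)
    ((((var 0).mem ha.shift.shift).and ((var 1).eq hg.skip)).ex.congr fun ρ hρ => by
      rw [mem_img]
      exact ⟨fun ⟨x, _, h⟩ => ⟨x, h⟩,
        fun ⟨x, h⟩ => ⟨x, hT _ (ha.1 _ fun i => hρ _) x h.1, h⟩⟩)

theorem fst (hf : DF M f) : DF M (fun ρ => MP_2c70cf_lc.fst (f ρ)) :=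
  comp (G := MP_2c70cf_lc.fst) (sUnion hT hM (sep hT hM (sUnion hT hM (var 0))
    ((singleton hT hM (var 0)).mem (var 1)))) hf

theorem snd (hf : DF M f) : DF M (fun ρ => MP_2c70cf_lc.snd (f ρ)) :=
  comp (G := MP_2c70cf_lc.snd) (sUnion hT hM (sep hT hM (sUnion hT hM (var 0))
    ((var 1).eq (pair hT hM (fst hT hM (var 1)) (var 0))))) hf

theorem app (hf : DF M f) (hg : DF M g) : DF M (fun ρ => MP_2c70cf_lc.app (f ρ) (g ρ)) :=
  sUnion hT hM (img hT hM (sep hT hM hf ((fst hT hM (var 0)).eq hg.shift)) (snd hT hM (var 0)))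

end DF

theorem dp_omega : DP M (fun ρ => ρ 0 ∈ omega) := by
  refine ((DP.mem 1 0).and ((DP.mem 0 1).imp (((DF.var 0).eq (DF.empty hT hM)).or
    ((DP.mem 0 2).and ((DF.var 1).eq (DF.insert hT hM (DF.var 0) (DF.var 0)))).ex)).all).ex.congr
    fun ρ _ => ?_
  constructor
  · rintro ⟨h, hh, h1, h2⟩
    have key : ∀ p, p ∈ h → p ∈ omega := by
      intro p
      induction p using ZFSet.inductionOn with
      | h p ih =>
        intro hp
        rcases h2 p (hT h hh p hp) hp with e | ⟨p', -, h3, e⟩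
        · have e' : p = ∅ := e
          rw [e']; exact omega_zero
        · have e' : p = insert p' p' := e
          rw [e']
          exact omega_succ (ih p' (e' ▸ mem_insert p' p') h3)
    exact key _ h1
  · intro h
    obtain ⟨n, hn⟩ := (mem_omega_iff _).mp h
    refine ⟨num (n + 1), W.num_mem hT hM _, mem_num.mpr ⟨n, by omega, hn⟩, fun p _ hp => ?_⟩
    obtain ⟨m, hm, rfl⟩ := mem_num.mp hp
    cases m with
    | zero => exact Or.inl rfl
    | succ m => exact Or.inr ⟨num m, W.num_mem hT hM m, mem_num.mpr ⟨m, by omega, rfl⟩, rfl⟩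

theorem omega_mem : omega ∈ M := by
  obtain ⟨s, hs, ⟨e, he, hes, he'⟩, hsucc⟩ := hM.infinity
  have h0 : e = ∅ := (eq_empty e).mpr fun y hy => he' y (hT e he y hy) hy
  have hn : ∀ n, num n ∈ s := by
    intro n
    induction n with
    | zero => rwa [h0] at hes
    | succ n ih =>
      obtain ⟨y, hy, hys, hy'⟩ := hsucc _ (W.num_mem hT hM n) ih
      have : y = num (n + 1) := by
        ext z
        rw [num_succ, mem_insert_iff, or_comm]
        exact ⟨fun hz => (hy' z (hT y hy z hz)).mp hz, fun hz => (hy' z (by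
          rcases hz with hz | rfl
          exacts [hT _ (W.num_mem hT hM n) z hz, W.num_mem hT hM n])).mpr hz⟩
      rwa [this] at hys
  have h := sep_mem hT hM (dp_omega hT hM) (ρ := fun _ => s) (fun _ => hs) hs
  have : (s.sep fun x => cons x (fun _ => s) 0 ∈ omega) = omega := by
    ext z
    rw [mem_sep]
    refine ⟨fun h => h.2, fun h => ⟨?_, h⟩⟩
    obtain ⟨n, rfl⟩ := (mem_omega_iff z).mp h
    exact hn n
  rwa [this] at h

theorem DF.omega : DF M (fun _ => omega) :=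
  DF.of_mem hT (fun _ _ => omega_mem hT hM) (dp_omega hT hM)

/-- The model contains the orbit of a point under a definable operation. -/
theorem iter_mem {G : ZFSet.{0} → ZFSet.{0}} (hG : DF M fun ρ => G (ρ 0)) {x₀ : ZFSet.{0}}
    (hx : x₀ ∈ M) : range (fun n : ℕ => G^[n] x₀) ∈ M := by
  classical
  have hit : ∀ n, G^[n] x₀ ∈ M := by
    intro n
    induction n with
    | zero => exact hx
    | succ n ih => rw [Function.iterate_succ_apply']; exact hG.1 (fun _ => _) fun _ => ih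
  have hP : DP M fun ρ => ∃ h ∈ M, pair (ρ 1) (ρ 0) ∈ h ∧ ∀ p ∈ M, p ∈ h →
      p = pair ∅ (ρ 2) ∨ ∃ n ∈ M, ∃ y ∈ M, pair n y ∈ h ∧ p = pair (insert n n) (G y) :=
    (((DF.pair hT hM (DF.var 2) (DF.var 1)).mem (DF.var 0)).and ((DP.mem 0 1).imp
      (((DF.var 0).eq (DF.pair hT hM (DF.empty hT hM) (DF.var 4))).or
        (((DF.pair hT hM (DF.var 1) (DF.var 0)).mem (DF.var 3)).and ((DF.var 2).eq
          (DF.pair hT hM (DF.insert hT hM (DF.var 1) (DF.var 1)) hG))).ex.ex)).all).ex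
  let v : ZFSet.{0} → ZFSet.{0} := fun x => G^[Function.invFun num x] x₀
  have hv : ∀ n, v (num n) = G^[n] x₀ := fun n => by
    simp only [v, Function.leftInverse_invFun num_injective n]
  have h := repl_mem hT hM hP (ρ := fun _ => x₀) (fun _ => hx) (omega_mem hT hM) v
    (fun _ _ => hit _) (by
      intro x hx' y hy
      obtain ⟨n, rfl⟩ := (mem_omega_iff x).mp hx'
      rw [hv]
      constructor
      · rintro ⟨h, hh, h1, h2⟩
        have key : ∀ (n : ℕ) (y : ZFSet.{0}), pair (num n) y ∈ h → y = G^[n] x₀ := by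
          intro n
          induction n with
          | zero =>
            intro y hy
            rcases h2 _ (hT h hh _ hy) hy with e | ⟨m, -, z, -, -, e⟩
            · exact (pair_inj.mp e).2
            · exact (succ_ne_empty m (pair_inj.mp e).1.symm).elim
          | succ n ih =>
            intro y hy
            rcases h2 _ (hT h hh _ hy) hy with e | ⟨m, -, z, -, h3, e⟩
            · exact (succ_ne_empty (num n) (pair_inj.mp e).1).elim
            · obtain ⟨e1, e2⟩ := pair_inj.mp e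
              obtain rfl : num n = m := succ_inj e1
              rw [e2, ih z h3, Function.iterate_succ_apply']
        exact key n y h1
      · rintro rfl
        obtain ⟨h, hh, hh'⟩ := W.exists_finite_mem hT hM
          (S := (fun m => pair (num m) (G^[m] x₀)) '' Set.Iic n) ((Set.finite_Iic n).image _)
          (by rintro _ ⟨m, -, rfl⟩; exact W.pair_mem hT hM (W.num_mem hT hM m) (hit m))
        refine ⟨h, hh, (hh' _).mpr ⟨n, Set.mem_Iic.mpr le_rfl, rfl⟩, fun p _ hp => ?_⟩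
        obtain ⟨m, hm, rfl⟩ := (hh' p).mp hp
        cases m with
        | zero => exact Or.inl rfl
        | succ m =>
          refine Or.inr ⟨num m, W.num_mem hT hM m, _, hit m,
            (hh' _).mpr ⟨m, Nat.le_of_succ_le hm, rfl⟩, ?_⟩
          simp only [Function.iterate_succ_apply', num_succ])
  have : img omega v = range fun n : ℕ => G^[n] x₀ := by
    ext z
    rw [mem_img, mem_range]
    constructor
    · rintro ⟨x, hx', rfl⟩
      exact ⟨_, rfl⟩
    · rintro ⟨n, rfl⟩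
      exact ⟨num n, (mem_omega_iff _).mpr ⟨n, rfl⟩, (hv n).symm⟩
  rwa [this] at h

end

end Pool.Agent.Lib.MP_2c70cf_lc
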