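import Mathlib

set_option autoImplicit false

namespace Pool.Agent.Lib.MP_2c70cf_lc

open ZFSet

/-- Formulas of the first order language of set theory, with de Bruijn variables. -/
inductive Fml : Type
  | mem : ℕ → ℕ → Fml
  | eq : ℕ → ℕ → Fml
  | neg : Fml → Fml
  | and : Fml → Fml → Fml
  | ex : Fml → Fml

/-- The assignment giving `x` to variable `0` and `ρ n` to variable `n + 1`. -/
def cons (x : ZFSet.{0}) (ρ : ℕ → ZFSet.{0}) : ℕ → ZFSet.{0}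
  | 0 => x
  | n + 1 => ρ n

/-- Satisfaction in the structure `(D, ∈)`. -/
def Sat (D : Set ZFSet.{0}) : Fml → (ℕ → ZFSet.{0}) → Prop
  | .mem i j, ρ => ρ i ∈ ρ j
  | .eq i j, ρ => ρ i = ρ j
  | .neg φ, ρ => ¬ Sat D φ ρ
  | .and φ ψ, ρ => Sat D φ ρ ∧ Sat D ψ ρ
  | .ex φ, ρ => ∃ x ∈ D, Sat D φ (cons x ρ)

/-- `(M, ∈)` satisfies the axioms of ZF without Power Set, with Replacement and Collection. -/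
structure ModelsZFminus (M : Set ZFSet.{0}) : Prop where
  extensionality : ∀ x ∈ M, ∀ y ∈ M, (∀ z ∈ M, z ∈ x ↔ z ∈ y) → x = y
  foundation : ∀ x ∈ M, (∃ y ∈ M, y ∈ x) → ∃ y ∈ M, y ∈ x ∧ ∀ z ∈ M, z ∈ y → z ∉ x
  pairing : ∀ x ∈ M, ∀ y ∈ M, ∃ s ∈ M, ∀ z ∈ M, z ∈ s ↔ z = x ∨ z = y
  union : ∀ x ∈ M, ∃ s ∈ M, ∀ z ∈ M, z ∈ s ↔ ∃ y ∈ M, y ∈ x ∧ z ∈ y
  infinity : ∃ s ∈ M, (∃ e ∈ M, e ∈ s ∧ ∀ z ∈ M, z ∉ e) ∧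
    ∀ x ∈ M, x ∈ s → ∃ y ∈ M, y ∈ s ∧ ∀ z ∈ M, z ∈ y ↔ z ∈ x ∨ z = x
  separation : ∀ (φ : Fml) (ρ : ℕ → ZFSet.{0}), (∀ i, ρ i ∈ M) → ∀ c ∈ M,
    ∃ s ∈ M, ∀ x ∈ M, x ∈ s ↔ x ∈ c ∧ Sat M φ (cons x ρ)
  replacement : ∀ (φ : Fml) (ρ : ℕ → ZFSet.{0}), (∀ i, ρ i ∈ M) → ∀ c ∈ M,
    (∀ x ∈ M, x ∈ c → ∃ y ∈ M, ∀ y' ∈ M, Sat M φ (cons y' (cons x ρ)) ↔ y' = y) →
    ∃ s ∈ M, ∀ y ∈ M, y ∈ s ↔ ∃ x ∈ M, x ∈ c ∧ Sat M φ (cons y (cons x ρ))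
  collection : ∀ (φ : Fml) (ρ : ℕ → ZFSet.{0}), (∀ i, ρ i ∈ M) → ∀ c ∈ M,
    (∀ x ∈ M, x ∈ c → ∃ y ∈ M, Sat M φ (cons y (cons x ρ))) →
    ∃ s ∈ M, ∀ x ∈ M, x ∈ c → ∃ y ∈ M, y ∈ s ∧ Sat M φ (cons y (cons x ρ))

/-- `p = ⟨d, e, f⟩` is a condition of Friedman's forcing for `M`. -/
def IsCond (M : Set ZFSet.{0}) (p : ZFSet.{0}) : Prop :=
  ∃ d e f : ZFSet.{0}, p = pair d (pair e f) ∧
    d ⊆ omega ∧ (d : Set ZFSet.{0}).Finite ∧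
    (∀ z ∈ e, ∃ i ∈ d, ∃ j ∈ d, z = pair i j) ∧
    (∀ i, ¬ Relation.TransGen (fun i j : ZFSet.{0} => pair i j ∈ e) i i) ∧
    (∀ z ∈ f, ∃ i x, x ∈ M ∧ z = pair i x) ∧
    (∀ i x y, pair i x ∈ f → pair i y ∈ f → x = y) ∧
    (∀ i j x, pair i x ∈ f → pair j x ∈ f → i = j) ∧
    (f = ∅ ∨ ∀ i, i ∈ d ↔ ∃ x, pair i x ∈ f) ∧
    (∀ i j x y, pair i x ∈ f → pair j y ∈ f → (pair i j ∈ e ↔ x ∈ y))

/-- The order `p ≤ q` of Friedman's forcing. -/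
def Le (p q : ZFSet.{0}) : Prop :=
  ∃ d e f d' e' f' : ZFSet.{0}, p = pair d (pair e f) ∧ q = pair d' (pair e' f') ∧
    d' ⊆ d ∧ e ∩ prod d' d' = e' ∧ f' ⊆ f

/-- `G` is a filter on Friedman's forcing that meets every dense subclass definable over `M` with
parameters. -/
structure Generic (M G : Set ZFSet.{0}) : Prop where
  cond : ∀ p ∈ G, IsCond M p
  nonempty : G.Nonempty
  upward : ∀ p ∈ G, ∀ q, IsCond M q → Le p q → q ∈ G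
  directed : ∀ p ∈ G, ∀ q ∈ G, ∃ r ∈ G, Le r p ∧ Le r q
  meets : ∀ (φ : Fml) (ρ : ℕ → ZFSet.{0}) (D : Set ZFSet.{0}), (∀ i, ρ i ∈ M) →
    D = {x ∈ M | Sat M φ (cons x ρ)} → (∀ q ∈ D, IsCond M q) →
    (∀ p, IsCond M p → ∃ q ∈ D, Le q p) → ∃ q ∈ D, q ∈ G

/-- Names: sets of pairs `⟨τ, p⟩` of a name and a condition. -/
inductive IsName (M : Set ZFSet.{0}) : ZFSet.{0} → Prop
  | intro (σ : ZFSet.{0}) (h₁ : ∀ z ∈ σ, ∃ τ p, z = pair τ p ∧ IsCond M p)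
      (h₂ : ∀ τ p, pair τ p ∈ σ → IsName M τ) : IsName M σ

/-- `ev G σ` is the evaluation `σ^G = {τ^G | ∃ p ∈ G, ⟨τ, p⟩ ∈ σ}`. -/
def IsEval (ev : Set ZFSet.{0} → ZFSet.{0} → ZFSet.{0}) : Prop :=
  ∀ G σ x, x ∈ ev G σ ↔ ∃ τ p, p ∈ G ∧ pair τ p ∈ σ ∧ x = ev G τ

/-- The generic extension `M[G]`. -/
def Ext (ev : Set ZFSet.{0} → ZFSet.{0} → ZFSet.{0}) (M G : Set ZFSet.{0}) : Set ZFSet.{0} :=
  {x | ∃ σ ∈ M, IsName M σ ∧ x = ev G σ}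

/-- The forcing relation. -/
def Forces (ev : Set ZFSet.{0} → ZFSet.{0} → ZFSet.{0}) (M : Set ZFSet.{0}) (p : ZFSet.{0})
    (φ : Fml) (σ : ℕ → ZFSet.{0}) : Prop :=
  ∀ G, Generic M G → p ∈ G → Sat (Ext ev M G) φ (fun i => ev G (σ i))

/-- The truth lemma for the formula `φ`. -/
def TruthLemma (ev : Set ZFSet.{0} → ZFSet.{0} → ZFSet.{0}) (M : Set ZFSet.{0}) (φ : Fml) : Prop :=
  ∀ (G : Set ZFSet.{0}) (σ : ℕ → ZFSet.{0}), Generic M G → (∀ i, σ i ∈ M ∧ IsName M (σ i)) →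
    Sat (Ext ev M G) φ (fun i => ev G (σ i)) → ∃ p ∈ G, Forces ev M p φ σ

end Pool.Agent.Lib.MP_2c70cf_lc
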