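import Pool.Agent.Lib.MP_2c70cf_lc.Names
import Pool.Agent.Lib.MP_2c70cf_lc.Closure

set_option autoImplicit false

/-! Back-and-forth equivalence of finite tuples, and the positions of an enumeration which contain
a realisation of every type over the earlier positions. -/

namespace Pool.Agent.Lib.MP_2c70cf_lc

open ZFSet Function

/-- Quantifier depth, an equation counting as one quantifier. -/
def Fml.depth : Fml → ℕ
  | .mem _ _ => 0
  | .eq _ _ => 1
  | .neg φ => φ.depth
  | .and φ ψ => max φ.depth ψ.depth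
  | .ex φ => φ.depth + 1

/-- The tuples of the first `n` entries of `a` and `b` are `k`-back-and-forth equivalent. -/
def EF (M : Set ZFSet.{0}) : ℕ → ℕ → Env → Env → Prop
  | 0, n, a, b => ∀ i < n, ∀ j < n, (a i ∈ a j ↔ b i ∈ b j)
  | k + 1, n, a, b => (∀ x ∈ M, ∃ y ∈ M, EF M k (n + 1) (update a n x) (update b n y)) ∧
      ∀ y ∈ M, ∃ x ∈ M, EF M k (n + 1) (update a n x) (update b n y)

variable {M : Set ZFSet.{0}}

theorem update_agree {n : ℕ} {a a' : Env} (h : ∀ i < n, a i = a' i) (x : ZFSet.{0}) :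
    ∀ i < n + 1, update a n x i = update a' n x i := by
  intro i hi
  by_cases e : i = n
  · subst e; simp
  · rw [update_of_ne e, update_of_ne e]; exact h i (by omega)

theorem EF.congr : ∀ {k n : ℕ} {a b a' b' : Env}, (∀ i < n, a i = a' i) → (∀ i < n, b i = b' i) →
    EF M k n a b → EF M k n a' b'
  | 0, n, a, b, a', b', ha, hb, h => fun i hi j hj => by
    rw [← ha i hi, ← ha j hj, ← hb i hi, ← hb j hj]; exact h i hi j hj
  | k + 1, n, a, b, a', b', ha, hb, h =>
    ⟨fun x hx => by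
      obtain ⟨y, hy, h'⟩ := h.1 x hx
      exact ⟨y, hy, h'.congr (update_agree ha x) (update_agree hb y)⟩,
    fun y hy => by
      obtain ⟨x, hx, h'⟩ := h.2 y hy
      exact ⟨x, hx, h'.congr (update_agree ha x) (update_agree hb y)⟩⟩

theorem EF.zero (hne : M.Nonempty) : ∀ {k n : ℕ} {a b : Env}, EF M k n a b → EF M 0 n a b
  | 0, _, _, _, h => h
  | k + 1, n, a, b, h => by
    obtain ⟨x, hx⟩ := hne
    obtain ⟨y, -, h'⟩ := h.1 x hx
    intro i hi j hj
    have := EF.zero ⟨x, hx⟩ h' i (by omega) j (by omega)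
    rwa [update_of_ne hi.ne, update_of_ne hj.ne, update_of_ne hi.ne, update_of_ne hj.ne] at this

theorem update_mem {n : ℕ} {a : Env} (h : ∀ i < n, a i ∈ M) {x : ZFSet.{0}} (hx : x ∈ M) :
    ∀ i < n + 1, update a n x i ∈ M := by
  intro i hi
  by_cases e : i = n
  · subst e; simpa using hx
  · rw [update_of_ne e]; exact h i (by omega)

theorem update_consN {n : ℕ} {r : ℕ → ℕ} (hr : ∀ i, r i < n) (a : Env) (x : ZFSet.{0}) :
    (fun i => update a n x (consN n r i)) = cons x fun i => a (r i) := by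
  funext i
  cases i with
  | zero => simp [consN]
  | succ i => simp [consN, update_of_ne (hr i).ne]

theorem EF.sat (hT : Trans M) (hne : M.Nonempty) (φ : Fml) : ∀ {k n : ℕ} {a b : Env}
    {r : ℕ → ℕ}, EF M k n a b → φ.depth ≤ k → (∀ i, r i < n) → (∀ i < n, a i ∈ M) →
    (∀ i < n, b i ∈ M) → (Sat M φ (fun i => a (r i)) ↔ Sat M φ (fun i => b (r i))) := by
  induction φ with
  | mem i j =>
    intro k n a b r h _ hr _ _
    exact h.zero hne _ (hr i) _ (hr j)
  | eq i j =>
    intro k n a b r h hk hr ha hb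
    obtain ⟨k, rfl⟩ : ∃ k', k = k' + 1 := ⟨k - 1, by simp only [Fml.depth] at hk; omega⟩
    have key : ∀ x y, EF M k (n + 1) (update a n x) (update b n y) →
        ∀ i, (x ∈ a (r i) ↔ y ∈ b (r i)) := by
      intro x y h' i
      have := h'.zero hne n (by omega) (r i) (by have := hr i; omega)
      rwa [update_self, update_self, update_of_ne (hr i).ne, update_of_ne (hr i).ne] at this
    simp only [Sat]
    constructor
    · intro e
      ext y
      by_cases hy : y ∈ M
      · obtain ⟨x, -, h'⟩ := h.2 y hy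
        rw [← key x y h' i, ← key x y h' j, e]
      · exact ⟨fun h1 => (hy (hT _ (hb _ (hr i)) y h1)).elim,
          fun h1 => (hy (hT _ (hb _ (hr j)) y h1)).elim⟩
    · intro e
      ext x
      by_cases hx : x ∈ M
      · obtain ⟨y, -, h'⟩ := h.1 x hx
        rw [key x y h' i, key x y h' j, e]
      · exact ⟨fun h1 => (hx (hT _ (ha _ (hr i)) x h1)).elim,
          fun h1 => (hx (hT _ (ha _ (hr j)) x h1)).elim⟩
  | neg φ ih => intro k n a b r h hk hr ha hb; exact not_congr (ih h hk hr ha hb)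
  | and φ ψ ih₁ ih₂ =>
    intro k n a b r h hk hr ha hb
    simp only [Fml.depth] at hk
    exact and_congr (ih₁ h (by omega) hr ha hb) (ih₂ h (by omega) hr ha hb)
  | ex φ ih =>
    intro k n a b r h hk hr ha hb
    simp only [Fml.depth] at hk
    obtain ⟨k, rfl⟩ : ∃ k', k = k' + 1 := ⟨k - 1, by omega⟩
    have hr' : ∀ i, consN n r i < n + 1 := by
      intro i
      cases i with
      | zero => simp [consN]
      | succ i => have := hr i; simp only [consN]; omega
    have key : ∀ x ∈ M, ∀ y ∈ M, EF M k (n + 1) (update a n x) (update b n y) →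
        (Sat M φ (cons x fun i => a (r i)) ↔ Sat M φ (cons y fun i => b (r i))) := by
      intro x hx y hy h'
      have := ih h' (by omega) hr' (update_mem ha hx) (update_mem hb hy)
      rwa [update_consN hr, update_consN hr] at this
    simp only [Sat]
    constructor
    · rintro ⟨x, hx, h1⟩
      obtain ⟨y, hy, h'⟩ := h.1 x hx
      exact ⟨y, hy, (key x hx y hy h').mp h1⟩
    · rintro ⟨y, hy, h1⟩
      obtain ⟨x, hx, h'⟩ := h.2 y hy
      exact ⟨x, hx, (key x hx y hy h').mpr h1⟩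

theorem EF.finite (M : Set ZFSet.{0}) (k : ℕ) : ∀ n : ℕ, ∃ (T : Type) (_ : Finite T)
    (f : Env → T), ∀ a b, f a = f b → EF M k n a b := by
  induction k with
  | zero =>
    intro n
    refine ⟨Set (Fin n × Fin n), inferInstance, fun a => {p | a p.1 ∈ a p.2}, fun a b h => ?_⟩
    intro i hi j hj
    exact Set.ext_iff.mp h (⟨i, hi⟩, ⟨j, hj⟩)
  | succ k ih =>
    intro n
    obtain ⟨T, hT, f, hf⟩ := ih (n + 1)
    refine ⟨Set T, inferInstance, fun a => {u | ∃ x ∈ M, f (update a n x) = u}, fun a b h => ?_⟩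
    constructor
    · intro x hx
      obtain ⟨y, hy, e⟩ := (Set.ext_iff.mp h _).mp ⟨x, hx, rfl⟩
      exact ⟨y, hy, hf _ _ e.symm⟩
    · intro y hy
      obtain ⟨x, hx, e⟩ := (Set.ext_iff.mp h _).mpr ⟨y, hy, rfl⟩
      exact ⟨x, hx, hf _ _ e⟩

/-- `F i` contains a realisation of every `i`-type over `F 0, …, F (i - 1)`. -/
def Bad (M : Set ZFSet.{0}) (i : ℕ) (F : Env) : Prop :=
  ∀ t ∈ M, ∃ t' ∈ F i, EF M i (i + 1) (update F i t') (update F i t)

theorem Bad.congr {i : ℕ} {F F' : Env} (h : ∀ j < i + 1, F j = F' j) (hb : Bad M i F) :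
    Bad M i F' := by
  intro t ht
  obtain ⟨t', h1, h2⟩ := hb t ht
  exact ⟨t', h i (by omega) ▸ h1, h2.congr (update_agree (fun j hj => h j (by omega)) _)
    (update_agree (fun j hj => h j (by omega)) _)⟩

theorem Bad.sat (hT : Trans M) {i : ℕ} {F : Env} (hb : Bad M i F) (hF : ∀ j < i + 1, F j ∈ M)
    (φ : Fml) (hφ : φ.depth ≤ i) {r : ℕ → ℕ} (hr : ∀ j, r j < i) {t : ZFSet.{0}} (ht : t ∈ M)
    (h : Sat M φ (cons t fun j => F (r j))) :
    ∃ t' ∈ F i, Sat M φ (cons t' fun j => F (r j)) := by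
  obtain ⟨t', h1, h2⟩ := hb t ht
  have hr' : ∀ j, consN i r j < i + 1 := by
    intro j
    cases j with
    | zero => simp [consN]
    | succ j => have := hr j; simp only [consN]; omega
  have := h2.sat hT ⟨t, ht⟩ φ hφ hr'
    (update_mem (fun j hj => hF j (by omega)) (hT _ (hF i (by omega)) _ h1))
    (update_mem (fun j hj => hF j (by omega)) ht)
  rw [update_consN hr, update_consN hr] at this
  exact ⟨t', h1, this.mpr h⟩

theorem Bad.hist (hT : Trans M) {i : ℕ} {F : Env} (hb : Bad M i F) (hF : ∀ j < i + 1, F j ∈ M)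
    {m : ℕ} (hm : m < i) : F m ∈ F i := by
  obtain ⟨t', h1, h2⟩ := hb.sat hT hF (.eq 0 1) (by simp only [Fml.depth]; omega)
    (r := fun _ => m) (fun _ => hm) (hF m (by omega)) rfl
  have : t' = F m := h2
  rwa [this] at h1

theorem exists_bad (hT : Trans M) (hM : ModelsZFrepl M) (i : ℕ) (F : Env) :
    ∃ x ∈ M, Bad M i (update F i x) := by
  classical
  obtain ⟨T, hfin, f, hf⟩ := EF.finite M i (i + 1)
  have hex : ∀ u : T, ∃ t ∈ M, (∃ t' ∈ M, f (update F i t') = u) → f (update F i t) = u := by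
    intro u
    by_cases h : ∃ t' ∈ M, f (update F i t') = u
    · obtain ⟨t, ht, e⟩ := h
      exact ⟨t, ht, fun _ => e⟩
    · exact ⟨∅, W.empty_mem hT hM, fun h' => (h h').elim⟩
  choose g hg1 hg2 using hex
  obtain ⟨x, hx, hx'⟩ := W.exists_finite_mem hT hM (Set.finite_range g)
    (by rintro _ ⟨u, rfl⟩; exact hg1 u)
  refine ⟨x, hx, fun t ht => ⟨g (f (update F i t)), ?_, ?_⟩⟩
  · rw [update_self, hx']; exact ⟨_, rfl⟩
  · rw [update_idem, update_idem]
    exact hf _ _ (hg2 _ ⟨t, ht, rfl⟩)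

end Pool.Agent.Lib.MP_2c70cf_lc
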