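import Pool.Agent.Lib.MP_2c70cf_lc.EF

set_option autoImplicit false

/-! Generic enumerations of an arbitrary countable transitive model with finitely many, or with
infinitely many, bad positions. -/

namespace Pool.Agent.Lib.MP_2c70cf_lc

open ZFSet Function

/-- An injective finite sequence of elements of `M` starting with `∅`. -/
def Val (M : Set ZFSet.{0}) (x : ℕ × Env) : Prop :=
  1 ≤ x.1 ∧ x.2 0 = ∅ ∧ (∀ i < x.1, ∀ j < x.1, x.2 i = x.2 j → i = j) ∧ ∀ i < x.1, x.2 i ∈ M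

/-- `y` extends `x`. -/
def Ex (x y : ℕ × Env) : Prop := x.1 ≤ y.1 ∧ ∀ i < x.1, y.2 i = x.2 i

/-- `y` extends `x` and no new position is bad. -/
def Xg (M : Set ZFSet.{0}) (x y : ℕ × Env) : Prop :=
  Ex x y ∧ ∀ i, x.1 ≤ i → i < y.1 → ¬ Bad M i y.2

theorem Ex.refl (x : ℕ × Env) : Ex x x := ⟨le_rfl, fun _ _ => rfl⟩

theorem Ex.trans {x y z : ℕ × Env} (h₁ : Ex x y) (h₂ : Ex y z) : Ex x z :=
  ⟨h₁.1.trans h₂.1, fun i hi => (h₂.2 i (hi.trans_le h₁.1)).trans (h₁.2 i hi)⟩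

variable {M : Set ZFSet.{0}}

theorem Xg.refl (x : ℕ × Env) : Xg M x x := ⟨Ex.refl x, fun i h h' => by omega⟩

theorem Xg.trans {x y z : ℕ × Env} (h₁ : Xg M x y) (h₂ : Xg M y z) : Xg M x z := by
  refine ⟨h₁.1.trans h₂.1, fun i hi hi' hb => ?_⟩
  by_cases h : i < y.1
  · exact h₁.2 i hi h (hb.congr fun j hj => h₂.1.2 j (by omega))
  · exact h₂.2 i (by omega) hi' hb

theorem val_push {x : ℕ × Env} (hx : Val M x) {c : ZFSet.{0}} (hc : c ∈ M)
    (hnew : ∀ i < x.1, x.2 i ≠ c) :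
    Val M (x.1 + 1, update x.2 x.1 c) ∧ Ex x (x.1 + 1, update x.2 x.1 c) := by
  obtain ⟨h1, h2, h3, h4⟩ := hx
  refine ⟨⟨by simp, by simp only; rw [update_of_ne (by omega)]; exact h2, ?_,
    update_mem h4 hc⟩, by simp, fun i hi => update_of_ne hi.ne _ _⟩
  intro i hi j hj e
  simp only at hi hj e
  by_cases ei : i = x.1 <;> by_cases ej : j = x.1
  · rw [ei, ej]
  · rw [ei, update_self, update_of_ne ej] at e
    exact (hnew j (by omega) e.symm).elim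
  · rw [ej, update_self, update_of_ne ei] at e
    exact (hnew i (by omega) e).elim
  · rw [update_of_ne ei, update_of_ne ej] at e
    exact h3 i (by omega) j (by omega) e

theorem xg_push (hT : Trans M) {x : ℕ × Env} (hx : Val M x) {c : ZFSet.{0}} (hc : c ∈ M)
    (hnew : ∀ i < x.1, x.2 i ≠ c) (hgood : ∃ m < x.1, x.2 m ∉ c) :
    Val M (x.1 + 1, update x.2 x.1 c) ∧ Xg M x (x.1 + 1, update x.2 x.1 c) := by
  obtain ⟨h1, h2⟩ := val_push hx hc hnew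
  refine ⟨h1, h2, fun i hi hi' hb => ?_⟩
  obtain rfl : i = x.1 := by simp only at hi'; omega
  obtain ⟨m, hm, hm'⟩ := hgood
  have := hb.hist hT h1.2.2.2 hm
  simp only [update_self, update_of_ne hm.ne] at this
  exact hm' this

theorem empty_notMem_pair (a b : ZFSet.{0}) : (∅ : ZFSet.{0}) ∉ pair a b := by
  intro h
  rcases ZFSet.mem_pair.mp h with h | h
  · exact singleton_ne_empty _ h.symm
  · exact notMem_empty a (h ▸ (by simp : a ∈ ({a, b} : ZFSet.{0})))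

theorem rank_lt_pair_right (a b : ZFSet.{0}) : rank b < rank (pair a b) :=
  (rank_lt_of_mem (by simp : b ∈ ({a, b} : ZFSet.{0}))).trans
    (rank_lt_of_mem (by simp [ZFSet.pair]))

theorem rank_lt_fS {s : Finset ℕ} {F : Env} {i : ℕ} (hi : i ∈ s) : rank (F i) < rank (fS s F) :=
  (rank_lt_pair_right _ _).trans (rank_lt_of_mem (mem_fS.mpr ⟨i, hi, rfl⟩))

section

variable (hT : Trans M) (hM : ModelsZFrepl M)
include hT hM

theorem fS_mem {s : Finset ℕ} {F : Env} (h : ∀ i ∈ s, F i ∈ M) : fS s F ∈ M := by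
  obtain ⟨t, ht, ht'⟩ := W.exists_finite_mem hT hM (S := (fS s F : Set ZFSet.{0}))
    (by rw [fS, coe_range]; exact Set.finite_range _) (by
      intro z hz
      obtain ⟨i, hi, rfl⟩ := mem_fS.mp hz
      exact W.pair_mem hT hM (W.num_mem hT hM i) (h i hi))
  have : t = fS s F := ZFSet.ext ht'
  rwa [this] at ht

/-- Appending a code of the whole sequence. -/
theorem step_code {x : ℕ × Env} (hx : Val M x) : ∃ y, Val M y ∧ Xg M x y ∧ y.1 = x.1 + 1 ∧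
    y.2 x.1 = pair (num x.1) (fS (Finset.range x.1) x.2) := by
  obtain ⟨h1, h2⟩ := xg_push hT hx (c := pair (num x.1) (fS (Finset.range x.1) x.2))
    (W.pair_mem hT hM (W.num_mem hT hM _) (fS_mem hT hM fun i hi => hx.2.2.2 i (by simpa using hi)))
    (fun i hi e => by
      have := (rank_lt_fS (F := x.2) (Finset.mem_range.mpr hi)).trans
        (rank_lt_pair_right (num x.1) _)
      rw [e] at this
      exact lt_irrefl _ this)
    ⟨0, hx.1, by rw [hx.2.1]; exact empty_notMem_pair _ _⟩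
  exact ⟨_, h1, h2, rfl, update_self _ _ _⟩

theorem step_len (n : ℕ) {x : ℕ × Env} (hx : Val M x) : ∃ y, Val M y ∧ Xg M x y ∧ n ≤ y.1 := by
  induction n with
  | zero => exact ⟨x, hx, Xg.refl x, Nat.zero_le _⟩
  | succ n ih =>
    obtain ⟨y, h1, h2, h3⟩ := ih
    obtain ⟨z, h4, h5, h6, -⟩ := step_code hT hM h1
    exact ⟨z, h4, h2.trans h5, by omega⟩

theorem step_onto' {c : ZFSet.{0}} (hc : c ∈ M) {x : ℕ × Env} (hx : Val M x) :
    ∃ y, Val M y ∧ Xg M x y ∧ ∃ i < y.1, y.2 i = c := by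
  have key : ∀ x : ℕ × Env, Val M x → (∃ i < x.1, x.2 i = {c}) →
      ∃ y, Val M y ∧ Xg M x y ∧ ∃ i < y.1, y.2 i = c := by
    rintro x hx ⟨m, hm, hm'⟩
    by_cases h : ∃ i < x.1, x.2 i = c
    · exact ⟨x, hx, Xg.refl x, h⟩
    · push Not at h
      obtain ⟨h1, h2⟩ := xg_push hT hx hc h
        ⟨m, hm, by rw [hm']; exact fun h' => mem_asymm h' (mem_singleton.mpr rfl)⟩
      exact ⟨_, h1, h2, x.1, by simp, update_self _ _ _⟩
  by_cases h : ∃ i < x.1, x.2 i = c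
  · exact ⟨x, hx, Xg.refl x, h⟩
  by_cases h' : ∃ i < x.1, x.2 i = {c}
  · exact key x hx h'
  push Not at h h'
  obtain ⟨h1, h2⟩ := xg_push hT hx (W.singleton_mem hT hM hc) h'
    ⟨0, hx.1, fun e => h 0 hx.1 (mem_singleton.mp e)⟩
  obtain ⟨y, h3, h4, h5⟩ := key _ h1 ⟨x.1, by simp, update_self _ _ _⟩
  exact ⟨y, h3, h2.trans h4, h5⟩

theorem step_params (ρ : Env) (hρ : ∀ i, ρ i ∈ M) (n : ℕ) {x : ℕ × Env} (hx : Val M x) :
    ∃ y, Val M y ∧ Xg M x y ∧ ∀ j < n, ∃ i < y.1, y.2 i = ρ j := by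
  induction n with
  | zero => exact ⟨x, hx, Xg.refl x, fun j hj => by omega⟩
  | succ n ih =>
    obtain ⟨y, h1, h2, h3⟩ := ih
    obtain ⟨z, h4, h5, h6⟩ := step_onto' hT hM (hρ n) h1
    refine ⟨z, h4, h2.trans h5, fun j hj => ?_⟩
    by_cases e : j = n
    · rw [e]; exact h6
    · obtain ⟨i, hi, hi'⟩ := h3 j (by omega)
      exact ⟨i, hi.trans_le h5.1.1, (h5.1.2 i hi).trans hi'⟩

theorem step_bad (n : ℕ) {x : ℕ × Env} (hx : Val M x) :
    ∃ y, Val M y ∧ Ex x y ∧ ∃ i, n ≤ i ∧ i < y.1 ∧ Bad M i y.2 := by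
  obtain ⟨y, h1, h2, h3⟩ := step_len hT hM n hx
  obtain ⟨c, hc, hb⟩ := exists_bad hT hM y.1 y.2
  obtain ⟨h4, h5⟩ := val_push h1 hc (fun i hi e => by
    have := hb.hist hT (update_mem h1.2.2.2 hc) hi
    rw [update_self, update_of_ne hi.ne, e] at this
    exact mem_irrefl _ this)
  exact ⟨_, h4, h2.1.trans h5, y.1, h3, by simp, hb⟩

theorem step_dense' (φ : Fml) (ρ : Env) (hρ : ∀ i, ρ i ∈ M)
    (hD1 : ∀ q ∈ M, Sat M φ (cons q ρ) → IsCond M q)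
    (hD2 : ∀ p, IsCond M p → ∃ q ∈ M, Sat M φ (cons q ρ) ∧ Le q p)
    {x : ℕ × Env} (hx : Val M x) :
    ∃ y, Val M y ∧ Xg M x y ∧ ∃ s : Finset ℕ, (∀ i ∈ s, i < y.1) ∧ cnd s y.2 ∈ M ∧
      Sat M φ (cons (cnd s y.2) ρ) := by
  classical
  have hR : Dfn (fun D σ => Sat D φ (cons (σ 0) fun i => σ (i + 2)) ∧
      ∃ d ∈ D, ∃ e ∈ D, ∃ f ∈ D, ∃ u ∈ D, ∃ n ∈ D, ∃ g ∈ D, ∃ p ∈ D, σ 0 = pair d u ∧
        u = pair e f ∧ σ 1 = pair n g ∧ g ⊆ f ∧ p = pair n (σ 1) ∧ p ∈ f) :=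
    (Dfn.sat1 φ 0 2).and ((Dfn.pair 7 6 3).and ((Dfn.pair 3 5 4).and ((Dfn.pair 8 2 1).and
      ((Dfn.subset 1 4).and ((Dfn.pair 0 2 8).and (Dfn.mem 0 4)))))).ex.ex.ex.ex.ex.ex.ex
  obtain ⟨ψ, hψ⟩ := hR
  obtain ⟨x₁, hx₁, hxx₁, hpar⟩ := step_params hT hM ρ hρ φ.bound hx
  obtain ⟨x₂, hx₂, hx₁₂, hlen⟩ := step_len hT hM ψ.depth hx₁
  obtain ⟨y, hy, hxy, hy1, hy2⟩ := step_code hT hM hx₂
  have hex : ∀ j, ∃ i < y.1, j < φ.bound → y.2 i = ρ j := by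
    intro j
    by_cases hj : j < φ.bound
    · obtain ⟨i, hi, hi'⟩ := hpar j hj
      have h12 := (hx₁₂.trans hxy).1
      exact ⟨i, hi.trans_le h12.1, fun _ => (h12.2 i hi).trans hi'⟩
    · exact ⟨0, hy.1, fun h => (hj h).elim⟩
  choose pos hpos1 hpos2 using hex
  let r : ℕ → ℕ := consN x₂.1 pos
  have hr : ∀ j, r j < y.1 := by
    intro j
    cases j with
    | zero => simp only [r, consN]; omega
    | succ j => exact hpos1 j
  have hφ : ∀ q, Sat M φ (cons q fun i => y.2 (pos i)) ↔ Sat M φ (cons q ρ) := by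
    intro q
    refine sat_congr _ φ φ.bound _ _ le_rfl fun i hi => ?_
    cases i with
    | zero => rfl
    | succ i => exact hpos2 i (by omega)
  have hyM : ∀ j, y.2 (r j) ∈ M := fun j => hy.2.2.2 _ (hr j)
  have hψ' : ∀ q ∈ M, Sat M ψ (cons q fun j => y.2 (r j)) ↔ Sat M φ (cons q ρ) ∧
      ∃ d e f, q = pair d (pair e f) ∧ ∀ i < y.1, pair (num i) (y.2 i) ∈ f := by
    intro q hq
    rw [hψ M hT _ (cons_mem hq hyM), ← hφ]
    refine and_congr Iff.rfl ?_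
    have h1 : cons q (fun j => y.2 (r j)) 1 = pair (num x₂.1) (fS (Finset.range x₂.1) x₂.2) := hy2
    simp only [cons_zero, h1]
    constructor
    · rintro ⟨d, -, e, -, f, -, _, -, n, -, g, -, _, -, rfl, rfl, h2, h3, rfl, h4⟩
      obtain ⟨rfl, rfl⟩ := pair_inj.mp h2
      refine ⟨d, e, f, rfl, fun i hi => ?_⟩
      by_cases e' : i = x₂.1
      · rw [e', hy2]; exact h4
      · have hi' : i < x₂.1 := by omega
        exact h3 (mem_fS.mpr ⟨i, Finset.mem_range.mpr hi', by rw [hxy.1.2 i hi']⟩)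
    · rintro ⟨d, e, f, rfl, h⟩
      have hf : f ∈ M := snd_mem hT (snd_mem hT hq)
      have h2 := h x₂.1 (by omega)
      rw [hy2] at h2
      have h3 := snd_mem hT (hT f hf _ h2)
      refine ⟨d, fst_mem hT hq, e, fst_mem hT (snd_mem hT hq), f, hf, _, snd_mem hT hq, _,
        fst_mem hT h3, _, snd_mem hT h3, _, hT f hf _ h2, rfl, rfl, rfl, fun z hz => ?_, rfl, h2⟩
      obtain ⟨i, hi, rfl⟩ := mem_fS.mp hz
      rw [Finset.mem_range] at hi
      rw [← hxy.1.2 i hi]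
      exact h i (by omega)
  obtain ⟨q, ⟨hq, hq1⟩, hmin⟩ := (InvImage.wf rank Ordinal.lt_wf).has_min
    {q | q ∈ M ∧ Sat M ψ (cons q fun j => y.2 (r j))} (by
      obtain ⟨q, hq, hq1, d, e, f, d', e', f', rfl, h0, -, -, h3⟩ :=
        hD2 _ (isCond_cnd (s := Finset.range y.1) (F := y.2)
          (fun i hi j hj => hy.2.2.1 i (by simpa using hi) j (by simpa using hj))
          fun i hi => hy.2.2.2 i (by simpa using hi))
      simp only [cnd, pair_inj] at h0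
      obtain ⟨-, -, rfl⟩ := h0
      exact ⟨_, hq, (hψ' _ hq).mpr ⟨hq1, d, e, f, rfl, fun i hi =>
        h3 (mem_fS.mpr ⟨i, Finset.mem_range.mpr hi, rfl⟩)⟩⟩)
  obtain ⟨hq2, d, e, f, rfl, hf⟩ := (hψ' q hq).mp hq1
  obtain ⟨s, F, hsF, hinj, hFM⟩ := exists_eq_cnd (hD1 _ hq hq2) (fun e' => by
    have := hf 0 hy.1
    rw [e'] at this
    exact notMem_empty _ this)
  have hf' : f = fS s F := by
    simp only [cnd, pair_inj] at hsF
    exact hsF.2.2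
  have hys : ∀ i < y.1, i ∈ s ∧ F i = y.2 i := by
    intro i hi
    have := hf i hi
    rw [hf'] at this
    obtain ⟨j, hj, h⟩ := mem_fS.mp this
    simp only [pair_inj, num_inj] at h
    obtain ⟨rfl, h⟩ := h
    exact ⟨hj, h.symm⟩
  generalize hq0 : pair d (pair e f) = q at *
  have hrk : ∀ i ∈ s, rank (F i) < rank q := by
    intro i hi
    rw [hsF]
    exact (rank_lt_fS hi).trans ((rank_lt_pair_right _ _).trans (rank_lt_pair_right _ _))
  let F' : Env := fun i => if i ∈ s then F i else pair (num i) q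
  have hF' : ∀ i ∈ s, F' i = F i := fun i hi => if_pos hi
  have hF'' : ∀ i ∉ s, F' i = pair (num i) q := fun i hi => if_neg hi
  have hF'y : ∀ i < y.1, F' i = y.2 i := fun i hi => (hF' i (hys i hi).1).trans (hys i hi).2
  obtain ⟨N, hN⟩ : ∃ N, ∀ i ∈ s, i < N := ⟨s.sup id + 1, fun i hi =>
    Nat.lt_succ_of_le (Finset.le_sup (f := id) hi)⟩
  have hyN : y.1 ≤ N := by
    have := hN _ (hys x₂.1 (by omega)).1
    omega
  have hF'M : ∀ i, F' i ∈ M := by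
    intro i
    by_cases hi : i ∈ s
    · rw [hF' i hi]; exact hFM i hi
    · rw [hF'' i hi]; exact W.pair_mem hT hM (W.num_mem hT hM i) hq
  have h0 : F' 0 = ∅ := (hF'y 0 hy.1).trans hy.2.1
  refine ⟨(N, F'), ⟨hy.1.trans hyN, h0, ?_, fun i _ => hF'M i⟩,
    (hxx₁.trans (hx₁₂.trans hxy)).trans ⟨⟨hyN, hF'y⟩, fun i hi _ hb => ?_⟩, s, hN, ?_⟩
  · intro i _ j _ e'
    simp only at e'
    by_cases hi : i ∈ s <;> by_cases hj : j ∈ s
    · rw [hF' i hi, hF' j hj] at e'; exact hinj hi hj e'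
    · rw [hF' i hi, hF'' j hj] at e'
      exact absurd (e' ▸ rank_lt_pair_right (num j) q) (hrk i hi).not_gt
    · rw [hF'' i hi, hF' j hj] at e'
      exact absurd (e' ▸ rank_lt_pair_right (num i) q) (hrk j hj).not_gt
    · rw [hF'' i hi, hF'' j hj] at e'; exact num_injective (pair_inj.mp e').1
  · simp only at hb
    by_cases his : i ∈ s
    · have e1 : (fun j => F' (r j)) = fun j => y.2 (r j) := funext fun j => hF'y _ (hr j)
      obtain ⟨t', h1, h2⟩ := hb.sat hT (fun j _ => hF'M j) ψ (by omega) (r := r)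
        (fun j => (hr j).trans_le hi) hq (by rw [e1]; exact hq1)
      rw [e1] at h2
      refine hmin t' ⟨hT _ (hF'M i) _ h1, h2⟩ ?_
      rw [hF' i his] at h1
      exact (rank_lt_of_mem h1).trans (hrk i his)
    · have := hb.hist hT (fun j _ => hF'M j) (hy.1.trans hi : 0 < i)
      rw [h0, hF'' i his] at this
      exact empty_notMem_pair _ _ this
  · simp only
    rw [cnd_congr hF', ← hsF]
    exact ⟨hq, hq2⟩

end

theorem fusion2 {I : ℕ × Env → Prop} {R : ℕ × Env → ℕ × Env → Prop} (hR0 : ∀ x, R x x)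
    (hR1 : ∀ x y z, R x y → R y z → R x z) (hR2 : ∀ x y, R x y → Ex x y) {ι : Type*} [Countable ι]
    (P : ι → ℕ × Env → Prop) (hfill : ∀ n x, I x → ∃ y, I y ∧ R x y ∧ n ≤ y.1)
    (hstep : ∀ j x, I x → ∃ y, I y ∧ R x y ∧ P j y) (x₀ : ℕ × Env) (hx₀ : I x₀) :
    ∃ F : Env, (∀ n, ∃ y, I y ∧ R x₀ y ∧ n ≤ y.1 ∧ ∀ i < y.1, F i = y.2 i) ∧
      ∀ j, ∃ y, P j y ∧ ∀ i < y.1, F i = y.2 i := by
  obtain ⟨en, hen⟩ := exists_surjective_nat (ℕ ⊕ ι)
  let P' : ℕ ⊕ ι → ℕ × Env → Prop := Sum.elim (fun n y => n ≤ y.1) P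
  have hstep' : ∀ (n : ℕ) (x : {x // I x}), ∃ y : {x // I x}, R x.1 y.1 ∧ P' (en n) y.1 := by
    intro n x
    rcases en n with k | j
    · obtain ⟨y, h1, h2, h3⟩ := hfill k x.1 x.2; exact ⟨⟨y, h1⟩, h2, h3⟩
    · obtain ⟨y, h1, h2, h3⟩ := hstep j x.1 x.2; exact ⟨⟨y, h1⟩, h2, h3⟩
  choose g hg1 hg2 using hstep'
  let sq : ℕ → {x // I x} := fun n => Nat.rec ⟨x₀, hx₀⟩ (fun n x => g n x) n
  have hmono : ∀ m n, m ≤ n → R (sq m).1 (sq n).1 := by
    intro m n h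
    induction h with
    | refl => exact hR0 _
    | step _ ih => exact hR1 _ _ _ ih (hg1 _ _)
  have hP : ∀ t, ∃ n, P' t (sq n).1 := by
    intro t
    obtain ⟨n, rfl⟩ := hen t
    exact ⟨n + 1, hg2 n (sq n)⟩
  have hcov : ∀ i, ∃ n, i ≤ (sq n).1.1 := fun i => hP (Sum.inl i)
  choose k hk using hcov
  have hagree : ∀ n, ∀ i < (sq n).1.1, (sq (k (i + 1))).1.2 i = (sq n).1.2 i := by
    intro n i hi
    rcases le_total n (k (i + 1)) with h | h
    · exact (hR2 _ _ (hmono _ _ h)).2 i hi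
    · exact ((hR2 _ _ (hmono _ _ h)).2 i (hk (i + 1))).symm
  refine ⟨fun i => (sq (k (i + 1))).1.2 i, fun n => ⟨_, (sq (k n)).2, hmono 0 _ (Nat.zero_le _),
    hk n, hagree _⟩, fun j => ?_⟩
  obtain ⟨n, hn⟩ := hP (Sum.inr j)
  exact ⟨_, hn, hagree n⟩

theorem exists_generic2 (hT : Trans M) (hM : ModelsZFrepl M) (hc : M.Countable)
    {R : ℕ × Env → ℕ × Env → Prop} (hR1 : ∀ x y z, R x y → R y z → R x z)
    (hR2 : ∀ x y, R x y → Ex x y) (hR3 : ∀ x y, Xg M x y → R x y) (Q : ℕ → ℕ × Env → Prop)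
    (hQ : ∀ n x, Val M x → ∃ y, Val M y ∧ R x y ∧ Q n y) (x₀ : ℕ × Env) (hx₀ : Val M x₀) :
    ∃ F : Env, Function.Injective F ∧ Set.range F = M ∧ Generic M (GF M F) ∧
      (∀ n, ∃ y, R x₀ y ∧ n ≤ y.1 ∧ ∀ i < y.1, F i = y.2 i) ∧
      ∀ n, ∃ y, Q n y ∧ ∀ i < y.1, F i = y.2 i := by
  classical
  have := hc.to_subtype
  let env : (φ : Fml) → (Fin φ.bound → M) → Env := fun φ v i =>
    if h : i < φ.bound then (v ⟨i, h⟩).1 else ∅
  have henv : ∀ φ v i, env φ v i ∈ M := by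
    intro φ v i
    simp only [env]
    split_ifs with h
    · exact (v ⟨i, h⟩).2
    · exact W.empty_mem hT hM
  let P : ℕ ⊕ M ⊕ (Σ φ : Fml, Fin φ.bound → M) → ℕ × Env → Prop :=
    Sum.elim Q (Sum.elim (fun c y => ∃ i < y.1, y.2 i = c.1) (fun j y =>
      (∀ q ∈ M, Sat M j.1 (cons q (env j.1 j.2)) → IsCond M q) →
      (∀ p, IsCond M p → ∃ q ∈ M, Sat M j.1 (cons q (env j.1 j.2)) ∧ Le q p) →
      ∃ s : Finset ℕ, (∀ i ∈ s, i < y.1) ∧ cnd s y.2 ∈ M ∧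
        Sat M j.1 (cons (cnd s y.2) (env j.1 j.2))))
  obtain ⟨F, hF, hP⟩ := fusion2 (I := Val M) (fun x => hR3 x x (Xg.refl x)) hR1 hR2 P
    (fun n x hx => by
      obtain ⟨y, h1, h2, h3⟩ := step_len hT hM n hx
      exact ⟨y, h1, hR3 _ _ h2, h3⟩)
    (by
      rintro (n | c | ⟨φ, v⟩) x hx
      · exact hQ n x hx
      · obtain ⟨y, h1, h2, h3⟩ := step_onto' hT hM c.2 hx
        exact ⟨y, h1, hR3 _ _ h2, h3⟩
      · by_cases h : (∀ q ∈ M, Sat M φ (cons q (env φ v)) → IsCond M q) ∧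
            (∀ p, IsCond M p → ∃ q ∈ M, Sat M φ (cons q (env φ v)) ∧ Le q p)
        · obtain ⟨y, h1, h2, h3⟩ := step_dense' hT hM φ _ (henv φ v) h.1 h.2 hx
          exact ⟨y, h1, hR3 _ _ h2, fun _ _ => h3⟩
        · exact ⟨x, hx, hR3 _ _ (Xg.refl x), fun h1 h2 => (h ⟨h1, h2⟩).elim⟩) x₀ hx₀
  have hinj : Function.Injective F := by
    intro i j e
    obtain ⟨y, h1, -, h2, h3⟩ := hF (max i j + 1)
    have hi : i < y.1 := by omega
    have hj : j < y.1 := by omega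
    exact h1.2.2.1 i hi j hj (by rw [← h3 i hi, ← h3 j hj, e])
  have hFM : ∀ i, F i ∈ M := by
    intro i
    obtain ⟨y, h1, -, h2, h3⟩ := hF (i + 1)
    rw [h3 i h2]; exact h1.2.2.2 i h2
  have hcnd : ∀ s, cnd s F ∈ GF M F := fun s =>
    ⟨isCond_cnd hinj.injOn fun i _ => hFM i, s, cnd_le subset_rfl F⟩
  refine ⟨F, hinj, ?_, ⟨fun p hp => hp.1, ⟨_, hcnd ∅⟩, ?_, ?_, ?_⟩, fun n => ?_,
    fun n => hP (Sum.inl n)⟩
  · refine Set.Subset.antisymm (by rintro _ ⟨i, rfl⟩; exact hFM i) fun c hc => ?_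
    obtain ⟨y, ⟨i, hi, h1⟩, h2⟩ := hP (Sum.inr (Sum.inl ⟨c, hc⟩))
    exact ⟨i, (h2 i hi).trans h1⟩
  · rintro p ⟨-, s, hs⟩ q hq hpq
    exact ⟨hq, s, hs.trans hpq⟩
  · rintro p ⟨-, s, hs⟩ q ⟨-, t, ht⟩
    exact ⟨_, hcnd (s ∪ t), (cnd_le Finset.subset_union_left F).trans hs,
      (cnd_le Finset.subset_union_right F).trans ht⟩
  · rintro φ ρ D hρ rfl hD1 hD2
    have hc : ∀ q, Sat M φ (cons q (env φ fun i => ⟨ρ i, hρ i⟩)) ↔ Sat M φ (cons q ρ) := by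
      intro q
      refine sat_congr _ φ φ.bound _ _ le_rfl fun i hi => ?_
      cases i with
      | zero => rfl
      | succ i => exact dif_pos (by omega)
    obtain ⟨y, h1, h2⟩ := hP (Sum.inr (Sum.inr ⟨φ, fun i => ⟨ρ i, hρ i⟩⟩))
    obtain ⟨s, hs, h3, h4⟩ := h1 (fun q hq hq' => hD1 q ⟨hq, (hc q).mp hq'⟩) (fun p hp => by
      obtain ⟨q, ⟨h1, h2⟩, h3⟩ := hD2 p hp
      exact ⟨q, h1, (hc q).mpr h2, h3⟩)
    refine ⟨_, ⟨h3, (hc _).mp h4⟩, ?_⟩
    rw [← cnd_congr fun i hi => h2 i (hs i hi)]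
    exact hcnd _
  · obtain ⟨y, -, h1, h2, h3⟩ := hF n
    exact ⟨y, h1, h2, h3⟩

/-- A generic with infinitely many bad positions. -/
theorem exists_generic_bad (hT : Trans M) (hM : ModelsZFrepl M) (hc : M.Countable) :
    ∃ F : Env, Function.Injective F ∧ Set.range F = M ∧ Generic M (GF M F) ∧ F 0 = ∅ ∧
      ∀ n, ∃ i, n ≤ i ∧ Bad M i F := by
  obtain ⟨F, h1, h2, h3, h4, h5⟩ := exists_generic2 hT hM hc (R := Ex) (fun _ _ _ => Ex.trans)
    (fun _ _ h => h) (fun _ _ h => h.1) (fun n y => ∃ i, n ≤ i ∧ i < y.1 ∧ Bad M i y.2)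
    (fun n x hx => step_bad hT hM n hx) (1, fun _ => ∅)
    ⟨le_rfl, rfl, fun i hi j hj _ => by simp only at hi hj; omega, fun _ _ => W.empty_mem hT hM⟩
  refine ⟨F, h1, h2, h3, ?_, fun n => ?_⟩
  · obtain ⟨y, h6, h7, h8⟩ := h4 1
    exact (h8 0 h7).trans (h6.2 0 Nat.one_pos)
  · obtain ⟨y, ⟨i, h6, h7, h8⟩, h9⟩ := h5 n
    exact ⟨i, h6, h8.congr fun j hj => (h9 j (by omega)).symm⟩

/-- Through every finite sequence there is a generic with no further bad position. -/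
theorem exists_generic_good (hT : Trans M) (hM : ModelsZFrepl M) (hc : M.Countable)
    (x : ℕ × Env) (hx : Val M x) :
    ∃ F : Env, Function.Injective F ∧ Set.range F = M ∧ Generic M (GF M F) ∧
      (∀ i < x.1, F i = x.2 i) ∧ ∀ i, x.1 ≤ i → ¬ Bad M i F := by
  obtain ⟨F, h1, h2, h3, h4, -⟩ := exists_generic2 hT hM hc (R := Xg M) (fun _ _ _ => Xg.trans)
    (fun _ _ h => h.1) (fun _ _ h => h) (fun _ _ => True)
    (fun n x hx => ⟨x, hx, Xg.refl x, trivial⟩) x hx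
  refine ⟨F, h1, h2, h3, fun i hi => ?_, fun i hi hb => ?_⟩
  · obtain ⟨y, h6, h7, h8⟩ := h4 (i + 1)
    exact (h8 i h7).trans (h6.1.2 i hi)
  · obtain ⟨y, h6, h7, h8⟩ := h4 (i + 1)
    exact h6.2 i hi h7 (hb.congr fun j hj => h8 j (by omega))

end Pool.Agent.Lib.MP_2c70cf_lc
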