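import Pool.Agent.Lib.MP_2c70cf_lc.Conds

set_option autoImplicit false

namespace Pool.Agent.Lib.MP_2c70cf_lc

open ZFSet

/-- A finite injective assignment into `M`. -/
def Valid (M : Set ZFSet.{0}) (x : Finset ℕ × Env) : Prop :=
  Set.InjOn x.2 x.1 ∧ ∀ i ∈ x.1, x.2 i ∈ M

/-- `y` extends `x` and obeys the constraints `T` at the new indices. -/
def Xt (T : ℕ → Set ZFSet.{0}) (x y : Finset ℕ × Env) : Prop :=
  x.1 ⊆ y.1 ∧ (∀ i ∈ x.1, y.2 i = x.2 i) ∧ ∀ i ∈ y.1, i ∉ x.1 → y.2 i ∈ T i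

theorem Xt.refl (T : ℕ → Set ZFSet.{0}) (x : Finset ℕ × Env) : Xt T x x :=
  ⟨subset_rfl, fun _ _ => rfl, fun _ h h' => (h' h).elim⟩

theorem Xt.trans {T : ℕ → Set ZFSet.{0}} {x y z : Finset ℕ × Env} (h₁ : Xt T x y)
    (h₂ : Xt T y z) : Xt T x z := by
  refine ⟨h₁.1.trans h₂.1, fun i hi => (h₂.2.1 i (h₁.1 hi)).trans (h₁.2.1 i hi), fun i hi hi' => ?_⟩
  by_cases h : i ∈ y.1
  · rw [h₂.2.1 i h]; exact h₁.2.2 i h hi'
  · exact h₂.2.2 i hi h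

theorem exists_add {M : Set ZFSet.{0}} {T : ℕ → Set ZFSet.{0}} {x : Finset ℕ × Env}
    (hx : Valid M x) {n : ℕ} (hn : n ∉ x.1) {c : ZFSet.{0}} (hc : c ∈ M) (hT : c ∈ T n)
    (hnew : ∀ i ∈ x.1, x.2 i ≠ c) :
    ∃ y, Valid M y ∧ Xt T x y ∧ y.1 = insert n x.1 ∧ y.2 n = c := by
  have hup : ∀ i ∈ x.1, Function.update x.2 n c i = x.2 i := fun i hi =>
    Function.update_of_ne (fun e : i = n => hn (e ▸ hi)) _ _
  refine ⟨(insert n x.1, Function.update x.2 n c), ⟨?_, ?_⟩, ⟨Finset.subset_insert _ _, hup, ?_⟩,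
    rfl, Function.update_self _ _ _⟩
  · intro i hi j hj e
    simp only [Finset.coe_insert, Set.mem_insert_iff, Finset.mem_coe] at hi hj e
    rcases hi with rfl | hi <;> rcases hj with rfl | hj
    · rfl
    · rw [Function.update_self, hup j hj] at e; exact (hnew j hj e.symm).elim
    · rw [Function.update_self, hup i hi] at e; exact (hnew i hi e).elim
    · rw [hup i hi, hup j hj] at e; exact hx.1 hi hj e
  · intro i hi
    rcases Finset.mem_insert.mp hi with rfl | hi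
    · simpa using hc
    · simp only [hup i hi]; exact hx.2 i hi
  · intro i hi hi'
    rcases Finset.mem_insert.mp hi with rfl | hi
    · simpa using hT
    · exact (hi' hi).elim

theorem exists_fill {M : Set ZFSet.{0}} (hnum : ∀ k, num k ∈ M) {x : Finset ℕ × Env}
    (hx : Valid M x) (N : ℕ) :
    ∃ y, Valid M y ∧ Xt (fun _ => Set.range num) x y ∧ ∀ i < N, i ∈ y.1 := by
  induction N with
  | zero => exact ⟨x, hx, Xt.refl _ x, fun i hi => by omega⟩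
  | succ N ih =>
    obtain ⟨y, hy, hxy, hN⟩ := ih
    by_cases h : N ∈ y.1
    · refine ⟨y, hy, hxy, fun i hi => ?_⟩
      rcases Nat.lt_succ_iff_lt_or_eq.mp hi with h' | rfl
      · exact hN i h'
      · exact h
    · obtain ⟨c, ⟨k, rfl⟩, hk⟩ := (Set.infinite_range_of_injective num_injective).exists_notMem_finite
        ((y.1.finite_toSet).image y.2)
      obtain ⟨z, hz, hyz, hz1, -⟩ := exists_add (T := fun _ => Set.range num) hy h (hnum k)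
        ⟨k, rfl⟩ (fun i hi e => hk ⟨i, hi, e⟩)
      refine ⟨z, hz, hxy.trans hyz, fun i hi => ?_⟩
      rw [hz1]
      rcases Nat.lt_succ_iff_lt_or_eq.mp hi with h' | rfl
      · exact Finset.mem_insert_of_mem (hN i h')
      · exact Finset.mem_insert_self _ _

theorem Xt.mono {T T' : ℕ → Set ZFSet.{0}} (h : ∀ n, T n ⊆ T' n) {x y : Finset ℕ × Env}
    (hxy : Xt T x y) : Xt T' x y :=
  ⟨hxy.1, hxy.2.1, fun i hi hi' => h i (hxy.2.2 i hi hi')⟩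

theorem fusion {M : Set ZFSet.{0}} {T : ℕ → Set ZFSet.{0}} {ι : Type*} [Countable ι]
    (P : ι → Finset ℕ × Env → Prop) (hfill : ∀ x, Valid M x → ∀ n, ∃ y, Valid M y ∧ Xt T x y ∧ n ∈ y.1)
    (hstep : ∀ j x, Valid M x → ∃ y, Valid M y ∧ Xt T x y ∧ P j y) (x₀ : Finset ℕ × Env)
    (hx₀ : Valid M x₀) :
    ∃ F : Env, Function.Injective F ∧ (∀ i, F i ∈ M) ∧ (∀ i ∈ x₀.1, F i = x₀.2 i) ∧
      (∀ i ∉ x₀.1, F i ∈ T i) ∧ ∀ j, ∃ y, P j y ∧ ∀ i ∈ y.1, F i = y.2 i := by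
  obtain ⟨en, hen⟩ := exists_surjective_nat (ℕ ⊕ ι)
  let P' : ℕ ⊕ ι → Finset ℕ × Env → Prop := Sum.elim (fun n y => n ∈ y.1) P
  have hstep' : ∀ (n : ℕ) (x : {x // Valid M x}), ∃ y : {x // Valid M x},
      Xt T x.1 y.1 ∧ P' (en n) y.1 := by
    intro n x
    rcases en n with k | j
    · obtain ⟨y, h1, h2, h3⟩ := hfill x.1 x.2 k; exact ⟨⟨y, h1⟩, h2, h3⟩
    · obtain ⟨y, h1, h2, h3⟩ := hstep j x.1 x.2; exact ⟨⟨y, h1⟩, h2, h3⟩
  choose g hg1 hg2 using hstep'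
  let sq : ℕ → {x // Valid M x} := fun n => Nat.rec ⟨x₀, hx₀⟩ (fun n x => g n x) n
  have hmono : ∀ m n, m ≤ n → Xt T (sq m).1 (sq n).1 := by
    intro m n h
    induction h with
    | refl => exact Xt.refl _ _
    | step _ ih => exact ih.trans (hg1 _ _)
  have hP : ∀ t, ∃ n, P' t (sq n).1 := by
    intro t
    obtain ⟨n, rfl⟩ := hen t
    exact ⟨n + 1, hg2 n (sq n)⟩
  have hcov : ∀ i, ∃ n, i ∈ (sq n).1.1 := fun i => hP (Sum.inl i)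
  choose k hk using hcov
  have hagree : ∀ n, ∀ i ∈ (sq n).1.1, (sq (k i)).1.2 i = (sq n).1.2 i := by
    intro n i hi
    rcases le_total n (k i) with h | h
    · exact (hmono _ _ h).2.1 i hi
    · exact ((hmono _ _ h).2.1 i (hk i)).symm
  refine ⟨fun i => (sq (k i)).1.2 i, ?_, fun i => (sq (k i)).2.2 i (hk i), hagree 0,
    fun i hi => (hmono 0 (k i) (Nat.zero_le _)).2.2 i (hk i) hi, fun j => ?_⟩
  · intro i j e
    have hi := (hmono _ _ (le_max_left (k i) (k j))).1 (hk i)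
    have hj := (hmono _ _ (le_max_right (k i) (k j))).1 (hk j)
    refine (sq (max (k i) (k j))).2.1 hi hj ?_
    rw [← hagree _ i hi, ← hagree _ j hj]
    exact e
  · obtain ⟨n, hn⟩ := hP (Sum.inr j)
    exact ⟨_, hn, hagree n⟩

/-- Finite sets of pairs of numerals. -/
noncomputable def hS (t : Finset (ℕ × ℕ)) : ZFSet.{0} :=
  range (fun p : t => pair (num p.1.1) (num p.1.2))

noncomputable def WW : ZFSet.{0} := range hS

section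

variable {M : Set ZFSet.{0}} (hT : Trans M) (hM : ModelsZFminus M) (hW : WW ∈ M)
  {T : ℕ → Set ZFSet.{0}} (hT1 : ∀ n k, num k ∈ T n)
  (hT2 : ∀ c ∈ M, ∃ w : ZFSet.{0}, w.IsTransitive ∧ c ∈ w ∧ ∃ N, ∀ n ≥ N, ∀ x ∈ w, x ∈ T n)

include hT hM hT1 in
theorem step_fill (x : Finset ℕ × Env) (hx : Valid M x) (n : ℕ) :
    ∃ y, Valid M y ∧ Xt T x y ∧ n ∈ y.1 := by
  obtain ⟨y, h1, h2, h3⟩ := exists_fill (num_mem hT hM) hx (n + 1)
  exact ⟨y, h1, h2.mono (by rintro n _ ⟨k, rfl⟩; exact hT1 n k), h3 n (by omega)⟩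

include hT2 in
theorem step_onto (c : ZFSet.{0}) (hc : c ∈ M) (x : Finset ℕ × Env) (hx : Valid M x) :
    ∃ y, Valid M y ∧ Xt T x y ∧ ∃ i ∈ y.1, y.2 i = c := by
  by_cases h : ∃ i ∈ x.1, x.2 i = c
  · exact ⟨x, hx, Xt.refl _ _, h⟩
  · push Not at h
    obtain ⟨w, -, hcw, N, hN⟩ := hT2 c hc
    obtain ⟨n, hn, hn'⟩ := (Set.Ici_infinite N).exists_notMem_finite x.1.finite_toSet
    obtain ⟨y, h1, h2, h3, h4⟩ := exists_add (T := T) hx hn' hc (hN n hn c hcw) h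
    exact ⟨y, h1, h2, n, by rw [h3]; exact Finset.mem_insert_self _ _, h4⟩

include hT hM hW hT1 hT2 in
theorem step_dense (φ : Fml) (ρ : Env) (hρ : ∀ i, ρ i ∈ M)
    (hD1 : ∀ q ∈ M, Sat M φ (cons q ρ) → IsCond M q)
    (hD2 : ∀ p, IsCond M p → ∃ q ∈ M, Sat M φ (cons q ρ) ∧ Le q p)
    (x : Finset ℕ × Env) (hx : Valid M x) :
    ∃ y, Valid M y ∧ Xt T x y ∧ cnd y.1 y.2 ∈ M ∧ Sat M φ (cons (cnd y.1 y.2) ρ) := by
  classical
  have hf₀ : fS x.1 x.2 ∈ M := by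
    obtain ⟨s, hs, hs'⟩ := exists_finite_mem hT hM (S := (fS x.1 x.2 : Set ZFSet.{0}))
      (by rw [fS, coe_range]; exact Set.finite_range _) (by
        intro z hz
        obtain ⟨i, hi, rfl⟩ := mem_fS.mp hz
        exact pair_mem hT hM (num_mem hT hM i) (hx.2 i hi))
    have : s = fS x.1 x.2 := ZFSet.ext hs'
    rwa [this] at hs
  have hR : Dfn (fun D σ => Sat D φ (cons (σ 0) fun i => σ (i + 3)) ∧
      ∃ d ∈ D, ∃ e ∈ D, ∃ f ∈ D, ∃ u ∈ D, σ 0 = pair d u ∧ u = pair e f ∧ σ 2 ⊆ f ∧ σ 1 ⊆ f) :=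
    (Dfn.sat1 φ 0 3).and ((Dfn.pair 4 3 0).and ((Dfn.pair 0 2 1).and
      ((Dfn.subset 6 1).and (Dfn.subset 5 1)))).ex.ex.ex.ex
  obtain ⟨ψ, hψ⟩ := hR.or ((hR.rename fun i => match i with | 0 => 0 | i + 1 => i + 2).ex.not)
  let R : ZFSet.{0} → ZFSet.{0} → Prop := fun h q => Sat M φ (cons q ρ) ∧
    ∃ d ∈ M, ∃ e ∈ M, ∃ f ∈ M, ∃ u ∈ M, q = pair d u ∧ u = pair e f ∧ fS x.1 x.2 ⊆ f ∧ h ⊆ f
  have hψ' : ∀ h ∈ M, ∀ q ∈ M, Sat M ψ (cons q (cons h (cons (fS x.1 x.2) ρ))) ↔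
      R h q ∨ ¬ ∃ q' ∈ M, R h q' := fun h hh q hq =>
    hψ M hT _ (cons_mem hq (cons_mem hh (cons_mem hf₀ hρ)))
  obtain ⟨c, hc, hcol⟩ := hM.collection ψ (cons (fS x.1 x.2) ρ) (cons_mem hf₀ hρ) WW hW (by
    intro h hh _
    by_cases hex : ∃ q' ∈ M, R h q'
    · obtain ⟨q, hq, hq'⟩ := hex
      exact ⟨q, hq, (hψ' h hh q hq).mpr (Or.inl hq')⟩
    · exact ⟨h, hh, (hψ' h hh h hh).mpr (Or.inr hex)⟩)
  obtain ⟨w, hw, hcw, N, hN⟩ := hT2 c hc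
  obtain ⟨y, hy, hxy, hNy⟩ := exists_fill (num_mem hT hM) hx (N + 1)
  have hk : ∀ i, ∃ k, i ∈ y.1 → i ∉ x.1 → y.2 i = num k := by
    intro i
    by_cases h : i ∈ y.1 ∧ i ∉ x.1
    · obtain ⟨k, hk⟩ := hxy.2.2 i h.1 h.2
      exact ⟨k, fun _ _ => hk.symm⟩
    · exact ⟨0, fun h1 h2 => (h ⟨h1, h2⟩).elim⟩
  choose k hk using hk
  let t : Finset (ℕ × ℕ) := (y.1 \ x.1).image fun i => (i, k i)
  have ht : ∀ z, z ∈ hS t ↔ ∃ i ∈ y.1, i ∉ x.1 ∧ z = pair (num i) (y.2 i) := by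
    intro z
    rw [hS, mem_range]
    constructor
    · rintro ⟨⟨p, hp⟩, rfl⟩
      obtain ⟨i, hi, rfl⟩ := Finset.mem_image.mp hp
      rw [Finset.mem_sdiff] at hi
      exact ⟨i, hi.1, hi.2, by rw [hk i hi.1 hi.2]⟩
    · rintro ⟨i, h1, h2, rfl⟩
      exact ⟨⟨(i, k i), Finset.mem_image.mpr ⟨i, Finset.mem_sdiff.mpr ⟨h1, h2⟩, rfl⟩⟩,
        by rw [hk i h1 h2]⟩
  have htW : hS t ∈ WW := mem_range.mpr ⟨t, rfl⟩
  have htM : hS t ∈ M := hT _ hW _ htW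
  have hex : ∃ q' ∈ M, R (hS t) q' := by
    obtain ⟨q, hq, hq1, d, e, f, d', e', f', rfl, h0, -, -, h3⟩ := hD2 _ (isCond_cnd hy.1 hy.2)
    simp only [cnd, pair_inj] at h0
    obtain ⟨-, -, rfl⟩ := h0
    refine ⟨_, hq, hq1, d, fst_mem hT hq, e, fst_mem hT (snd_mem hT hq), f,
      snd_mem hT (snd_mem hT hq), _, snd_mem hT hq, rfl, rfl, fun z hz => h3 ?_, fun z hz => h3 ?_⟩
    · obtain ⟨i, hi, rfl⟩ := mem_fS.mp hz
      exact mem_fS.mpr ⟨i, hxy.1 hi, by rw [hxy.2.1 i hi]⟩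
    · obtain ⟨i, hi, -, rfl⟩ := (ht z).mp hz
      exact mem_fS.mpr ⟨i, hi, rfl⟩
  obtain ⟨q, hq, hqc, hq'⟩ := hcol _ htM htW
  obtain ⟨hq1, d, -, e, -, f, -, _, -, rfl, rfl, h1, h2⟩ :=
    ((hψ' _ htM q hq).mp hq').resolve_right (not_not.mpr hex)
  have hyf : ∀ i ∈ y.1, pair (num i) (y.2 i) ∈ f := by
    intro i hi
    by_cases h : i ∈ x.1
    · exact h1 (mem_fS.mpr ⟨i, h, by rw [hxy.2.1 i h]⟩)
    · exact h2 ((ht _).mpr ⟨i, hi, h, rfl⟩)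
  obtain ⟨s, F, hsF, hinj, hFM⟩ := exists_eq_cnd (hD1 _ hq hq1) (fun e => by
    have := hyf 0 (hNy 0 (by omega))
    rw [e] at this
    exact notMem_empty _ this)
  have hf : f = fS s F := by
    simp only [cnd, pair_inj] at hsF
    exact hsF.2.2
  have hys : ∀ i ∈ y.1, i ∈ s ∧ F i = y.2 i := by
    intro i hi
    have := hyf i hi
    rw [hf] at this
    obtain ⟨j, hj, h⟩ := mem_fS.mp this
    simp only [pair_inj, num_inj] at h
    obtain ⟨rfl, h⟩ := h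
    exact ⟨hj, h.symm⟩
  have hwT : Trans (w : Set ZFSet.{0}) := fun a ha b hb => hw.mem_trans hb ha
  refine ⟨(s, F), ⟨hinj, hFM⟩, (hxy.mono (by rintro n _ ⟨k, rfl⟩; exact hT1 n k)).trans
    ⟨fun i hi => (hys i hi).1, fun i hi => (hys i hi).2, fun i hi hi' => ?_⟩, hsF ▸ hq, hsF ▸ hq1⟩
  refine hN i (by by_contra h; exact hi' (hNy i (by omega))) _ ?_
  have h3 : f ∈ (w : Set ZFSet.{0}) := snd_mem hwT (snd_mem hwT (hwT _ hcw _ hqc))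
  exact snd_mem hwT (hwT _ h3 _ (hf ▸ mem_fS.mpr ⟨i, hi, rfl⟩))

include hT hM hW hT1 hT2 in
theorem exists_generic (hc : M.Countable) (x₀ : Finset ℕ × Env) (hx₀ : Valid M x₀) :
    ∃ F : Env, Function.Injective F ∧ Set.range F = M ∧ (∀ i ∈ x₀.1, F i = x₀.2 i) ∧
      (∀ i ∉ x₀.1, F i ∈ T i) ∧ Generic M (GF M F) := by
  classical
  have := hc.to_subtype
  let env : (φ : Fml) → (Fin φ.bound → M) → Env := fun φ v i =>
    if h : i < φ.bound then (v ⟨i, h⟩).1 else WW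
  have henv : ∀ φ v i, env φ v i ∈ M := by
    intro φ v i
    simp only [env]
    split_ifs with h
    · exact (v ⟨i, h⟩).2
    · exact hW
  let P : M ⊕ (Σ φ : Fml, Fin φ.bound → M) → Finset ℕ × Env → Prop :=
    Sum.elim (fun c y => ∃ i ∈ y.1, y.2 i = c.1) (fun j y =>
      (∀ q ∈ M, Sat M j.1 (cons q (env j.1 j.2)) → IsCond M q) →
      (∀ p, IsCond M p → ∃ q ∈ M, Sat M j.1 (cons q (env j.1 j.2)) ∧ Le q p) →
      cnd y.1 y.2 ∈ M ∧ Sat M j.1 (cons (cnd y.1 y.2) (env j.1 j.2)))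
  obtain ⟨F, hinj, hFM, hF0, hFT, hP⟩ := fusion P (step_fill hT hM hT1) (by
    rintro (c | ⟨φ, v⟩) x hx
    · exact step_onto hT2 c.1 c.2 x hx
    · by_cases h : (∀ q ∈ M, Sat M φ (cons q (env φ v)) → IsCond M q) ∧
          (∀ p, IsCond M p → ∃ q ∈ M, Sat M φ (cons q (env φ v)) ∧ Le q p)
      · obtain ⟨y, h1, h2, h3⟩ := step_dense hT hM hW hT1 hT2 φ _ (henv φ v) h.1 h.2 x hx
        exact ⟨y, h1, h2, fun _ _ => h3⟩
      · exact ⟨x, hx, Xt.refl _ _, fun h1 h2 => (h ⟨h1, h2⟩).elim⟩) x₀ hx₀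
  have hcnd : ∀ s, cnd s F ∈ GF M F := fun s =>
    ⟨isCond_cnd hinj.injOn fun i _ => hFM i, s, cnd_le subset_rfl F⟩
  refine ⟨F, hinj, ?_, hF0, hFT, fun p hp => hp.1, ⟨_, hcnd ∅⟩, ?_, ?_, ?_⟩
  · refine Set.Subset.antisymm (by rintro _ ⟨i, rfl⟩; exact hFM i) fun c hc => ?_
    obtain ⟨y, ⟨i, hi, h1⟩, h2⟩ := hP (Sum.inl ⟨c, hc⟩)
    exact ⟨i, (h2 i hi).trans h1⟩
  · rintro p ⟨-, s, hs⟩ q hq hpq
    exact ⟨hq, s, hs.trans hpq⟩
  · rintro p ⟨-, s, hs⟩ q ⟨-, t, ht⟩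
    exact ⟨_, hcnd (s ∪ t), (cnd_le Finset.subset_union_left F).trans hs,
      (cnd_le Finset.subset_union_right F).trans ht⟩
  · rintro φ ρ D hρ rfl hD1 hD2
    have hc : ∀ q, Sat M φ (cons q (env φ fun i => ⟨ρ i, hρ i⟩)) ↔ Sat M φ (cons q ρ) := by
      intro q
      refine sat_congr _ φ φ.bound _ _ le_rfl fun i hi => ?_
      cases i with
      | zero => rfl
      | succ i => exact dif_pos (by omega)
    obtain ⟨y, h1, h2⟩ := hP (Sum.inr ⟨φ, fun i => ⟨ρ i, hρ i⟩⟩)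
    obtain ⟨h3, h4⟩ := h1 (fun q hq hq' => hD1 q ⟨hq, (hc q).mp hq'⟩) (fun p hp => by
      obtain ⟨q, ⟨h1, h2⟩, h3⟩ := hD2 p hp
      exact ⟨q, h1, (hc q).mpr h2, h3⟩)
    refine ⟨_, ⟨h3, (hc _).mp h4⟩, ?_⟩
    rw [← cnd_congr h2]
    exact hcnd _

end

end Pool.Agent.Lib.MP_2c70cf_lc
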