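import Pool.Agent.Lib.MP_2c70cf_lc.Logic

set_option autoImplicit false

namespace Pool.Agent.Lib.MP_2c70cf_lc

open ZFSet

def IsLevelIn (D : Set ZFSet.{0}) (u : ZFSet.{0}) : Prop :=
  ∃ H ∈ D, u ∈ H ∧ ∀ s ∈ H, ∀ x ∈ D, x ∈ s ↔ ∃ t ∈ H, t ∈ s ∧ x ⊆ t

theorem dfn_level (i : ℕ) : Dfn (fun D ρ => IsLevelIn D (ρ i)) :=
  (((Dfn.mem (i + 1) 0).and
    ((((Dfn.mem 0 1).iff (((Dfn.mem 0 2).and (Dfn.subset 1 0)).bex 2)).all).ball 0)).ex).congr
    fun _ _ _ _ => Iff.rfl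

theorem isLevel_iff (u : ZFSet.{0}) : IsLevelIn Set.univ u ↔ ∃ o : Ordinal.{0}, u = V_ o := by
  constructor
  · rintro ⟨H, -, hu, hH⟩
    have key : ∀ s, s ∈ H → ∃ o : Ordinal.{0}, s = V_ o := by
      intro s
      induction s using ZFSet.inductionOn with
      | h s ih =>
        intro hs
        refine ⟨rank s, ?_⟩
        ext x
        rw [mem_vonNeumann]
        refine ⟨rank_lt_of_mem, fun hx => ?_⟩
        obtain ⟨y, hy, hxy⟩ := lt_rank_iff.mp hx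
        obtain ⟨t, ht, hts, hyt⟩ := (hH s hs y trivial).mp hy
        obtain ⟨o, rfl⟩ := ih t hts ht
        refine (hH s hs x trivial).mpr ⟨_, ht, hts, ?_⟩
        rw [subset_vonNeumann] at hyt ⊢
        exact hxy.trans hyt
    exact key u hu
  · rintro ⟨o, rfl⟩
    refine ⟨range (fun a : Set.Iic o => V_ a.1), trivial, ?_, ?_⟩
    · rw [mem_range]; exact ⟨⟨o, le_refl o⟩, rfl⟩
    · intro s hs x _
      obtain ⟨⟨a, ha⟩, rfl⟩ := mem_range.mp hs
      constructor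
      · intro hx
        obtain ⟨b, hb, hxb⟩ := mem_vonNeumann'.mp hx
        exact ⟨V_ b, mem_range.mpr ⟨⟨b, hb.le.trans ha⟩, rfl⟩, vonNeumann_mem_of_lt hb, hxb⟩
      · rintro ⟨t, -, hts, hxt⟩
        exact mem_vonNeumann_of_subset hxt hts

/-- `w` is definable in the universe from the parameter `a`. -/
def DefA (a w : ZFSet.{0}) : Prop :=
  ∃ θ : Fml, ∀ y, Sat Set.univ θ (cons y (fun _ => a)) ↔ y = w

theorem least_level {P : Set ZFSet.{0} → Env → Prop} (hP : Dfn P) (a : ZFSet.{0})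
    (h : ∃ o : Ordinal.{0}, P Set.univ (cons (V_ o) (fun _ => a))) :
    ∃ o : Ordinal.{0}, P Set.univ (cons (V_ o) (fun _ => a)) ∧ DefA a (V_ o) := by
  obtain ⟨φ, hφ⟩ := hP
  have hφ' : ∀ ρ, Sat Set.univ φ ρ ↔ P Set.univ ρ := fun ρ => hφ _ trans_univ ρ fun _ => trivial
  obtain ⟨θ, hθ⟩ := (dfn_level 0).and ((Dfn.sat φ).and
    (((dfn_level 0).imp ((Dfn.sat1 φ 0 2).imp (Dfn.subset 1 0))).all))
  obtain ⟨o, ho, hmin⟩ := Ordinal.lt_wf.has_min
    {o : Ordinal.{0} | P Set.univ (cons (V_ o) (fun _ => a))} h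
  refine ⟨o, ho, θ, fun y => ?_⟩
  rw [hθ _ trans_univ _ fun _ => trivial]
  simp only [cons_zero, cons_succ, isLevel_iff, hφ', Set.mem_univ, true_imp_iff]
  constructor
  · rintro ⟨⟨b, rfl⟩, hb, hle⟩
    have h1 := hle _ ⟨o, rfl⟩ ho
    rw [vonNeumann_subset_vonNeumann_iff] at h1
    rw [le_antisymm h1 (not_lt.mp (hmin b hb))]
  · rintro rfl
    refine ⟨⟨o, rfl⟩, ho, ?_⟩
    rintro _ ⟨b, rfl⟩ hb
    exact vonNeumann_subset_of_le (not_lt.mp (hmin b hb))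

def pre : ℕ → Env → Env → Env
  | 0, _, σ => σ
  | n + 1, ρ, σ => pre n ρ (cons (ρ n) σ)

theorem pre_add (n : ℕ) : ∀ (ρ σ : Env) (j : ℕ), pre n ρ σ (n + j) = σ j := by
  induction n with
  | zero => intro ρ σ j; simp [pre]
  | succ n ih =>
    intro ρ σ j
    rw [pre, show n + 1 + j = n + (j + 1) by omega, ih]
    rfl

theorem pre_lt (n : ℕ) : ∀ (ρ σ : Env) (i : ℕ), i < n → pre n ρ σ i = ρ i := by
  induction n with
  | zero => intro ρ σ i hi; omega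
  | succ n ih =>
    intro ρ σ i hi
    rw [pre]
    rcases Nat.lt_succ_iff_lt_or_eq.mp hi with h | rfl
    · exact ih _ _ _ h
    · exact pre_add i ρ _ 0

theorem pre_congr (n : ℕ) : ∀ (ρ ρ' σ : Env), (∀ i < n, ρ i = ρ' i) → pre n ρ σ = pre n ρ' σ := by
  induction n with
  | zero => intro ρ ρ' σ _; rfl
  | succ n ih =>
    intro ρ ρ' σ h
    rw [pre, pre, h n (by omega)]
    exact ih _ _ _ fun i hi => h i (by omega)

theorem dfn_allPre {Q : Set ZFSet.{0} → Env → Prop} (hQ : Dfn Q) (n : ℕ) :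
    ∀ k, Dfn (fun D σ => ∀ ρ : Env, (∀ i, ρ i ∈ σ k) → Q D (pre n ρ σ)) := by
  induction n with
  | zero =>
    intro k
    refine (((Dfn.eq 0 0).bex k).imp hQ).congr fun D _ σ _ => ?_
    constructor
    · intro h ρ hρ; exact h ⟨ρ 0, hρ 0, rfl⟩
    · rintro h ⟨x, hx, -⟩; exact h (fun _ => x) fun _ => hx
  | succ n ih =>
    intro k
    refine ((ih (k + 1)).ball k).congr fun D _ σ _ => ?_
    constructor
    · intro h ρ hρ; exact h (ρ n) (hρ n) ρ hρ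
    · intro h x hx ρ hρ
      have h1 := h (Function.update ρ n x) (fun i => by
        by_cases hi : i = n
        · subst hi; simpa using hx
        · rw [Function.update_of_ne hi]; exact hρ i)
      rw [pre, Function.update_self, pre_congr n _ ρ _ fun i hi =>
        Function.update_of_ne (by omega) _ _] at h1
      exact h1

/-- The union of the levels that are definable from `a`. -/
def UU (a : ZFSet.{0}) : Set ZFSet.{0} := {x | ∃ o : Ordinal.{0}, DefA a (V_ o) ∧ x ∈ V_ o}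

theorem self_mem_UU (a : ZFSet.{0}) : a ∈ UU a := by
  obtain ⟨o, h1, h2⟩ := least_level (Dfn.mem 1 0) a (exists_mem_vonNeumann a)
  exact ⟨o, h2, h1⟩

theorem trans_UU (a : ZFSet.{0}) : Trans (UU a) := by
  rintro x ⟨o, h1, h2⟩ y hy
  exact ⟨o, h1, (isTransitive_vonNeumann o).mem_trans hy h2⟩

theorem exists_level_of_env (a : ZFSet.{0}) (ρ : Env) (hρ : ∀ i, ρ i ∈ UU a) (n : ℕ) :
    ∃ o : Ordinal.{0}, DefA a (V_ o) ∧ ∀ i ≤ n, ρ i ∈ V_ o := by
  induction n with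
  | zero =>
    obtain ⟨o, h1, h2⟩ := hρ 0
    exact ⟨o, h1, fun i hi => by rw [Nat.le_zero.mp hi]; exact h2⟩
  | succ n ih =>
    obtain ⟨o, h1, h2⟩ := ih
    obtain ⟨o', h3, h4⟩ := hρ (n + 1)
    rcases le_total o o' with h | h
    · refine ⟨o', h3, fun i hi => ?_⟩
      rcases Nat.le_succ_iff.mp hi with h5 | rfl
      · exact vonNeumann_subset_of_le h (h2 i h5)
      · exact h4
    · refine ⟨o, h1, fun i hi => ?_⟩
      rcases Nat.le_succ_iff.mp hi with h5 | rfl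
      · exact h2 i h5
      · exact vonNeumann_subset_of_le h h4

theorem exists_witness_level (w : ZFSet.{0}) (R : Env → ZFSet.{0} → Prop) :
    ∃ o : Ordinal.{0}, ∀ ρ : Env, (∀ i, ρ i ∈ w) → (∃ x, R ρ x) → ∃ x ∈ V_ o, R ρ x := by
  classical
  let g : (ℕ → w) → Ordinal.{0} := fun ρ =>
    if h : ∃ x, R (fun i => (ρ i).1) x then Order.succ (rank h.choose) else 0
  obtain ⟨o, ho⟩ : BddAbove (Set.range g) := Ordinal.bddAbove_of_small
  refine ⟨o, fun ρ hρ h => ?_⟩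
  have h1 : g (fun i => ⟨ρ i, hρ i⟩) ≤ o := ho ⟨_, rfl⟩
  have h2 : g (fun i => ⟨ρ i, hρ i⟩) = Order.succ (rank h.choose) := dif_pos h
  refine ⟨h.choose, ?_, h.choose_spec⟩
  rw [mem_vonNeumann, ← Order.succ_le_iff, ← h2]
  exact h1

theorem tv_UU (a : ZFSet.{0}) (φ : Fml) (ρ : Env) (hρ : ∀ i, ρ i ∈ UU a)
    (h : ∃ x, Sat Set.univ φ (cons x ρ)) : ∃ x ∈ UU a, Sat Set.univ φ (cons x ρ) := by
  classical
  set n := φ.bound with hn
  obtain ⟨o₀, ⟨θ₀, hθ₀⟩, hρ₀⟩ := exists_level_of_env a ρ hρ n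
  have hQ : Dfn (fun D τ => (∃ x ∈ D, Sat D φ (cons x τ)) → ∃ x ∈ τ (n + 1), Sat D φ (cons x τ)) :=
    ((Dfn.sat φ).ex).imp ((Dfn.sat φ).bex (n + 1))
  have hP := ((Dfn.satc θ₀ 0 2).and (dfn_allPre hQ n 0)).ex
  have hc : ∀ (x : ZFSet.{0}) (ρ' σ : Env),
      Sat Set.univ φ (cons x (pre n ρ' σ)) ↔ Sat Set.univ φ (cons x ρ') := by
    intro x ρ' σ
    refine sat_congr _ φ n _ _ le_rfl fun i hi => ?_
    cases i with
    | zero => rfl
    | succ i => exact pre_lt n _ _ i (by omega)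
  obtain ⟨o, ⟨w, -, hw, ho⟩, hdef⟩ := least_level hP a (by
    obtain ⟨o, ho⟩ := exists_witness_level (V_ o₀) (fun ρ' x => Sat Set.univ φ (cons x ρ'))
    refine ⟨o, V_ o₀, trivial, (hθ₀ _).mpr rfl, fun ρ' hρ' => ?_⟩
    rintro ⟨x, -, hx⟩
    obtain ⟨y, hy, hy'⟩ := ho ρ' hρ' ⟨x, (hc _ _ _).mp hx⟩
    refine ⟨y, ?_, (hc _ _ _).mpr hy'⟩
    rw [pre_add]
    exact hy)
  obtain rfl : w = V_ o₀ := (hθ₀ _).mp hw
  let ρ' : Env := fun i => if i ≤ n then ρ i else ρ 0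
  have hc' : ∀ x, Sat Set.univ φ (cons x ρ') ↔ Sat Set.univ φ (cons x ρ) := by
    intro x
    refine sat_congr _ φ n _ _ le_rfl fun i hi => ?_
    cases i with
    | zero => rfl
    | succ i => exact if_pos (by omega)
  obtain ⟨x, hx⟩ := h
  obtain ⟨y, hy, hy'⟩ := ho ρ' (fun i => by
    by_cases hi : i ≤ n
    · simp only [ρ', if_pos hi]; exact hρ₀ i hi
    · simp only [ρ', if_neg hi]; exact hρ₀ 0 (Nat.zero_le _))
    ⟨x, trivial, (hc _ _ _).mpr ((hc' x).mpr hx)⟩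
  rw [pre_add] at hy
  exact ⟨y, ⟨o, hdef, hy⟩, (hc' y).mp ((hc _ _ _).mp hy')⟩

end Pool.Agent.Lib.MP_2c70cf_lc
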