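import Pool.Agent.Lib.MP_2c70cf_lc.Defs

set_option autoImplicit false

namespace Pool.Agent.Lib.MP_2c70cf_lc

open ZFSet

abbrev Env := ℕ → ZFSet.{0}

deriving instance Countable for Fml

@[simp] theorem cons_zero (x : ZFSet.{0}) (ρ : Env) : cons x ρ 0 = x := rfl
@[simp] theorem cons_succ (x : ZFSet.{0}) (ρ : Env) (n : ℕ) : cons x ρ (n + 1) = ρ n := rfl
@[simp] theorem cons_one (x : ZFSet.{0}) (ρ : Env) : cons x ρ 1 = ρ 0 := rfl

theorem cons_mem {D : Set ZFSet.{0}} {x : ZFSet.{0}} {ρ : Env} (hx : x ∈ D) (h : ∀ i, ρ i ∈ D) :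
    ∀ i, cons x ρ i ∈ D
  | 0 => hx
  | n + 1 => h n

theorem cons_tail (ρ : Env) : cons (ρ 0) (fun i => ρ (i + 1)) = ρ := by
  funext i; cases i <;> rfl

theorem comp_cons (π : ZFSet.{0} → ZFSet.{0}) (x : ZFSet.{0}) (ρ : Env) :
    (fun i => π (cons x ρ i)) = cons (π x) (fun i => π (ρ i)) := by
  funext i; cases i <;> rfl

def up (r : ℕ → ℕ) : ℕ → ℕ
  | 0 => 0
  | n + 1 => r n + 1

def Fml.rename : Fml → (ℕ → ℕ) → Fml
  | .mem i j, r => .mem (r i) (r j)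
  | .eq i j, r => .eq (r i) (r j)
  | .neg φ, r => .neg (φ.rename r)
  | .and φ ψ, r => .and (φ.rename r) (ψ.rename r)
  | .ex φ, r => .ex (φ.rename (up r))

theorem sat_rename (D : Set ZFSet.{0}) (φ : Fml) : ∀ (r : ℕ → ℕ) (ρ : Env),
    Sat D (φ.rename r) ρ ↔ Sat D φ (fun i => ρ (r i)) := by
  induction φ with
  | mem i j => intro r ρ; rfl
  | eq i j => intro r ρ; rfl
  | neg φ ih => intro r ρ; simp only [Fml.rename, Sat, ih]
  | and φ ψ ih₁ ih₂ => intro r ρ; simp only [Fml.rename, Sat, ih₁, ih₂]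
  | ex φ ih =>
    intro r ρ
    simp only [Fml.rename, Sat, ih]
    refine exists_congr fun x => and_congr_right fun _ => ?_
    have : (fun i => cons x ρ (up r i)) = cons x (fun i => ρ (r i)) := by
      funext i; cases i <;> rfl
    rw [this]

def Fml.bound : Fml → ℕ
  | .mem i j => max i j + 1
  | .eq i j => max i j + 1
  | .neg φ => φ.bound
  | .and φ ψ => max φ.bound ψ.bound
  | .ex φ => φ.bound

theorem sat_congr (D : Set ZFSet.{0}) (φ : Fml) : ∀ (n : ℕ) (ρ σ : Env), φ.bound ≤ n →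
    (∀ i < n, ρ i = σ i) → (Sat D φ ρ ↔ Sat D φ σ) := by
  induction φ with
  | mem i j =>
    intro n ρ σ hb h
    simp only [Fml.bound] at hb
    simp only [Sat]
    rw [h i (by omega), h j (by omega)]
  | eq i j =>
    intro n ρ σ hb h
    simp only [Fml.bound] at hb
    simp only [Sat]
    rw [h i (by omega), h j (by omega)]
  | neg φ ih => intro n ρ σ hb h; simp only [Sat]; rw [ih n ρ σ hb h]
  | and φ ψ ih₁ ih₂ =>
    intro n ρ σ hb h
    simp only [Fml.bound] at hb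
    simp only [Sat]
    rw [ih₁ n ρ σ (by omega) h, ih₂ n ρ σ (by omega) h]
  | ex φ ih =>
    intro n ρ σ hb h
    simp only [Sat]
    refine exists_congr fun x => and_congr_right fun _ => ih n _ _ hb ?_
    intro i hi
    cases i with
    | zero => rfl
    | succ i => exact h i (by omega)

/-- Transitive classes. -/
def Trans (D : Set ZFSet.{0}) : Prop := ∀ x ∈ D, ∀ y ∈ x, y ∈ D

theorem trans_univ : Trans Set.univ := fun _ _ _ _ => trivial

/-- Predicates that are uniformly first order definable over transitive classes. -/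
def Dfn (P : Set ZFSet.{0} → Env → Prop) : Prop :=
  ∃ φ : Fml, ∀ D, Trans D → ∀ ρ : Env, (∀ i, ρ i ∈ D) → (Sat D φ ρ ↔ P D ρ)

namespace Dfn

variable {P Q : Set ZFSet.{0} → Env → Prop}

theorem congr (h : Dfn P) (e : ∀ D, Trans D → ∀ ρ : Env, (∀ i, ρ i ∈ D) → (P D ρ ↔ Q D ρ)) :
    Dfn Q := by
  obtain ⟨φ, hφ⟩ := h
  exact ⟨φ, fun D hD ρ hρ => (hφ D hD ρ hρ).trans (e D hD ρ hρ)⟩

theorem mem (i j : ℕ) : Dfn (fun _ ρ => ρ i ∈ ρ j) := ⟨.mem i j, fun _ _ _ _ => Iff.rfl⟩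

theorem eq (i j : ℕ) : Dfn (fun _ ρ => ρ i = ρ j) := ⟨.eq i j, fun _ _ _ _ => Iff.rfl⟩

theorem not (h : Dfn P) : Dfn (fun D ρ => ¬ P D ρ) := by
  obtain ⟨φ, hφ⟩ := h
  exact ⟨.neg φ, fun D hD ρ hρ => not_congr (hφ D hD ρ hρ)⟩

theorem and (h : Dfn P) (h' : Dfn Q) : Dfn (fun D ρ => P D ρ ∧ Q D ρ) := by
  obtain ⟨φ, hφ⟩ := h
  obtain ⟨ψ, hψ⟩ := h'
  exact ⟨.and φ ψ, fun D hD ρ hρ => and_congr (hφ D hD ρ hρ) (hψ D hD ρ hρ)⟩

theorem or (h : Dfn P) (h' : Dfn Q) : Dfn (fun D ρ => P D ρ ∨ Q D ρ) :=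
  (h.not.and h'.not).not.congr fun _ _ _ _ => by tauto

theorem imp (h : Dfn P) (h' : Dfn Q) : Dfn (fun D ρ => P D ρ → Q D ρ) :=
  (h.and h'.not).not.congr fun _ _ _ _ => by tauto

theorem iff (h : Dfn P) (h' : Dfn Q) : Dfn (fun D ρ => P D ρ ↔ Q D ρ) :=
  ((h.imp h').and (h'.imp h)).congr fun _ _ _ _ => by tauto

theorem ex (h : Dfn P) : Dfn (fun D ρ => ∃ x ∈ D, P D (cons x ρ)) := by
  obtain ⟨φ, hφ⟩ := h
  exact ⟨.ex φ, fun D hD ρ hρ => exists_congr fun x => and_congr_right fun hx =>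
    hφ D hD _ (cons_mem hx hρ)⟩

theorem all (h : Dfn P) : Dfn (fun D ρ => ∀ x ∈ D, P D (cons x ρ)) :=
  h.not.ex.not.congr fun _ _ _ _ => by push Not; rfl

theorem bex (k : ℕ) (h : Dfn P) : Dfn (fun D ρ => ∃ x ∈ ρ k, P D (cons x ρ)) :=
  ((mem 0 (k + 1)).and h).ex.congr fun _ hD ρ hρ =>
    ⟨fun ⟨x, _, h1, h2⟩ => ⟨x, h1, h2⟩, fun ⟨x, h1, h2⟩ => ⟨x, hD _ (hρ k) _ h1, h1, h2⟩⟩

theorem ball (k : ℕ) (h : Dfn P) : Dfn (fun D ρ => ∀ x ∈ ρ k, P D (cons x ρ)) :=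
  (h.not.bex k).not.congr fun _ _ _ _ => by push Not; rfl

theorem rename (h : Dfn P) (r : ℕ → ℕ) : Dfn (fun D ρ => P D (fun i => ρ (r i))) := by
  obtain ⟨φ, hφ⟩ := h
  exact ⟨φ.rename r, fun D hD ρ hρ => (sat_rename D φ r ρ).trans (hφ D hD _ fun i => hρ _)⟩

theorem sat (φ : Fml) : Dfn (fun D ρ => Sat D φ ρ) := ⟨φ, fun _ _ _ _ => Iff.rfl⟩

theorem subset (i j : ℕ) : Dfn (fun _ ρ => ρ i ⊆ ρ j) :=
  ((mem 0 (j + 1)).ball i).congr fun _ _ _ _ => Iff.rfl

theorem upair (i j k : ℕ) : Dfn (fun _ ρ => ρ i = {ρ j, ρ k}) :=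
  ((mem j i).and ((mem k i).and (((eq 0 (j + 1)).or (eq 0 (k + 1))).ball i))).congr
    fun _ _ ρ _ => by
      constructor
      · rintro ⟨h1, h2, h3⟩
        ext z
        rw [ZFSet.mem_pair]
        exact ⟨fun hz => h3 z hz, fun hz => by rcases hz with rfl | rfl <;> assumption⟩
      · intro h
        rw [h]
        exact ⟨by simp, by simp, fun z hz => ZFSet.mem_pair.mp hz⟩

theorem pair (i j k : ℕ) : Dfn (fun _ ρ => ρ i = ZFSet.pair (ρ j) (ρ k)) :=
  ((((upair (i + 2) 1 0).and ((upair 1 (j + 2) (j + 2)).and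
      (upair 0 (j + 2) (k + 2)))).bex (i + 1)).bex i).congr
    fun _ _ ρ _ => by
      simp only [cons_succ, cons_zero, ZFSet.pair_eq_singleton]
      constructor
      · rintro ⟨x, _, y, _, h1, h2, h3⟩
        rw [h1, h2, h3]; rfl
      · intro h
        refine ⟨{ρ j}, ?_, {ρ j, ρ k}, ?_, h, rfl, rfl⟩
        · rw [h]; simp [ZFSet.pair]
        · rw [h]; simp [ZFSet.pair]

/-- Plugging in the two outermost variables of a formula with parameters shifted by `k`. -/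
theorem sat1 (φ : Fml) (a k : ℕ) : Dfn (fun D ρ => Sat D φ (cons (ρ a) (fun i => ρ (i + k)))) :=
  ((sat φ).rename (fun i => match i with | 0 => a | i + 1 => i + k)).congr fun D _ ρ _ => by
    have : (fun i => ρ (match i with | 0 => a | i + 1 => i + k)) =
        cons (ρ a) (fun i => ρ (i + k)) := by
      funext i; cases i <;> rfl
    simp only [this]

theorem sat2 (φ : Fml) (a b k : ℕ) :
    Dfn (fun D ρ => Sat D φ (cons (ρ a) (cons (ρ b) (fun i => ρ (i + k))))) :=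
  ((sat φ).rename (fun i => match i with | 0 => a | 1 => b | i + 2 => i + k)).congr
    fun D _ ρ _ => by
    have : (fun i => ρ (match i with | 0 => a | 1 => b | i + 2 => i + k)) =
        cons (ρ a) (cons (ρ b) (fun i => ρ (i + k))) := by
      funext i
      match i with
      | 0 => rfl
      | 1 => rfl
      | i + 2 => rfl
    simp only [this]

/-- Plugging in one variable and a constant parameter. -/
theorem satc (φ : Fml) (a b : ℕ) : Dfn (fun D ρ => Sat D φ (cons (ρ a) (fun _ => ρ b))) :=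
  ((sat φ).rename (fun i => match i with | 0 => a | _ + 1 => b)).congr fun D _ ρ _ => by
    have : (fun i => ρ (match i with | 0 => a | _ + 1 => b)) = cons (ρ a) (fun _ => ρ b) := by
      funext i; cases i <;> rfl
    simp only [this]

end Dfn

/-- Recursion along a well-founded set-like relation. -/
theorem exists_rec (r : ZFSet.{0} → ZFSet.{0} → Prop) (hr : WellFounded r)
    (hs : ∀ x, Small.{0} {y // r y x}) :
    ∃ f : ZFSet.{0} → ZFSet.{0}, ∀ x z, z ∈ f x ↔ ∃ y, r y x ∧ z = f y := by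
  refine ⟨hr.fix (fun x ih => haveI := hs x; range (fun y : {y // r y x} => ih y.1 y.2)), ?_⟩
  intro x z
  rw [hr.fix_eq]
  have := hs x
  rw [mem_range]
  exact ⟨fun ⟨y, hy⟩ => ⟨y.1, y.2, hy.symm⟩, fun ⟨y, h1, h2⟩ => ⟨⟨y, h1⟩, h2.symm⟩⟩

theorem exists_eval : ∃ ev, IsEval ev := by
  have key : ∀ G : Set ZFSet.{0}, ∃ f : ZFSet.{0} → ZFSet.{0}, ∀ x z, z ∈ f x ↔
      ∃ y, (∃ p ∈ G, pair y p ∈ x) ∧ z = f y := by
    intro G
    apply exists_rec
    · have : Subrelation (fun y x : ZFSet.{0} => ∃ p ∈ G, pair y p ∈ x)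
          (InvImage (· < ·) rank) := by
        rintro y x ⟨p, _, hp⟩
        have h1 : y ∈ ({y} : ZFSet.{0}) := by simp
        have h2 : ({y} : ZFSet.{0}) ∈ pair y p := by simp [ZFSet.pair]
        exact (rank_lt_of_mem h1).trans ((rank_lt_of_mem h2).trans (rank_lt_of_mem hp))
      exact this.wf (InvImage.wf _ Ordinal.lt_wf)
    · intro x
      have hm : ∀ y : {y // ∃ p ∈ G, pair y p ∈ x}, y.1 ∈ ⋃₀ (⋃₀ x) := by
        rintro ⟨y, p, _, hp⟩
        have h1 : y ∈ ({y} : ZFSet.{0}) := by simp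
        have h2 : ({y} : ZFSet.{0}) ∈ pair y p := by simp [ZFSet.pair]
        exact mem_sUnion_of_mem h1 (mem_sUnion_of_mem h2 hp)
      exact small_of_injective (f := fun y => (⟨y.1, hm y⟩ : (⋃₀ (⋃₀ x) : ZFSet.{0})))
        (fun y y' h => Subtype.ext (by simpa using h))
  choose ev hev using key
  refine ⟨ev, fun G σ x => ?_⟩
  rw [hev]
  constructor
  · rintro ⟨y, ⟨p, h1, h2⟩, h3⟩; exact ⟨y, p, h1, h2, h3⟩
  · rintro ⟨y, p, h1, h2, h3⟩; exact ⟨y, ⟨p, h1, h2⟩, h3⟩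

end Pool.Agent.Lib.MP_2c70cf_lc
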