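import Pool.Agent.Lib.MP_2c70cf_lc.Levels

set_option autoImplicit false

namespace Pool.Agent.Lib.MP_2c70cf_lc

open ZFSet

inductive Tm : Type
  | base : ℕ → Tm
  | sk : Fml → Tm → Tm
  | cns : Tm → Tm → Tm

deriving instance Countable for Tm

open Classical in
noncomputable def skf (a : ZFSet.{0}) (φ : Fml) (ρ : Env) : ZFSet.{0} :=
  if h : ∃ x ∈ UU a, Sat Set.univ φ (cons x ρ) then h.choose else a

noncomputable def Tm.env (a : ZFSet.{0}) (en : ℕ → ZFSet.{0}) : Tm → Env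
  | .base n => fun _ => en n
  | .sk φ t => fun _ => skf a φ (t.env a en)
  | .cns t t' => cons (t.env a en 0) (t'.env a en)

/-- The Tarski-Vaught condition for a subclass of the universe. -/
def TV (N : Set ZFSet.{0}) : Prop :=
  ∀ (φ : Fml) (ρ : Env), (∀ i, ρ i ∈ N) → (∃ x, Sat Set.univ φ (cons x ρ)) →
    ∃ x ∈ N, Sat Set.univ φ (cons x ρ)

theorem exists_hull (a : ZFSet.{0}) (ha : (a : Set ZFSet.{0}).Countable) :
    ∃ N : Set ZFSet.{0}, N.Countable ∧ a ∈ N ∧ (∀ x ∈ a, x ∈ N) ∧ N ⊆ UU a ∧ TV N := by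
  obtain ⟨en, hen⟩ := (ha.insert a).exists_eq_range (Set.insert_nonempty _ _)
  have hen1 : ∀ n, en n ∈ UU a := by
    intro n
    have : en n ∈ insert a (a : Set ZFSet.{0}) := hen ▸ Set.mem_range_self n
    rcases this with h | h
    · rw [h]; exact self_mem_UU a
    · exact trans_UU a a (self_mem_UU a) _ h
  have hU : ∀ (t : Tm) i, t.env a en i ∈ UU a := by
    intro t
    induction t with
    | base n => intro i; exact hen1 n
    | sk φ t _ =>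
      intro i
      simp only [Tm.env, skf]
      split_ifs with h
      · exact h.choose_spec.1
      · exact self_mem_UU a
    | cns t t' ih ih' => exact cons_mem (ih 0) ih'
  have hbase : ∀ x ∈ insert a (a : Set ZFSet.{0}), x ∈ Set.range fun t : Tm => t.env a en 0 := by
    intro x hx
    rw [hen] at hx
    obtain ⟨n, rfl⟩ := hx
    exact ⟨.base n, rfl⟩
  have happ : ∀ (n : ℕ) (ρ : Env), (∀ i, ρ i ∈ Set.range fun t : Tm => t.env a en 0) →
      ∃ t : Tm, ∀ i < n, t.env a en i = ρ i := by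
    intro n
    induction n with
    | zero => intro ρ _; exact ⟨.base 0, fun i hi => by omega⟩
    | succ n ih =>
      intro ρ hρ
      obtain ⟨t', ht'⟩ := ih (fun i => ρ (i + 1)) fun i => hρ _
      obtain ⟨t, ht⟩ := hρ 0
      refine ⟨.cns t t', fun i hi => ?_⟩
      cases i with
      | zero => exact ht
      | succ i => exact ht' i (by omega)
  refine ⟨Set.range fun t : Tm => t.env a en 0, Set.countable_range _,
    hbase a (Set.mem_insert _ _), fun x hx => hbase x (Set.mem_insert_of_mem _ hx), ?_, ?_⟩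
  · rintro _ ⟨t, rfl⟩; exact hU t 0
  · intro φ ρ hρ h
    obtain ⟨t, ht⟩ := happ φ.bound ρ hρ
    have hc : ∀ x, Sat Set.univ φ (cons x (t.env a en)) ↔ Sat Set.univ φ (cons x ρ) := by
      intro x
      refine sat_congr _ φ φ.bound _ _ le_rfl fun i hi => ?_
      cases i with
      | zero => rfl
      | succ i => exact ht i (by omega)
    have h1 : ∃ x ∈ UU a, Sat Set.univ φ (cons x (t.env a en)) :=
      tv_UU a φ _ (hU t) (h.imp fun x hx => (hc x).mpr hx)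
    refine ⟨_, ⟨.sk φ t, rfl⟩, (hc _).mp ?_⟩
    simp only [Tm.env, skf, dif_pos h1]
    exact h1.choose_spec.2

theorem TV.dfn {N : Set ZFSet.{0}} (h : TV N) {P : Set ZFSet.{0} → Env → Prop} (hP : Dfn P)
    (ρ : Env) (hρ : ∀ i, ρ i ∈ N) (hx : ∃ x, P Set.univ (cons x ρ)) :
    ∃ x ∈ N, P Set.univ (cons x ρ) := by
  obtain ⟨φ, hφ⟩ := hP
  have hφ' : ∀ ρ, Sat Set.univ φ ρ ↔ P Set.univ ρ := fun ρ => hφ _ trans_univ ρ fun _ => trivial
  simp only [← hφ'] at hx ⊢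
  exact h φ ρ hρ hx

theorem TV.ext {N : Set ZFSet.{0}} (h : TV N) {x y : ZFSet.{0}} (hx : x ∈ N) (hy : y ∈ N)
    (e : ∀ z ∈ N, z ∈ x ↔ z ∈ y) : x = y := by
  by_contra hne
  have : ∃ z, ¬ (z ∈ x ↔ z ∈ y) := by
    by_contra hh
    push Not at hh
    exact hne (ZFSet.ext hh)
  obtain ⟨z, hz, hz'⟩ := h.dfn ((Dfn.mem 0 1).iff (Dfn.mem 0 2)).not (cons x fun _ => y)
    (cons_mem hx fun _ => hy) this
  exact hz' (e z hz)

/-- The Mostowski collapse of an elementary subclass of the universe. -/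
theorem exists_collapse {N : Set ZFSet.{0}} (h : TV N) :
    ∃ π : ZFSet.{0} → ZFSet.{0}, (∀ x z, z ∈ π x ↔ ∃ y, (y ∈ x ∧ y ∈ N) ∧ z = π y) ∧
      (∀ x ∈ N, ∀ y ∈ N, π x = π y → x = y) ∧
      ∀ (φ : Fml) (ρ : Env), (∀ i, ρ i ∈ N) →
        (Sat (π '' N) φ (fun i => π (ρ i)) ↔ Sat Set.univ φ ρ) := by
  obtain ⟨π, hπ⟩ := exists_rec (fun y x => y ∈ x ∧ y ∈ N)
    (Subrelation.wf (fun h => h.1) mem_wf) (fun x =>
      small_of_injective (f := fun y : {y // y ∈ x ∧ y ∈ N} => (⟨y.1, y.2.1⟩ : x))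
        (fun y y' h => Subtype.ext (by simpa using h)))
  have inj : ∀ x, x ∈ N → ∀ y ∈ N, π x = π y → x = y := by
    intro x
    induction x using ZFSet.inductionOn with
    | h x ih =>
      intro hx y hy e
      refine h.ext hx hy fun z hz => ⟨fun hzx => ?_, fun hzy => ?_⟩
      · have : π z ∈ π y := e ▸ (hπ x _).mpr ⟨z, ⟨hzx, hz⟩, rfl⟩
        obtain ⟨z', ⟨h1, h2⟩, h3⟩ := (hπ y _).mp this
        rw [ih z hzx hz z' h2 h3]; exact h1
      · have : π z ∈ π x := e ▸ (hπ y _).mpr ⟨z, ⟨hzy, hz⟩, rfl⟩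
        obtain ⟨z', ⟨h1, h2⟩, h3⟩ := (hπ x _).mp this
        rw [← ih z' h1 h2 z hz h3.symm]; exact h1
  refine ⟨π, hπ, inj, fun φ => ?_⟩
  induction φ with
  | mem i j =>
    intro ρ hρ
    simp only [Sat]
    rw [hπ]
    constructor
    · rintro ⟨y, ⟨h1, h2⟩, h3⟩
      rw [inj _ (hρ i) y h2 h3]; exact h1
    · intro h1; exact ⟨_, ⟨h1, hρ i⟩, rfl⟩
  | eq i j =>
    intro ρ hρ
    exact ⟨inj _ (hρ i) _ (hρ j), fun e => congrArg π e⟩
  | neg φ ih => intro ρ hρ; exact not_congr (ih ρ hρ)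
  | and φ ψ ih₁ ih₂ => intro ρ hρ; exact and_congr (ih₁ ρ hρ) (ih₂ ρ hρ)
  | ex φ ih =>
    intro ρ hρ
    simp only [Sat]
    constructor
    · rintro ⟨_, ⟨x, hx, rfl⟩, h1⟩
      rw [← comp_cons, ih _ (cons_mem hx hρ)] at h1
      exact ⟨x, trivial, h1⟩
    · rintro ⟨x, -, h1⟩
      obtain ⟨y, hy, h2⟩ := h φ ρ hρ ⟨x, h1⟩
      refine ⟨π y, ⟨y, hy, rfl⟩, ?_⟩
      rw [← comp_cons, ih _ (cons_mem hy hρ)]
      exact h2

/-- A transitive class all of whose first order properties transfer from the universe. -/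
def Elem (M : Set ZFSet.{0}) : Prop :=
  ∀ ρ : Env, (∀ i, ρ i ∈ M) → ∃ ρ' : Env, ∀ φ, Sat M φ ρ ↔ Sat Set.univ φ ρ'

theorem Elem.transfer {M : Set ZFSet.{0}} (h : Elem M) (hT : Trans M)
    {P : Set ZFSet.{0} → Env → Prop} (hP : Dfn P) (hV : ∀ ρ, P Set.univ ρ) (ρ : Env)
    (hρ : ∀ i, ρ i ∈ M) : P M ρ := by
  obtain ⟨φ, hφ⟩ := hP
  obtain ⟨ρ', hρ'⟩ := h ρ hρ
  rw [← hφ M hT ρ hρ, hρ', hφ _ trans_univ ρ' fun _ => trivial]
  exact hV ρ'

theorem collection_univ (c : ZFSet.{0}) (R : ZFSet.{0} → ZFSet.{0} → Prop)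
    (h : ∀ x ∈ c, ∃ y, R x y) : ∃ s : ZFSet.{0}, (∀ x ∈ c, ∃ y ∈ s, R x y) ∧
      ∀ y ∈ s, ∃ x ∈ c, R x y := by
  choose g hg using h
  refine ⟨range (fun x : c => g x.1 x.2), fun x hx => ⟨g x hx, mem_range.mpr ⟨⟨x, hx⟩, rfl⟩,
    hg x hx⟩, fun y hy => ?_⟩
  obtain ⟨x, rfl⟩ := mem_range.mp hy
  exact ⟨x.1, x.2, hg x.1 x.2⟩

theorem Elem.models {M : Set ZFSet.{0}} (h : Elem M) (hT : Trans M) (hne : M.Nonempty) :
    ModelsZFminus M where
  extensionality := by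
    intro x hx y hy e
    ext z
    exact ⟨fun hz => (e z (hT x hx z hz)).mp hz, fun hz => (e z (hT y hy z hz)).mpr hz⟩
  foundation := by
    rintro x hx ⟨y, -, hy⟩
    obtain ⟨z, hz, hz'⟩ := regularity x (fun e => by simp [e] at hy)
    refine ⟨z, hT x hx z hz, hz, fun w _ hw hw' => ?_⟩
    have : w ∈ x ∩ z := mem_inter.mpr ⟨hw', hw⟩
    rw [hz'] at this
    exact notMem_empty _ this
  pairing := by
    intro x hx y hy
    exact h.transfer hT (((Dfn.mem 0 1).iff ((Dfn.eq 0 2).or (Dfn.eq 0 3))).all.ex)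
      (fun ρ => ⟨{ρ 0, ρ 1}, trivial, fun z _ => ZFSet.mem_pair⟩) (cons x fun _ => y)
      (cons_mem hx fun _ => hy)
  union := by
    intro x hx
    exact h.transfer hT (((Dfn.mem 0 1).iff ((Dfn.mem 0 3).and (Dfn.mem 1 0)).ex).all.ex)
      (fun ρ => ⟨⋃₀ ρ 0, trivial, fun z _ => by simp⟩) (fun _ => x) (fun _ => hx)
  infinity := by
    obtain ⟨x, hx⟩ := hne
    exact h.transfer hT ((((Dfn.mem 0 1).and (Dfn.mem 0 1).not.all).ex.and
      ((Dfn.mem 0 1).imp ((Dfn.mem 0 2).and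
        ((Dfn.mem 0 1).iff ((Dfn.mem 0 2).or (Dfn.eq 0 2))).all).ex).all).ex)
      (fun ρ => ⟨omega, trivial, ⟨∅, trivial, omega_zero, fun z _ => notMem_empty z⟩,
        fun y _ hy => ⟨insert y y, trivial, omega_succ hy, fun z _ => by simp [or_comm]⟩⟩)
      (fun _ => x) (fun _ => hx)
  separation := by
    intro φ ρ hρ c hc
    exact h.transfer hT (((Dfn.mem 0 1).iff ((Dfn.mem 0 2).and (Dfn.sat1 φ 0 3))).all.ex)
      (fun ρ => ⟨(ρ 0).sep fun x => Sat Set.univ φ (cons x fun i => ρ (i + 1)), trivial,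
        fun z _ => mem_sep (p := fun x => Sat Set.univ φ (cons x fun i => ρ (i + 1)))⟩)
      (cons c ρ) (cons_mem hc hρ)
  replacement := by
    intro φ ρ hρ c hc
    refine h.transfer hT (((Dfn.mem 0 1).imp ((Dfn.sat2 φ 0 2 4).iff (Dfn.eq 0 1)).all.ex).all.imp
      ((Dfn.mem 0 1).iff ((Dfn.mem 0 3).and (Dfn.sat2 φ 1 0 4)).ex).all.ex)
      (fun ρ H => ?_) (cons c ρ) (cons_mem hc hρ)
    obtain ⟨s, h1, h2⟩ := collection_univ (ρ 0)
      (fun x y => ∀ y', Sat Set.univ φ (cons y' (cons x fun i => ρ (i + 1))) ↔ y' = y)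
      (fun x hx => by
        obtain ⟨y, -, hy⟩ := H x trivial hx
        exact ⟨y, fun y' => hy y' trivial⟩)
    refine ⟨s, trivial, fun y _ => ⟨fun hy => ?_, ?_⟩⟩
    · obtain ⟨x, hx, hxy⟩ := h2 y hy
      exact ⟨x, trivial, hx, (hxy y).mpr rfl⟩
    · rintro ⟨x, -, hx, hxy⟩
      obtain ⟨y', hy', hxy'⟩ := h1 x hx
      have : y = y' := (hxy' y).mp hxy
      rw [← this] at hy'
      exact hy'
  collection := by
    intro φ ρ hρ c hc
    refine h.transfer hT (((Dfn.mem 0 1).imp (Dfn.sat2 φ 0 1 3).ex).all.imp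
      ((Dfn.mem 0 2).imp ((Dfn.mem 0 2).and (Dfn.sat2 φ 0 1 4)).ex).all.ex)
      (fun ρ H => ?_) (cons c ρ) (cons_mem hc hρ)
    obtain ⟨s, h1, -⟩ := collection_univ (ρ 0)
      (fun x y => Sat Set.univ φ (cons y (cons x fun i => ρ (i + 1))))
      (fun x hx => by
        obtain ⟨y, -, hy⟩ := H x trivial hx
        exact ⟨y, hy⟩)
    refine ⟨s, trivial, fun x _ hx => ?_⟩
    obtain ⟨y, hy, hxy⟩ := h1 x hx
    exact ⟨y, trivial, hy, hxy⟩

/-- The ground model: a countable transitive model in which the sets definable from `a` are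
cofinal. -/
theorem exists_model (A : Set ZFSet.{0}) (hA : A.Countable) (hT : Trans A) :
    ∃ (M : Set ZFSet.{0}) (a : ZFSet.{0}), M.Countable ∧ Trans M ∧ ModelsZFminus M ∧ a ∈ M ∧
      (∀ x, x ∈ a ↔ x ∈ A) ∧ ∀ c ∈ M, ∃ w ∈ M, c ∈ w ∧ w.IsTransitive ∧
        ∃ θ : Fml, ∀ y ∈ M, Sat M θ (cons y fun _ => a) ↔ y = w := by
  have := hA.to_subtype
  let a : ZFSet.{0} := range (fun x : A => x.1)
  have ha : ∀ x, x ∈ a ↔ x ∈ A := fun x => by simp [a]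
  obtain ⟨N, hN, haN, hAN, hNU, htv⟩ := exists_hull a
    (hA.mono fun x hx => (ha x).mp hx)
  obtain ⟨π, hπ, inj, hsat⟩ := exists_collapse htv
  have hTM : Trans (π '' N) := by
    rintro _ ⟨x, -, rfl⟩ z hz
    obtain ⟨y, ⟨-, h2⟩, rfl⟩ := (hπ x z).mp hz
    exact ⟨y, h2, rfl⟩
  have hfix : ∀ x, (∀ y ∈ x, y ∈ A) → π x = x := by
    intro x
    induction x using ZFSet.inductionOn with
    | h x ih =>
      intro hx
      ext z
      rw [hπ]
      constructor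
      · rintro ⟨y, ⟨h1, -⟩, rfl⟩
        rw [ih y h1 (hT y (hx y h1))]; exact h1
      · intro hz
        exact ⟨z, ⟨hz, hAN z ((ha z).mpr (hx z hz))⟩, (ih z hz (hT z (hx z hz))).symm⟩
  have hπa : π a = a := hfix a fun y hy => (ha y).mp hy
  have hE : Elem (π '' N) := by
    intro ρ hρ
    choose ρ' h1 h2 using hρ
    refine ⟨ρ', fun φ => ?_⟩
    rw [← hsat φ ρ' h1]
    simp only [h2]
  refine ⟨π '' N, a, hN.image _, hTM, hE.models hTM ⟨_, a, haN, rfl⟩, ⟨a, haN, hπa⟩, ha, ?_⟩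
  rintro _ ⟨c, hc, rfl⟩
  obtain ⟨o, ⟨θ, hθ⟩, hco⟩ := hNU hc
  obtain ⟨w, hw, hw'⟩ := htv θ (fun _ => a) (fun _ => haN) ⟨_, (hθ _).mpr rfl⟩
  obtain rfl := (hθ _).mp hw'
  refine ⟨π (V_ o), ⟨_, hw, rfl⟩, (hπ _ _).mpr ⟨c, ⟨hco, hc⟩, rfl⟩, ?_, θ, ?_⟩
  · intro y hy z hz
    obtain ⟨y', ⟨h1, h2⟩, rfl⟩ := (hπ _ _).mp hy
    obtain ⟨z', ⟨h3, h4⟩, rfl⟩ := (hπ _ _).mp hz
    exact (hπ _ _).mpr ⟨z', ⟨(isTransitive_vonNeumann o).mem_trans h3 h1, h4⟩, rfl⟩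
  · rintro _ ⟨y, hy, rfl⟩
    have := hsat θ (cons y fun _ => a) (cons_mem hy fun _ => haN)
    rw [comp_cons, hπa, hθ] at this
    rw [this]
    exact ⟨fun e => congrArg π e, inj _ hy _ hw⟩

end Pool.Agent.Lib.MP_2c70cf_lc
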