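import Pool.Agent.Lib.MP_2c70cf_lc.Names
import Pool.Agent.Lib.MP_2c70cf_lc.Model

set_option autoImplicit false

namespace Pool.Agent.Lib.MP_2c70cf_lc

open ZFSet

theorem exists_chi : ∃ χ : ℕ → Fml, (∀ D x a, Sat D (χ 0) (cons x fun _ => a) ↔ x ∈ a) ∧
    (∀ k D, Trans D → ∀ a ∈ D, ∃ w ∈ D, ∀ x ∈ D, Sat D (χ k) (cons x fun _ => a) → x ∈ w) ∧
    ∀ θ : Fml, ∃ k, ∀ D, Trans D → ∀ a ∈ D, ∀ w ∈ D,
      (∀ y ∈ D, Sat D θ (cons y fun _ => a) ↔ y = w) →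
      ∀ x ∈ w, Sat D (χ k) (cons x fun _ => a) := by
  have : Nonempty Fml := ⟨.eq 0 0⟩
  obtain ⟨en, hen⟩ := exists_surjective_nat Fml
  have key : ∀ θ : Fml, Dfn (fun D σ => ∃ w ∈ D, Sat D θ (cons w fun _ => σ 1) ∧
      (∀ w' ∈ D, Sat D θ (cons w' fun _ => σ 1) → w' = w) ∧ σ 0 ∈ w) := fun θ =>
    ((Dfn.satc θ 0 2).and (((Dfn.satc θ 0 3).imp (Dfn.eq 0 1)).all.and (Dfn.mem 1 0))).ex
  choose g hg using key
  refine ⟨fun k => Nat.casesOn k (.mem 0 1) fun k => g (en k), fun D x a => Iff.rfl, ?_, ?_⟩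
  · intro k D hD a ha
    cases k with
    | zero => exact ⟨a, ha, fun x _ h => h⟩
    | succ k =>
      by_cases h : ∃ w ∈ D, Sat D (en k) (cons w fun _ => a)
      · obtain ⟨w, hw, hw'⟩ := h
        refine ⟨w, hw, fun x hx h => ?_⟩
        obtain ⟨w', -, -, h2, h3⟩ := (hg _ D hD _ (cons_mem hx fun _ => ha)).mp h
        rw [h2 w hw hw']
        exact h3
      · refine ⟨a, ha, fun x hx h' => ?_⟩
        obtain ⟨w', h0, h1, -, -⟩ := (hg _ D hD _ (cons_mem hx fun _ => ha)).mp h'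
        exact (h ⟨w', h0, h1⟩).elim
  · intro θ
    obtain ⟨k, rfl⟩ := hen θ
    refine ⟨k + 1, fun D hD a ha w hw h x hx => ?_⟩
    exact (hg _ D hD _ (cons_mem (hD w hw x hx) fun _ => ha)).mpr
      ⟨w, hw, (h w hw).mpr rfl, fun w' hw' h' => (h w' hw').mp h', hx⟩

theorem main {ev : Set ZFSet.{0} → ZFSet.{0} → ZFSet.{0}} (hev : IsEval ev) :
    ∃ M : Set ZFSet.{0}, M.Countable ∧ Trans M ∧ ModelsZFminus M ∧
      ¬ TruthLemma ev M (Fml.eq 0 1) := by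
  classical
  obtain ⟨χ, hχ0, hχ1, hχ2⟩ := exists_chi
  let fin : NP := conj fun n => disj fun k =>
    if k ≤ n + 1 then nm (χ k) (consN (n + 1) fun _ => 0) true else fls
  have hfin : GdP fin := gd_conj fun n => gd_disj fun k => by
    split_ifs
    exacts [gd_nm _ _ _, gd_fls]
  obtain ⟨A, hA1, hA2, hA3⟩ : HC (insert fin.1 (insert fin.2 (insert WW (range num)))) :=
    hc_insert hfin.1.1 (hc_insert hfin.2.1 (hc_insert hc_WW (hc_range hc_num)))
  obtain ⟨M, a, hc, hT, hM, haM, haA, hcof⟩ := exists_model A hA1 hA2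
  have hAM : ∀ x ∈ insert fin.1 (insert fin.2 (insert WW (range num))), x ∈ a := fun x hx =>
    (haA x).mpr (hA2 _ hA3 x hx)
  let T : ℕ → Set ZFSet.{0} := fun n => {x | ∃ k ≤ n, Sat M (χ k) (cons x fun _ => a)}
  have hW : WW ∈ M := hT a haM _ (hAM _ (by simp))
  have hT1 : ∀ n k, num k ∈ T n := fun n k =>
    ⟨0, Nat.zero_le _, (hχ0 _ _ _).mpr (hAM _ (by simp))⟩
  have hT2 : ∀ c ∈ M, ∃ w : ZFSet.{0}, w.IsTransitive ∧ c ∈ w ∧
      ∃ N, ∀ n ≥ N, ∀ x ∈ w, x ∈ T n := by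
    intro c hc
    obtain ⟨w, hw, hcw, hwT, θ, hθ⟩ := hcof c hc
    obtain ⟨k, hk⟩ := hχ2 θ
    exact ⟨w, hwT, hcw, k, fun n hn x hx => ⟨k, hn, hk M hT a haM w hw hθ x hx⟩⟩
  have hgen := exists_generic hT hM hW hT1 hT2 hc
  have hholds : ∀ F : Env, Function.Injective F → Set.range F = M → F 0 = a →
      (ev (GF M F) fin.1 = ev (GF M F) fin.2 ↔ ∀ n, F (n + 1) ∈ T (n + 1)) := by
    intro F hinj hF h0
    have h1 := one_mem_GF M F
    rw [ev_conj hev h1]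
    refine forall_congr' fun n => ?_
    rw [ev_disj hev h1]
    refine exists_congr fun k => ?_
    have hc : (fun i => F (consN (n + 1) (fun _ => 0) i)) = cons (F (n + 1)) fun _ => a := by
      funext i
      cases i with
      | zero => rfl
      | succ i => exact h0
    split_ifs with h
    · rw [ev_nm hev hinj hF, hc]; simp [h]
    · simp [h, ev_fls hev h1]
  refine ⟨M, hc, hT, hM, fun hTL => ?_⟩
  obtain ⟨F, hinj, hF, hF0, hFT, hG⟩ := hgen ({0}, fun _ => a)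
    ⟨by simp, fun _ _ => haM⟩
  have hFa : F 0 = a := hF0 0 (by simp)
  have hFM : ∀ i, F i ∈ M := fun i => hF ▸ Set.mem_range_self i
  obtain ⟨p, ⟨hp, s, hs⟩, hforce⟩ := hTL (GF M F) (cons fin.1 fun _ => fin.2) hG (by
      intro i
      cases i with
      | zero => exact ⟨hT a haM _ (hAM _ (by simp)), hfin.1.2 M⟩
      | succ i => exact ⟨hT a haM _ (hAM _ (by simp)), hfin.2.2 M⟩)
    ((hholds F hinj hF hFa).mpr fun n => hFT _ (by simp))
  obtain ⟨n, hn⟩ : ∃ n, n + 1 ∉ insert 0 s := by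
    obtain ⟨n, hn, hn'⟩ := (Set.Ici_infinite 1).exists_notMem_finite (insert 0 s).finite_toSet
    exact ⟨n - 1, by rwa [Nat.sub_add_cancel hn]⟩
  choose w hw hw' using fun k => hχ1 k M hT a haM
  obtain ⟨x, hx, hx'⟩ := exists_finite_mem hT hM
    (S := w '' Set.Iic (n + 1) ∪ F '' (insert 0 s : Finset ℕ))
    (((Set.finite_Iic _).image _).union ((Finset.finite_toSet _).image _)) (by
      rintro _ (⟨k, -, rfl⟩ | ⟨i, -, rfl⟩)
      exacts [hw k, hFM i])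
  obtain ⟨y, hy, hxy, hy1, hy2⟩ := exists_add (M := M) (T := fun _ => Set.univ)
    (x := (insert 0 s, F)) ⟨hinj.injOn, fun i _ => hFM i⟩ hn hx trivial (fun i hi e =>
      mem_irrefl x (by
        have : F i ∈ x := (hx' _).mpr (Or.inr ⟨i, hi, rfl⟩)
        rwa [show F i = x from e] at this))
  obtain ⟨F', hinj', hF', hF0', -, hG'⟩ := hgen y hy
  have hFF : ∀ i ∈ insert 0 s, F' i = F i := fun i hi =>
    (hF0' i (hxy.1 hi)).trans (hxy.2.1 i hi)
  have hpG : p ∈ GF M F' := ⟨hp, s, by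
    rw [cnd_congr fun i hi => hFF i (Finset.mem_insert_of_mem hi)]; exact hs⟩
  obtain ⟨k, hk, hk'⟩ := (hholds F' hinj' hF' ((hFF 0 (by simp)).trans hFa)).mp
    (hforce _ hG' hpG) n
  rw [hF0' _ (by rw [hy1]; exact Finset.mem_insert_self _ _), hy2] at hk'
  exact mem_asymm (hw' k x hx hk') ((hx' _).mpr (Or.inl ⟨k, hk, rfl⟩))

end Pool.Agent.Lib.MP_2c70cf_lc
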