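import Pool.Agent.Lib.MP_2c70cf_lc.Generic

set_option autoImplicit false

namespace Pool.Agent.Lib.MP_2c70cf_lc

open ZFSet

/-- Hereditarily countable sets. -/
def HC (x : ZFSet.{0}) : Prop := ∃ A : Set ZFSet.{0}, A.Countable ∧ Trans A ∧ x ∈ A

theorem hc_of_forall {x : ZFSet.{0}} (h : (x : Set ZFSet.{0}).Countable) (h' : ∀ y ∈ x, HC y) :
    HC x := by
  choose A h1 h2 h3 using h'
  have := h.to_subtype
  refine ⟨insert x (⋃ y : (x : Set ZFSet.{0}), A y.1 y.2),
    (Set.countable_iUnion fun y => h1 _ _).insert x, ?_, Set.mem_insert _ _⟩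
  rintro z (rfl | hz) y hy
  · exact Set.mem_insert_of_mem _ (Set.mem_iUnion.mpr ⟨⟨y, hy⟩, h3 y hy⟩)
  · obtain ⟨u, hu⟩ := Set.mem_iUnion.mp hz
    exact Set.mem_insert_of_mem _ (Set.mem_iUnion.mpr ⟨u, h2 _ _ z hu y hy⟩)

theorem hc_range {ι : Type} [Countable ι] {g : ι → ZFSet.{0}} (h : ∀ i, HC (g i)) :
    HC (range g) :=
  hc_of_forall (by rw [coe_range]; exact Set.countable_range g) fun y hy => by
    obtain ⟨i, rfl⟩ := mem_range.mp hy
    exact h i

theorem hc_empty : HC ∅ := hc_of_forall (by simp) (by simp)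

theorem hc_insert {x y : ZFSet.{0}} (hx : HC x) (hy : HC y) : HC (insert x y) := by
  obtain ⟨A, h1, h2, h3⟩ := hy
  refine hc_of_forall ?_ fun z hz => ?_
  · rw [coe_insert]
    exact (h1.mono fun z hz => h2 y h3 z hz).insert x
  · rcases mem_insert_iff.mp hz with rfl | hz
    · exact hx
    · exact ⟨A, h1, h2, h2 y h3 z hz⟩

theorem hc_singleton {x : ZFSet.{0}} (hx : HC x) : HC {x} := by
  rw [← LawfulSingleton.insert_empty_eq]; exact hc_insert hx hc_empty

theorem hc_pair {x y : ZFSet.{0}} (hx : HC x) (hy : HC y) : HC (pair x y) :=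
  hc_insert (hc_singleton hx) (hc_singleton (hc_insert hx (hc_singleton hy)))

theorem hc_num (n : ℕ) : HC (num n) := by
  induction n with
  | zero => exact hc_empty
  | succ n ih => exact hc_insert ih ih

theorem hc_WW : HC WW := hc_range fun _ => hc_range fun _ => hc_pair (hc_num _) (hc_num _)

/-- The trivial condition. -/
def one : ZFSet.{0} := pair ∅ (pair ∅ ∅)

theorem isCond_one (M : Set ZFSet.{0}) : IsCond M one := by
  refine ⟨∅, ∅, ∅, rfl, by simp, by simp, by simp, ?_, by simp, by simp, by simp, by simp, by simp⟩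
  intro i h
  cases h with
  | single h => exact notMem_empty _ h
  | tail _ h => exact notMem_empty _ h

theorem one_mem_GF (M : Set ZFSet.{0}) (F : Env) : one ∈ GF M F :=
  ⟨isCond_one M, ∅, _, _, _, _, _, _, rfl, rfl, by simp, by ext z; simp, by simp⟩

/-- Hereditarily countable sets that are names for all ground models. -/
def Gd (σ : ZFSet.{0}) : Prop := HC σ ∧ ∀ M, IsName M σ

theorem gd_empty : Gd ∅ := ⟨hc_empty, fun _ => IsName.intro _ (by simp) (by simp)⟩

noncomputable def NN {ι : Type} (g : ι → ZFSet.{0}) : ZFSet.{0} := range fun i => pair (g i) one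

theorem gd_NN {ι : Type} [Countable ι] {g : ι → ZFSet.{0}} (h : ∀ i, Gd (g i)) : Gd (NN g) := by
  refine ⟨hc_range fun i => hc_pair (h i).1 (hc_pair hc_empty (hc_pair hc_empty hc_empty)),
    fun M => IsName.intro _ ?_ ?_⟩
  · intro z hz
    obtain ⟨i, rfl⟩ := mem_range.mp hz
    exact ⟨_, _, rfl, isCond_one M⟩
  · intro τ p hz
    obtain ⟨i, hi⟩ := mem_range.mp hz
    rw [← (pair_inj.mp hi).1]
    exact (h i).2 M

noncomputable def upn (σ τ : ZFSet.{0}) : ZFSet.{0} := NN fun b : Bool => cond b σ τ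

noncomputable def opn (σ τ : ZFSet.{0}) : ZFSet.{0} := upn (upn σ σ) (upn σ τ)

noncomputable def tg : ℕ → ZFSet.{0}
  | 0 => ∅
  | n + 1 => upn (tg n) (tg n)

def zn : ℕ → ZFSet.{0}
  | 0 => ∅
  | n + 1 => {zn n}

theorem singleton_ne_empty (x : ZFSet.{0}) : ({x} : ZFSet.{0}) ≠ ∅ := fun h =>
  notMem_empty x (h ▸ mem_singleton.mpr rfl)

theorem zn_injective : Function.Injective zn := by
  intro m
  induction m with
  | zero =>
    intro n h
    cases n with
    | zero => rfl
    | succ n => exact (singleton_ne_empty _ h.symm).elim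
  | succ m ih =>
    intro n h
    cases n with
    | zero => exact (singleton_ne_empty _ h).elim
    | succ n => rw [ih (singleton_inj.mp h)]

theorem gd_upn {σ τ : ZFSet.{0}} (h : Gd σ) (h' : Gd τ) : Gd (upn σ τ) :=
  gd_NN fun b => by cases b <;> assumption

theorem gd_opn {σ τ : ZFSet.{0}} (h : Gd σ) (h' : Gd τ) : Gd (opn σ τ) :=
  gd_upn (gd_upn h h) (gd_upn h h')

theorem gd_tg (n : ℕ) : Gd (tg n) := by
  induction n with
  | zero => exact gd_empty
  | succ n ih => exact gd_upn ih ih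

abbrev NP := ZFSet.{0} × ZFSet.{0}

def GdP (p : NP) : Prop := Gd p.1 ∧ Gd p.2

noncomputable def conj (p : ℕ → NP) : NP :=
  (NN fun n => opn (tg n) (p n).1, NN fun n => opn (tg n) (p n).2)

noncomputable def CC (p : ℕ → NP) (o : Option ℕ) : ZFSet.{0} :=
  NN fun x : ℕ × Bool => opn (tg x.1) (if x.2 = true ∨ o = some x.1 then (p x.1).1 else (p x.1).2)

noncomputable def disj (p : ℕ → NP) : NP := (NN fun i => CC p (some i), NN (CC p))

theorem gd_conj {p : ℕ → NP} (h : ∀ n, GdP (p n)) : GdP (conj p) :=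
  ⟨gd_NN fun n => gd_opn (gd_tg n) (h n).1, gd_NN fun n => gd_opn (gd_tg n) (h n).2⟩

theorem gd_CC {p : ℕ → NP} (h : ∀ n, GdP (p n)) (o : Option ℕ) : Gd (CC p o) :=
  gd_NN fun x => gd_opn (gd_tg _) (by split_ifs; exacts [(h _).1, (h _).2])

theorem gd_disj {p : ℕ → NP} (h : ∀ n, GdP (p n)) : GdP (disj p) :=
  ⟨gd_NN fun _ => gd_CC h _, gd_NN fun _ => gd_CC h _⟩

/-- The condition deciding that `a` is below `b` in the generic relation. -/
def memc (a b : ℕ) : ZFSet.{0} := pair {num a, num b} (pair {pair (num a) (num b)} ∅)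

def memn (a b : ℕ) : ZFSet.{0} := if a = b then ∅ else {pair ∅ (memc a b)}

theorem isCond_memc (M : Set ZFSet.{0}) {a b : ℕ} (h : a ≠ b) : IsCond M (memc a b) := by
  refine ⟨_, _, _, rfl, ?_, by simp, by simp, ?_, by simp, by simp, by simp, by simp, by simp⟩
  · intro z hz
    rcases ZFSet.mem_pair.mp hz with rfl | rfl <;> exact (mem_omega_iff _).mpr ⟨_, rfl⟩
  · have key : ∀ u v, Relation.TransGen (fun i j : ZFSet.{0} =>
        pair i j ∈ ({pair (num a) (num b)} : ZFSet.{0})) u v → u = num a ∧ v = num b := by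
      intro u v huv
      induction huv with
      | single h => simpa using h
      | tail _ h ih => exact ⟨ih.1, (by simpa using h : _ ∧ _).2⟩
    intro i hi
    obtain ⟨h1, h2⟩ := key i i hi
    exact h (num_injective (h1.symm.trans h2))

theorem memc_mem_GF (M : Set ZFSet.{0}) (F : Env) {a b : ℕ} (h : a ≠ b) :
    memc a b ∈ GF M F ↔ F a ∈ F b := by
  constructor
  · rintro ⟨-, s, d, e, f, d', e', f', h0, h1, -, h2, -⟩
    simp only [cnd, memc, pair_inj] at h0 h1
    obtain ⟨-, rfl, -⟩ := h0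
    obtain ⟨-, rfl, -⟩ := h1
    have : pair (num a) (num b) ∈ eS s F ∩ prod d' d' := by rw [h2]; simp
    obtain ⟨i, -, j, -, h3, h4⟩ := mem_eS.mp (mem_inter.mp this).1
    simp only [pair_inj, num_inj] at h4
    rw [h4.1, h4.2]; exact h3
  · intro hab
    refine ⟨isCond_memc M h, {a, b}, _, _, _, _, _, _, rfl, rfl, ?_, ?_, by simp⟩
    · intro z hz
      rcases ZFSet.mem_pair.mp hz with rfl | rfl <;> exact mem_dS.mpr ⟨_, by simp, rfl⟩
    · ext z
      rw [mem_inter, mem_eS, mem_singleton]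
      constructor
      · rintro ⟨⟨i, hi, j, hj, h1, rfl⟩, -⟩
        simp only [Finset.mem_insert, Finset.mem_singleton] at hi hj
        rcases hi with rfl | rfl <;> rcases hj with rfl | rfl
        · exact (mem_irrefl _ h1).elim
        · rfl
        · exact (mem_asymm h1 hab).elim
        · exact (mem_irrefl _ h1).elim
      · rintro rfl
        exact ⟨⟨a, by simp, b, by simp, hab, rfl⟩, by simp⟩

theorem gd_memn (a b : ℕ) : Gd (memn a b) := by
  unfold memn
  split_ifs with h
  · exact gd_empty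
  · refine ⟨hc_singleton (hc_pair hc_empty (hc_pair (hc_insert (hc_num _) (hc_singleton (hc_num _)))
      (hc_pair (hc_singleton (hc_pair (hc_num _) (hc_num _))) hc_empty))),
      fun M => IsName.intro _ ?_ ?_⟩
    · intro z hz
      exact ⟨_, _, mem_singleton.mp hz, isCond_memc M h⟩
    · intro τ p hz
      rw [(pair_inj.mp (mem_singleton.mp hz)).1]
      exact gd_empty.2 M

def consN (n : ℕ) (r : ℕ → ℕ) : ℕ → ℕ
  | 0 => n
  | i + 1 => r i

noncomputable def fls : NP := (∅, tg 1)

/-- The pair of names whose evaluations agree iff `φ` has truth value `b` in the generic copy of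
the ground model. -/
noncomputable def nm : Fml → (ℕ → ℕ) → Bool → NP
  | .mem i j, r, true => (memn (r i) (r j), tg 1)
  | .mem i j, r, false => (memn (r i) (r j), ∅)
  | .eq i j, r, b => if (r i = r j ↔ b = true) then (∅, ∅) else fls
  | .neg φ, r, b => nm φ r (!b)
  | .and φ ψ, r, true => conj fun n => if n = 0 then nm φ r true else nm ψ r true
  | .and φ ψ, r, false => disj fun n => if n = 0 then nm φ r false else nm ψ r false
  | .ex φ, r, true => disj fun n => nm φ (consN n r) true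
  | .ex φ, r, false => conj fun n => nm φ (consN n r) false

theorem gd_fls : GdP fls := ⟨gd_empty, gd_tg 1⟩

theorem gd_nm (φ : Fml) : ∀ r b, GdP (nm φ r b) := by
  induction φ with
  | mem i j =>
    intro r b
    cases b
    · exact ⟨gd_memn _ _, gd_empty⟩
    · exact ⟨gd_memn _ _, gd_tg 1⟩
  | eq i j =>
    intro r b
    simp only [nm]
    split_ifs
    · exact ⟨gd_empty, gd_empty⟩
    · exact gd_fls
  | neg φ ih => intro r b; exact ih r _
  | and φ ψ ih₁ ih₂ =>
    intro r b
    cases b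
    · exact gd_disj fun n => by split_ifs; exacts [ih₁ _ _, ih₂ _ _]
    · exact gd_conj fun n => by split_ifs; exacts [ih₁ _ _, ih₂ _ _]
  | ex φ ih =>
    intro r b
    cases b
    · exact gd_conj fun n => ih _ _
    · exact gd_disj fun n => ih _ _

section eval

variable {ev : Set ZFSet.{0} → ZFSet.{0} → ZFSet.{0}} (hev : IsEval ev) {G : Set ZFSet.{0}}
  (h1 : one ∈ G)

include hev in
theorem ev_empty : ev G ∅ = ∅ := by
  ext z; rw [hev]; simp

include hev h1

theorem mem_ev_NN {ι : Type} (g : ι → ZFSet.{0}) (z : ZFSet.{0}) :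
    z ∈ ev G (NN g) ↔ ∃ i, z = ev G (g i) := by
  rw [hev]
  constructor
  · rintro ⟨τ, p, -, h, rfl⟩
    obtain ⟨i, hi⟩ := mem_range.mp h
    exact ⟨i, by rw [(pair_inj.mp hi).1]⟩
  · rintro ⟨i, rfl⟩
    exact ⟨_, _, h1, mem_range.mpr ⟨i, rfl⟩, rfl⟩

theorem ev_upn (σ τ : ZFSet.{0}) : ev G (upn σ τ) = {ev G σ, ev G τ} := by
  ext z
  rw [upn, mem_ev_NN hev h1]
  simp [or_comm]

theorem ev_opn (σ τ : ZFSet.{0}) : ev G (opn σ τ) = pair (ev G σ) (ev G τ) := by
  rw [opn, ev_upn hev h1, ev_upn hev h1, ev_upn hev h1, pair_eq_singleton]; rfl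

theorem ev_tg (n : ℕ) : ev G (tg n) = zn n := by
  induction n with
  | zero => exact ev_empty hev
  | succ n ih => rw [tg, ev_upn hev h1, ih, pair_eq_singleton]; rfl

theorem ev_conj (p : ℕ → NP) :
    ev G (conj p).1 = ev G (conj p).2 ↔ ∀ n, ev G (p n).1 = ev G (p n).2 := by
  simp only [conj, ZFSet.ext_iff (x := ev G (NN _)), mem_ev_NN hev h1, ev_opn hev h1, ev_tg hev h1]
  constructor
  · intro h n
    obtain ⟨m, hm⟩ := (h _).mp ⟨n, rfl⟩
    rw [pair_inj] at hm
    obtain rfl := zn_injective hm.1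
    exact hm.2
  · intro h z
    simp only [h]

theorem ev_CC (p : ℕ → NP) (i : ℕ) :
    ev G (CC p none) = ev G (CC p (some i)) ↔ ev G (p i).1 = ev G (p i).2 := by
  simp only [CC, ZFSet.ext_iff (x := ev G (NN _)), mem_ev_NN hev h1, ev_opn hev h1, ev_tg hev h1]
  constructor
  · intro h
    obtain ⟨m, hm⟩ := (h _).mp ⟨(i, false), rfl⟩
    rw [pair_inj] at hm
    obtain rfl := zn_injective hm.1
    simpa using hm.2.symm
  · intro h z
    refine exists_congr fun x => ?_
    by_cases hx : i = x.1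
    · subst hx
      by_cases hb : x.2 = true <;> simp [hb, h]
    · simp [hx]

theorem ev_disj (p : ℕ → NP) :
    ev G (disj p).1 = ev G (disj p).2 ↔ ∃ n, ev G (p n).1 = ev G (p n).2 := by
  simp only [disj, ZFSet.ext_iff (x := ev G (NN _)), mem_ev_NN hev h1]
  constructor
  · intro h
    obtain ⟨i, hi⟩ := (h _).mpr ⟨none, rfl⟩
    exact ⟨i, (ev_CC hev h1 p i).mp hi⟩
  · rintro ⟨i, hi⟩ z
    refine ⟨fun ⟨j, hj⟩ => ⟨some j, hj⟩, ?_⟩
    rintro ⟨_ | j, hj⟩
    · exact ⟨i, hj.trans ((ev_CC hev h1 p i).mpr hi)⟩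
    · exact ⟨j, hj⟩

theorem ev_fls : ev G fls.1 ≠ ev G fls.2 := by
  simp only [fls, ev_empty hev, ev_tg hev h1]
  exact (singleton_ne_empty _).symm

end eval

theorem ev_memn {ev : Set ZFSet.{0} → ZFSet.{0} → ZFSet.{0}} (hev : IsEval ev)
    (M : Set ZFSet.{0}) (F : Env) (a b : ℕ) (z : ZFSet.{0}) :
    z ∈ ev (GF M F) (memn a b) ↔ F a ∈ F b ∧ z = ∅ := by
  unfold memn
  split_ifs with h
  · rw [ev_empty hev, h]
    simp [mem_irrefl]
  · rw [hev, ← memc_mem_GF M F h]
    constructor
    · rintro ⟨τ, p, hp, h2, rfl⟩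
      obtain ⟨rfl, rfl⟩ := pair_inj.mp (mem_singleton.mp h2)
      exact ⟨hp, ev_empty hev⟩
    · rintro ⟨hp, rfl⟩
      exact ⟨∅, _, hp, mem_singleton.mpr rfl, (ev_empty hev).symm⟩

theorem ev_nm {ev : Set ZFSet.{0} → ZFSet.{0} → ZFSet.{0}} (hev : IsEval ev)
    {M : Set ZFSet.{0}} {F : Env} (hinj : Function.Injective F) (hF : Set.range F = M) (φ : Fml) :
    ∀ r b, ev (GF M F) (nm φ r b).1 = ev (GF M F) (nm φ r b).2 ↔
      (Sat M φ (fun i => F (r i)) ↔ b = true) := by
  have h1 := one_mem_GF M F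
  have hc : ∀ n r, (fun i => F (consN n r i)) = cons (F n) fun i => F (r i) := by
    intro n r; funext i; cases i <;> rfl
  induction φ with
  | mem i j =>
    intro r b
    cases b
    · simp only [nm, Sat, ev_empty hev]
      rw [eq_empty]
      simp only [ev_memn hev]
      simp
    · simp only [nm, Sat, ev_tg hev h1, ZFSet.ext_iff (x := ev _ (memn _ _)), ev_memn hev, zn]
      simp only [mem_singleton, iff_true]
      exact ⟨fun h => ((h ∅).mpr rfl).1, fun h z => by simp [h]⟩
  | eq i j =>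
    intro r b
    simp only [nm, Sat, hinj.eq_iff]
    split_ifs with h
    · simp [h]
    · simp [h, ev_fls hev h1]
  | neg φ ih =>
    intro r b
    simp only [nm, Sat, ih]
    cases b <;> simp
  | and φ ψ ih₁ ih₂ =>
    intro r b
    cases b
    · simp only [nm, Sat, ev_disj hev h1]
      constructor
      · rintro ⟨n, hn⟩
        split_ifs at hn
        · rw [ih₁] at hn; simp at hn; simp [hn]
        · rw [ih₂] at hn; simp at hn; simp [hn]
      · intro h
        by_cases h' : Sat M φ fun i => F (r i)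
        · refine ⟨1, ?_⟩
          rw [if_neg one_ne_zero, ih₂]
          simpa [h'] using h
        · refine ⟨0, ?_⟩
          rw [if_pos rfl, ih₁]
          simpa using h'
    · simp only [nm, Sat, ev_conj hev h1, iff_true]
      constructor
      · intro h
        have h0 := h 0
        have h2 := h 1
        rw [if_pos rfl, ih₁] at h0
        rw [if_neg one_ne_zero, ih₂] at h2
        exact ⟨h0.mpr rfl, h2.mpr rfl⟩
      · intro h n
        split_ifs
        · rw [ih₁]; simpa using h.1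
        · rw [ih₂]; simpa using h.2
  | ex φ ih =>
    intro r b
    cases b
    · simp only [nm, Sat, ev_conj hev h1, ih, hc]
      rw [← hF]
      simp
    · simp only [nm, Sat, ev_disj hev h1, ih, hc]
      rw [← hF]
      simp

end Pool.Agent.Lib.MP_2c70cf_lc
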