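import Pool.Agent.Lib.MP_2c70cf_lc.Gen2
import Pool.Agent.Lib.MP_2c70cf_lc.DefFun

set_option autoImplicit false

/-! Names for the back-and-forth types of the generic copy of the ground model, and two names,
lying in every ground model, whose values agree iff infinitely many positions are bad. -/

namespace Pool.Agent.Lib.MP_2c70cf_lc

open ZFSet Function

theorem upn_eq (σ τ : ZFSet.{0}) : upn σ τ = {pair σ one, pair τ one} := by
  ext z
  simp [upn, NN, eq_comm, or_comm]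

/-- The condition putting `a` below `b`. -/
def mc (a b : ZFSet.{0}) : ZFSet.{0} := pair {a, b} (pair {pair a b} ∅)

/-- Appending `j` to a tagged finite sequence. -/
noncomputable def nxt (p j : ZFSet.{0}) : ZFSet.{0} :=
  pair (upn (fst p) (fst p)) (insert (pair (fst p) j) (snd p))

noncomputable def stepS (S : ZFSet.{0}) : ZFSet.{0} := ⋃₀ img S fun p => img omega fun j => nxt p j

noncomputable def SS : ZFSet.{0} := ⋃₀ range fun n : ℕ => stepS^[n] {pair ∅ ∅}

/-- The name of the atomic diagram of a tagged finite sequence. -/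
noncomputable def atm (r : ZFSet.{0}) : ZFSet.{0} :=
  ⋃₀ img r fun p => img (r.sep fun p' => ¬ snd p = snd p') fun p' =>
    pair (opn (fst p) (fst p')) (mc (snd p) (snd p'))

noncomputable def nxtv (tb p : ZFSet.{0}) : ZFSet.{0} :=
  img omega fun j => pair (app tb (nxt p j)) one

noncomputable def gtab (tb : ZFSet.{0}) : ZFSet.{0} :=
  img tb fun e => pair (fst e) (nxtv tb (fst e))

noncomputable def tb0 (S : ZFSet.{0}) : ZFSet.{0} := img S fun p => pair p (atm (snd p))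

noncomputable def HH (w : ZFSet.{0}) : ZFSet.{0} :=
  pair (pair (nxt (fst (fst w)) (snd (fst w))) (insert (snd (fst w)) (snd (fst w)))) (gtab (snd w))

noncomputable def OO : ZFSet.{0} := range fun i : ℕ => HH^[i] (pair (pair (pair ∅ ∅) ∅) (tb0 SS))

noncomputable def rho (w : ZFSet.{0}) : ZFSet.{0} := nxtv (snd w) (fst (fst w))

noncomputable def lam (w : ZFSet.{0}) : ZFSet.{0} :=
  img (omega.sep fun t => ¬ t = snd (fst w)) fun t =>
    pair (app (snd w) (nxt (fst (fst w)) t)) (mc t (snd (fst w)))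

noncomputable def RR (O : ZFSet.{0}) : ZFSet.{0} :=
  img O fun w => pair (opn (fst (fst (fst w))) (rho w)) one

noncomputable def cc (O w : ZFSet.{0}) : ZFSet.{0} :=
  insert (pair (opn (fst (fst (fst w))) (lam w)) one) (RR O)

noncomputable def Ctail (O w : ZFSet.{0}) : ZFSet.{0} :=
  img (O.sep fun w' => ¬ snd (fst w') ∈ snd (fst w)) fun w' => pair (cc O w') one

noncomputable def sg0 (O : ZFSet.{0}) : ZFSet.{0} := img O fun w => pair (Ctail O w) one

noncomputable def sg1 (O : ZFSet.{0}) : ZFSet.{0} :=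
  img O fun w => pair (insert (pair (RR O) one) (Ctail O w)) one

section inM

variable {M : Set ZFSet.{0}} (hT : Trans M) (hM : ModelsZFrepl M) {f g : Env → ZFSet.{0}}
include hT hM

theorem DF.one : DF M (fun _ => one) :=
  DF.pair hT hM (DF.empty hT hM) (DF.pair hT hM (DF.empty hT hM) (DF.empty hT hM))

theorem DF.upn (hf : DF M f) (hg : DF M g) : DF M (fun ρ => upn (f ρ) (g ρ)) := by
  simp only [upn_eq]
  exact DF.upair hT hM (DF.pair hT hM hf (DF.one hT hM)) (DF.pair hT hM hg (DF.one hT hM))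

theorem DF.opn (hf : DF M f) (hg : DF M g) : DF M (fun ρ => opn (f ρ) (g ρ)) :=
  DF.upn hT hM (DF.upn hT hM hf hf) (DF.upn hT hM hf hg)

theorem DF.mc (hf : DF M f) (hg : DF M g) : DF M (fun ρ => mc (f ρ) (g ρ)) :=
  DF.pair hT hM (DF.upair hT hM hf hg)
    (DF.pair hT hM (DF.singleton hT hM (DF.pair hT hM hf hg)) (DF.empty hT hM))

theorem DF.nxt (hf : DF M f) (hg : DF M g) : DF M (fun ρ => nxt (f ρ) (g ρ)) :=
  DF.pair hT hM (DF.upn hT hM (DF.fst hT hM hf) (DF.fst hT hM hf))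
    (DF.insert hT hM (DF.pair hT hM (DF.fst hT hM hf) hg) (DF.snd hT hM hf))

theorem df_stepS : DF M (fun ρ => stepS (ρ 0)) :=
  DF.sUnion hT hM (DF.img hT hM (DF.var 0)
    (DF.img hT hM (DF.omega hT hM) (DF.nxt hT hM (DF.var 1) (DF.var 0))))

theorem SS_mem : SS ∈ M :=
  W.sUnion_mem hT hM (iter_mem hT hM (df_stepS hT hM)
    (W.singleton_mem hT hM (W.pair_mem hT hM (W.empty_mem hT hM) (W.empty_mem hT hM))))

theorem df_atm : DF M (fun ρ => atm (ρ 0)) :=
  DF.sUnion hT hM (DF.img hT hM (DF.var 0) (DF.img hT hM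
    (DF.sep hT hM (DF.var 1) ((DF.snd hT hM (DF.var 1)).eq (DF.snd hT hM (DF.var 0))).not)
    (DF.pair hT hM (DF.opn hT hM (DF.fst hT hM (DF.var 1)) (DF.fst hT hM (DF.var 0)))
      (DF.mc hT hM (DF.snd hT hM (DF.var 1)) (DF.snd hT hM (DF.var 0))))))

theorem DF.nxtv (hf : DF M f) (hg : DF M g) : DF M (fun ρ => nxtv (f ρ) (g ρ)) :=
  DF.img hT hM (DF.omega hT hM) (DF.pair hT hM
    (DF.app hT hM hf.shift (DF.nxt hT hM hg.shift (DF.var 0))) (DF.one hT hM))

theorem df_gtab : DF M (fun ρ => gtab (ρ 0)) :=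
  DF.img hT hM (DF.var 0) (DF.pair hT hM (DF.fst hT hM (DF.var 0))
    (DF.nxtv hT hM (DF.var 1) (DF.fst hT hM (DF.var 0))))

theorem df_tb0 : DF M (fun ρ => tb0 (ρ 0)) :=
  DF.img hT hM (DF.var 0) (DF.pair hT hM (DF.var 0)
    ((df_atm hT hM).comp (DF.snd hT hM (DF.var 0))))

theorem df_HH : DF M (fun ρ => HH (ρ 0)) :=
  have h1 := DF.fst hT hM (DF.var (M := M) 0)
  DF.pair hT hM (DF.pair hT hM (DF.nxt hT hM (DF.fst hT hM h1) (DF.snd hT hM h1))
    (DF.insert hT hM (DF.snd hT hM h1) (DF.snd hT hM h1)))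
    ((df_gtab hT hM).comp (DF.snd hT hM (DF.var 0)))

theorem OO_mem : OO ∈ M :=
  have h0 := W.empty_mem hT hM
  iter_mem hT hM (df_HH hT hM) (W.pair_mem hT hM (W.pair_mem hT hM (W.pair_mem hT hM h0 h0) h0)
    ((df_tb0 hT hM).1 (fun _ => SS) fun _ => SS_mem hT hM))

theorem df_rho : DF M (fun ρ => rho (ρ 0)) :=
  DF.nxtv hT hM (DF.snd hT hM (DF.var 0)) (DF.fst hT hM (DF.fst hT hM (DF.var 0)))

theorem df_lam : DF M (fun ρ => lam (ρ 0)) :=
  have h1 := DF.fst hT hM (DF.var (M := M) 1)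
  DF.img hT hM (DF.sep hT hM (DF.omega hT hM) ((DF.var 0).eq (DF.snd hT hM h1)).not)
    (DF.pair hT hM (DF.app hT hM (DF.snd hT hM (DF.var 1))
      (DF.nxt hT hM (DF.fst hT hM h1) (DF.var 0))) (DF.mc hT hM (DF.var 0) (DF.snd hT hM h1)))

theorem df_RR : DF M (fun ρ => RR (ρ 0)) :=
  DF.img hT hM (DF.var 0) (DF.pair hT hM (DF.opn hT hM
    (DF.fst hT hM (DF.fst hT hM (DF.fst hT hM (DF.var 0)))) (df_rho hT hM)) (DF.one hT hM))

theorem DF.cc (hf : DF M f) (hg : DF M g) : DF M (fun ρ => cc (f ρ) (g ρ)) :=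
  DF.insert hT hM (DF.pair hT hM (DF.opn hT hM (DF.fst hT hM (DF.fst hT hM (DF.fst hT hM hg)))
    ((df_lam hT hM).comp hg)) (DF.one hT hM)) ((df_RR hT hM).comp hf)

theorem DF.Ctail (hf : DF M f) (hg : DF M g) : DF M (fun ρ => Ctail (f ρ) (g ρ)) :=
  DF.img hT hM (DF.sep hT hM hf ((DF.snd hT hM (DF.fst hT hM (DF.var 0))).mem
    (DF.snd hT hM (DF.fst hT hM hg.shift))).not)
    (DF.pair hT hM (DF.cc hT hM hf.shift (DF.var 0)) (DF.one hT hM))

theorem sg0_mem : sg0 OO ∈ M :=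
  (DF.img hT hM (DF.var 0) (DF.pair hT hM (DF.Ctail hT hM (DF.var 1) (DF.var 0))
    (DF.one hT hM))).1 (fun _ => OO) fun _ => OO_mem hT hM

theorem sg1_mem : sg1 OO ∈ M :=
  (DF.img hT hM (DF.var 0) (DF.pair hT hM (DF.insert hT hM (DF.pair hT hM
    ((df_RR hT hM).comp (DF.var 1)) (DF.one hT hM)) (DF.Ctail hT hM (DF.var 1) (DF.var 0)))
    (DF.one hT hM))).1 (fun _ => OO) fun _ => OO_mem hT hM

end inM

/-- The first `n` entries of `r`, tagged by names. -/
noncomputable def rr (r : ℕ → ℕ) : ℕ → ZFSet.{0}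
  | 0 => ∅
  | n + 1 => insert (pair (tg n) (num (r n))) (rr r n)

noncomputable def st (n : ℕ) (r : ℕ → ℕ) : ZFSet.{0} := pair (tg n) (rr r n)

theorem mem_rr {r : ℕ → ℕ} {n : ℕ} {z : ZFSet.{0}} :
    z ∈ rr r n ↔ ∃ i < n, z = pair (tg i) (num (r i)) := by
  induction n with
  | zero => simp [rr]
  | succ n ih =>
    rw [rr, mem_insert_iff, ih]
    constructor
    · rintro (rfl | ⟨m, hm, rfl⟩)
      exacts [⟨n, by omega, rfl⟩, ⟨m, by omega, rfl⟩]
    · rintro ⟨m, hm, rfl⟩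
      rcases Nat.lt_succ_iff_lt_or_eq.mp hm with h | rfl
      exacts [Or.inr ⟨m, h, rfl⟩, Or.inl rfl]

theorem nxt_st (n : ℕ) (r : ℕ → ℕ) : nxt (st n r) (num (r n)) = st (n + 1) r := by
  simp only [nxt, st, fst_pair, snd_pair, tg, rr]

theorem nxt_st' (n : ℕ) (r : ℕ → ℕ) (j : ℕ) :
    nxt (st n r) (num j) = st (n + 1) (update r n j) := by
  have : st n r = st n (update r n j) := by
    have : rr r n = rr (update r n j) n := by
      ext z
      simp only [mem_rr]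
      refine exists_congr fun i => and_congr_right fun hi => ?_
      rw [update_of_ne hi.ne]
    rw [st, st, this]
  rw [this, ← nxt_st, update_self]

theorem num_mem_omega (n : ℕ) : num n ∈ omega := (mem_omega_iff _).mpr ⟨n, rfl⟩

theorem st_mem (n : ℕ) (r : ℕ → ℕ) : st n r ∈ SS := by
  have : st n r ∈ stepS^[n] {pair ∅ ∅} := by
    induction n with
    | zero => exact mem_singleton.mpr rfl
    | succ n ih =>
      rw [Function.iterate_succ_apply', ← nxt_st]
      exact mem_sUnion_of_mem (mem_img.mpr ⟨_, num_mem_omega _, rfl⟩) (mem_img.mpr ⟨_, ih, rfl⟩)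
  exact mem_sUnion_of_mem this (mem_range.mpr ⟨n, rfl⟩)

noncomputable def tab (k : ℕ) : ZFSet.{0} := gtab^[k] (tb0 SS)

theorem tab_succ (k : ℕ) : tab (k + 1) = img SS fun p => pair p (nxtv (tab k) p) := by
  have key : ∀ v : ZFSet.{0} → ZFSet.{0}, gtab (img SS fun p => pair p (v p)) =
      img SS fun p => pair p (nxtv (img SS fun p => pair p (v p)) p) := by
    intro v
    ext z
    rw [gtab, mem_img, mem_img]
    constructor
    · rintro ⟨e, he, rfl⟩
      obtain ⟨p, hp, rfl⟩ := mem_img.mp he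
      exact ⟨p, hp, by rw [fst_pair]⟩
    · rintro ⟨p, hp, rfl⟩
      exact ⟨_, mem_img.mpr ⟨p, hp, rfl⟩, by rw [fst_pair]⟩
  have h : ∀ k, tab (k + 1) = gtab (tab k) := fun k => Function.iterate_succ_apply' _ _ _
  induction k with
  | zero => exact key _
  | succ k ih => rw [h (k + 1), ih, key]

/-- The name of the `k`-type of the first `n` entries of `r`. -/
noncomputable def tau (k n : ℕ) (r : ℕ → ℕ) : ZFSet.{0} := app (tab k) (st n r)

theorem mem_tau_zero {n : ℕ} {r : ℕ → ℕ} {z : ZFSet.{0}} : z ∈ tau 0 n r ↔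
    ∃ x : ℕ × ℕ, (x.1 < n ∧ x.2 < n ∧ r x.1 ≠ r x.2) ∧
      z = pair (opn (tg x.1) (tg x.2)) (memc (r x.1) (r x.2)) := by
  have : tau 0 n r = atm (rr r n) := by
    have := app_img (st_mem n r) fun p => atm (snd p)
    rw [st, snd_pair] at this
    exact this
  rw [this, atm, mem_sUnion]
  constructor
  · rintro ⟨_, h1, h2⟩
    obtain ⟨p, hp, rfl⟩ := mem_img.mp h1
    obtain ⟨p', hp', rfl⟩ := mem_img.mp h2
    obtain ⟨h3, h4⟩ := mem_sep.mp hp'
    obtain ⟨i, hi, rfl⟩ := mem_rr.mp hp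
    obtain ⟨j, hj, rfl⟩ := mem_rr.mp h3
    simp only [fst_pair, snd_pair, num_inj] at h4 ⊢
    exact ⟨(i, j), ⟨hi, hj, h4⟩, rfl⟩
  · rintro ⟨⟨i, j⟩, ⟨hi, hj, h⟩, rfl⟩
    refine ⟨_, mem_img.mpr ⟨_, mem_rr.mpr ⟨i, hi, rfl⟩, rfl⟩, mem_img.mpr
      ⟨_, mem_sep.mpr ⟨mem_rr.mpr ⟨j, hj, rfl⟩, by simpa using h⟩, ?_⟩⟩
    simp only [fst_pair, snd_pair]
    rfl

theorem mem_nxtv {k n : ℕ} {r : ℕ → ℕ} {z : ZFSet.{0}} : z ∈ nxtv (tab k) (st n r) ↔
    ∃ j : ℕ, True ∧ z = pair (tau k (n + 1) (update r n j)) one := by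
  rw [nxtv, mem_img]
  constructor
  · rintro ⟨x, hx, rfl⟩
    obtain ⟨j, rfl⟩ := (mem_omega_iff x).mp hx
    exact ⟨j, trivial, by rw [nxt_st']; rfl⟩
  · rintro ⟨j, -, rfl⟩
    exact ⟨_, num_mem_omega j, by rw [nxt_st']; rfl⟩

theorem tau_succ (k n : ℕ) (r : ℕ → ℕ) : tau (k + 1) n r = nxtv (tab k) (st n r) := by
  rw [tau, tab_succ, app_img (st_mem n r)]

noncomputable def ww (i : ℕ) : ZFSet.{0} := pair (pair (st i id) (num i)) (tab i)

theorem mem_OO {z : ZFSet.{0}} : z ∈ OO ↔ ∃ i, z = ww i := by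
  have : ∀ i, HH^[i] (pair (pair (pair ∅ ∅) ∅) (tb0 SS)) = ww i := by
    intro i
    induction i with
    | zero => rfl
    | succ i ih =>
      have h1 := nxt_st i id
      rw [Function.iterate_succ_apply', ih, HH]
      simp only [ww, fst_pair, snd_pair, tab, Function.iterate_succ_apply', num_succ]
      rw [← h1]
      rfl
  simp only [OO, mem_range, this, eq_comm]

theorem mem_img_OO {g : ZFSet.{0} → ZFSet.{0}} {z : ZFSet.{0}} :
    z ∈ img OO g ↔ ∃ i : ℕ, True ∧ z = g (ww i) := by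
  rw [mem_img]
  constructor
  · rintro ⟨x, hx, rfl⟩
    obtain ⟨i, rfl⟩ := mem_OO.mp hx
    exact ⟨i, trivial, rfl⟩
  · rintro ⟨i, -, rfl⟩
    exact ⟨_, mem_OO.mpr ⟨i, rfl⟩, rfl⟩

theorem mem_rho {i : ℕ} {z : ZFSet.{0}} : z ∈ rho (ww i) ↔
    ∃ t : ℕ, True ∧ z = pair (tau i (i + 1) (update id i t)) one := by
  simp only [rho, ww, fst_pair, snd_pair, mem_nxtv]

theorem mem_lam {i : ℕ} {z : ZFSet.{0}} : z ∈ lam (ww i) ↔
    ∃ t : ℕ, t ≠ i ∧ z = pair (tau i (i + 1) (update id i t)) (memc t i) := by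
  simp only [lam, ww, fst_pair, snd_pair, mem_img, mem_sep]
  constructor
  · rintro ⟨x, ⟨hx, h⟩, rfl⟩
    obtain ⟨j, rfl⟩ := (mem_omega_iff x).mp hx
    exact ⟨j, fun e => h (by rw [e]), by rw [nxt_st']; rfl⟩
  · rintro ⟨j, h, rfl⟩
    exact ⟨_, ⟨num_mem_omega j, fun e => h (num_injective e)⟩, by rw [nxt_st']; rfl⟩

theorem mem_RR {z : ZFSet.{0}} : z ∈ RR OO ↔
    ∃ i : ℕ, True ∧ z = pair (opn (tg i) (rho (ww i))) one := by
  rw [RR, mem_img_OO]
  simp only [ww, st, fst_pair]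

theorem cc_eq (i : ℕ) : cc OO (ww i) = insert (pair (opn (tg i) (lam (ww i))) one) (RR OO) := by
  rw [cc]
  simp only [ww, st, fst_pair]

theorem mem_Ctail {i : ℕ} {z : ZFSet.{0}} : z ∈ Ctail OO (ww i) ↔
    ∃ j : ℕ, i ≤ j ∧ z = pair (cc OO (ww j)) one := by
  have h : ∀ j, ¬ snd (fst (ww j)) ∈ snd (fst (ww i)) ↔ i ≤ j := by
    intro j
    simp only [ww, fst_pair, snd_pair, mem_num, num_inj]
    constructor
    · intro h; by_contra h'; exact h ⟨j, by omega, rfl⟩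
    · rintro h ⟨m, hm, rfl⟩; omega
  rw [Ctail, mem_img]
  constructor
  · rintro ⟨x, hx, rfl⟩
    obtain ⟨h1, h2⟩ := mem_sep.mp hx
    obtain ⟨j, rfl⟩ := mem_OO.mp h1
    exact ⟨j, (h j).mp h2, rfl⟩
  · rintro ⟨j, hj, rfl⟩
    exact ⟨_, mem_sep.mpr ⟨mem_OO.mpr ⟨j, rfl⟩, (h j).mpr hj⟩, rfl⟩

theorem mem_sg0 {z : ZFSet.{0}} : z ∈ sg0 OO ↔
    ∃ i : ℕ, True ∧ z = pair (Ctail OO (ww i)) one := mem_img_OO

theorem mem_sg1 {z : ZFSet.{0}} : z ∈ sg1 OO ↔
    ∃ i : ℕ, True ∧ z = pair (insert (pair (RR OO) one) (Ctail OO (ww i))) one := mem_img_OO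

section names

variable {M : Set ZFSet.{0}}

theorem name_of {ι : Type} {σ : ZFSet.{0}} {c : ι → Prop} {a p : ι → ZFSet.{0}}
    (h : ∀ z, z ∈ σ ↔ ∃ i, c i ∧ z = pair (a i) (p i)) (ha : ∀ i, c i → IsName M (a i))
    (hp : ∀ i, c i → IsCond M (p i)) : IsName M σ := by
  refine IsName.intro _ (fun z hz => ?_) fun τ q hz => ?_
  · obtain ⟨i, hi, rfl⟩ := (h z).mp hz
    exact ⟨_, _, rfl, hp i hi⟩
  · obtain ⟨i, hi, e⟩ := (h _).mp hz
    rw [(pair_inj.mp e).1]
    exact ha i hi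

theorem name_insert {σ τ : ZFSet.{0}} (h : IsName M σ) (h' : IsName M τ) :
    IsName M (insert (pair σ one) τ) := by
  obtain ⟨_, h1, h2⟩ := h'
  refine IsName.intro _ (fun z hz => ?_) fun τ' q hz => ?_
  · rcases mem_insert_iff.mp hz with rfl | hz
    exacts [⟨_, _, rfl, isCond_one M⟩, h1 z hz]
  · rcases mem_insert_iff.mp hz with e | hz
    · rw [(pair_inj.mp e).1]; exact h
    · exact h2 _ _ hz

theorem name_upn {σ τ : ZFSet.{0}} (h : IsName M σ) (h' : IsName M τ) : IsName M (upn σ τ) := by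
  rw [upn_eq, ← LawfulSingleton.insert_empty_eq]
  exact name_insert h (name_insert h' (gd_empty.2 M))

theorem name_opn {σ τ : ZFSet.{0}} (h : IsName M σ) (h' : IsName M τ) : IsName M (opn σ τ) :=
  name_upn (name_upn h h) (name_upn h h')

theorem name_tau (k : ℕ) : ∀ n r, IsName M (tau k n r) := by
  induction k with
  | zero =>
    intro n r
    exact name_of (fun _ => mem_tau_zero) (fun _ _ => name_opn ((gd_tg _).2 M) ((gd_tg _).2 M))
      fun _ h => isCond_memc M h.2.2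
  | succ k ih =>
    intro n r
    rw [tau_succ]
    exact name_of (fun _ => mem_nxtv) (fun _ _ => ih _ _) fun _ _ => isCond_one M

theorem name_RR : IsName M (RR OO) :=
  name_of (fun _ => mem_RR) (fun _ _ => name_opn ((gd_tg _).2 M)
    (name_of (fun _ => mem_rho) (fun _ _ => name_tau _ _ _) fun _ _ => isCond_one M))
    fun _ _ => isCond_one M

theorem name_Ctail (i : ℕ) : IsName M (Ctail OO (ww i)) :=
  name_of (fun _ => mem_Ctail) (fun j _ => by
    rw [cc_eq]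
    exact name_insert (name_opn ((gd_tg _).2 M) (name_of (fun _ => mem_lam)
      (fun _ _ => name_tau _ _ _) fun _ h => isCond_memc M h)) name_RR) fun _ _ => isCond_one M

theorem name_sg0 : IsName M (sg0 OO) :=
  name_of (fun _ => mem_sg0) (fun i _ => name_Ctail i) fun _ _ => isCond_one M

theorem name_sg1 : IsName M (sg1 OO) :=
  name_of (fun _ => mem_sg1) (fun i _ => name_insert name_RR (name_Ctail i))
    fun _ _ => isCond_one M

end names

section eval

variable {ev : Set ZFSet.{0} → ZFSet.{0} → ZFSet.{0}} (hev : IsEval ev)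
include hev

theorem ev_of {G : Set ZFSet.{0}} {ι : Type} {σ : ZFSet.{0}} {c : ι → Prop}
    {a p : ι → ZFSet.{0}} (h : ∀ z, z ∈ σ ↔ ∃ i, c i ∧ z = pair (a i) (p i)) (x : ZFSet.{0}) :
    x ∈ ev G σ ↔ ∃ i, c i ∧ p i ∈ G ∧ x = ev G (a i) := by
  rw [hev]
  constructor
  · rintro ⟨τ, q, h1, h2, rfl⟩
    obtain ⟨i, hi, e⟩ := (h _).mp h2
    obtain ⟨rfl, rfl⟩ := pair_inj.mp e
    exact ⟨i, hi, h1, rfl⟩
  · rintro ⟨i, hi, h1, rfl⟩
    exact ⟨_, _, h1, (h _).mpr ⟨i, hi, rfl⟩, rfl⟩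

theorem ev_insert {G : Set ZFSet.{0}} (h1 : one ∈ G) (σ τ : ZFSet.{0}) :
    ev G (insert (pair σ one) τ) = insert (ev G σ) (ev G τ) := by
  ext x
  rw [mem_insert_iff, hev, hev]
  constructor
  · rintro ⟨τ', q, h2, h3, rfl⟩
    rcases mem_insert_iff.mp h3 with e | h3
    · rw [(pair_inj.mp e).1]; exact Or.inl rfl
    · exact Or.inr ⟨_, _, h2, h3, rfl⟩
  · rintro (rfl | ⟨τ', q, h2, h3, rfl⟩)
    · exact ⟨_, _, h1, mem_insert _ _, rfl⟩
    · exact ⟨_, _, h2, mem_insert_of_mem _ h3, rfl⟩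

variable {M : Set ZFSet.{0}} {F : Env} (hF : Set.range F = M)
include hF

theorem ev_tau (k : ℕ) : ∀ (n : ℕ) (r r' : ℕ → ℕ),
    ev (GF M F) (tau k n r) = ev (GF M F) (tau k n r') ↔
      EF M k n (fun i => F (r i)) (fun i => F (r' i)) := by
  have h1 := one_mem_GF M F
  induction k with
  | zero =>
    intro n r r'
    have key : ∀ (r : ℕ → ℕ) x, x ∈ ev (GF M F) (tau 0 n r) ↔
        ∃ i < n, ∃ j < n, F (r i) ∈ F (r j) ∧ x = pair (zn i) (zn j) := by
      intro r x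
      rw [ev_of hev fun _ => mem_tau_zero]
      simp only [ev_opn hev h1, ev_tg hev h1]
      constructor
      · rintro ⟨⟨i, j⟩, ⟨hi, hj, h⟩, h2, rfl⟩
        exact ⟨i, hi, j, hj, (memc_mem_GF M F h).mp h2, rfl⟩
      · rintro ⟨i, hi, j, hj, h, rfl⟩
        have hne : r i ≠ r j := fun e => by rw [e] at h; exact mem_irrefl _ h
        exact ⟨(i, j), ⟨hi, hj, hne⟩, (memc_mem_GF M F hne).mpr h, rfl⟩
    have key2 : ∀ (r : ℕ → ℕ), ∀ i < n, ∀ j < n,
        pair (zn i) (zn j) ∈ ev (GF M F) (tau 0 n r) ↔ F (r i) ∈ F (r j) := by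
      intro r i hi j hj
      rw [key]
      constructor
      · rintro ⟨i', -, j', -, h, e⟩
        obtain ⟨e1, e2⟩ := pair_inj.mp e
        rwa [zn_injective e1, zn_injective e2]
      · intro h; exact ⟨i, hi, j, hj, h, rfl⟩
    constructor
    · intro e i hi j hj
      rw [← key2 r i hi j hj, e, key2 r' i hi j hj]
    · intro h
      ext x
      rw [key, key]
      refine exists_congr fun i => and_congr_right fun hi => exists_congr fun j =>
        and_congr_right fun hj => and_congr_left fun _ => h i hi j hj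
  | succ k ih =>
    intro n r r'
    have hup : ∀ (r : ℕ → ℕ) j, (fun i => F (update r n j i)) =
        update (fun i => F (r i)) n (F j) := fun r j => Function.comp_update F r n j
    have key : ∀ (r : ℕ → ℕ) x, x ∈ ev (GF M F) (tau (k + 1) n r) ↔
        ∃ j, x = ev (GF M F) (tau k (n + 1) (update r n j)) := by
      intro r x
      rw [tau_succ, ev_of hev fun _ => mem_nxtv]
      simp only [h1, true_and]
    simp only [EF, ← hF, Set.forall_mem_range, Set.exists_range_iff, ← hup]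
    simp only [hF, ← ih, ZFSet.ext_iff (x := ev (GF M F) (tau (k + 1) n r)), key]
    constructor
    · intro h
      exact ⟨fun j => (h _).mp ⟨j, rfl⟩, fun j => ((h _).mpr ⟨j, rfl⟩).imp fun _ e => e.symm⟩
    · rintro ⟨h2, h3⟩ x
      constructor
      · rintro ⟨j, rfl⟩; exact h2 j
      · rintro ⟨j, rfl⟩; exact (h3 j).imp fun _ e => e.symm

theorem ev_lam (hT : Trans M) (i : ℕ) :
    ev (GF M F) (lam (ww i)) = ev (GF M F) (rho (ww i)) ↔ Bad M i F := by
  have h1 := one_mem_GF M F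
  have hup : ∀ j, (fun m => F (update id i j m)) = update F i (F j) :=
    fun j => Function.comp_update F id i j
  have k1 : ∀ x, x ∈ ev (GF M F) (lam (ww i)) ↔
      ∃ t, F t ∈ F i ∧ x = ev (GF M F) (tau i (i + 1) (update id i t)) := by
    intro x
    rw [ev_of hev fun _ => mem_lam]
    constructor
    · rintro ⟨t, h, h2, rfl⟩
      exact ⟨t, (memc_mem_GF M F h).mp h2, rfl⟩
    · rintro ⟨t, h, rfl⟩
      have hne : t ≠ i := fun e => by rw [e] at h; exact mem_irrefl _ h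
      exact ⟨t, hne, (memc_mem_GF M F hne).mpr h, rfl⟩
  have k2 : ∀ x, x ∈ ev (GF M F) (rho (ww i)) ↔
      ∃ t, x = ev (GF M F) (tau i (i + 1) (update id i t)) := by
    intro x
    rw [ev_of hev fun _ => mem_rho]
    simp only [h1, true_and]
  constructor
  · intro e t ht
    obtain ⟨t, rfl⟩ : t ∈ Set.range F := hF ▸ ht
    obtain ⟨t', h2, h3⟩ := (k1 _).mp (e ▸ (k2 _).mpr ⟨t, rfl⟩)
    have := (ev_tau hev hF _ _ _ _).mp h3.symm
    rw [hup, hup] at this
    exact ⟨_, h2, this⟩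
  · intro hb
    ext x
    rw [k1, k2]
    refine ⟨fun ⟨t, _, h⟩ => ⟨t, h⟩, ?_⟩
    rintro ⟨t, rfl⟩
    have hFM : ∀ j, F j ∈ M := fun j => hF ▸ Set.mem_range_self j
    obtain ⟨t', h2, h3⟩ := hb _ (hFM t)
    obtain ⟨t', rfl⟩ : t' ∈ Set.range F := hF ▸ hT _ (hFM i) _ h2
    refine ⟨t', h2, ((ev_tau hev hF _ _ _ _).mpr ?_).symm⟩
    rwa [hup, hup]

theorem ev_sg (hT : Trans M) :
    ev (GF M F) (sg0 OO) = ev (GF M F) (sg1 OO) ↔ ∀ n, ∃ i, n ≤ i ∧ Bad M i F := by
  have h1 := one_mem_GF M F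
  have k1 : ∀ j, ev (GF M F) (RR OO) = ev (GF M F) (cc OO (ww j)) ↔ Bad M j F := by
    intro j
    rw [cc_eq, ev_insert hev h1, ← ev_lam hev hF hT, ev_opn hev h1, ev_tg hev h1]
    constructor
    · intro e
      obtain ⟨i, -, -, h⟩ := (ev_of hev (fun _ => mem_RR) _).mp (e ▸ mem_insert _ _)
      rw [ev_opn hev h1, ev_tg hev h1, pair_inj] at h
      obtain rfl := zn_injective h.1
      exact h.2
    · intro e
      ext x
      rw [mem_insert_iff]
      refine ⟨Or.inr, ?_⟩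
      rintro (rfl | h)
      · exact (ev_of hev (fun _ => mem_RR) _).mpr
          ⟨j, trivial, h1, by rw [ev_opn hev h1, ev_tg hev h1, e]⟩
      · exact h
  have k2 : ∀ n, ev (GF M F) (RR OO) ∈ ev (GF M F) (Ctail OO (ww n)) ↔
      ∃ i, n ≤ i ∧ Bad M i F := by
    intro n
    rw [ev_of hev fun _ => mem_Ctail]
    simp only [h1, true_and, k1]
  simp only [← k2]
  constructor
  · intro e n
    have : ev (GF M F) (Ctail OO (ww n)) ∈ ev (GF M F) (sg0 OO) :=
      (ev_of hev (fun _ => mem_sg0) _).mpr ⟨n, trivial, h1, rfl⟩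
    rw [e] at this
    obtain ⟨m, -, -, h⟩ := (ev_of hev (fun _ => mem_sg1) _).mp this
    rw [h, ev_insert hev h1]
    exact mem_insert _ _
  · intro h
    have k3 : ∀ n, ev (GF M F) (insert (pair (RR OO) one) (Ctail OO (ww n))) =
        ev (GF M F) (Ctail OO (ww n)) := by
      intro n
      rw [ev_insert hev h1]
      ext x
      rw [mem_insert_iff]
      exact ⟨fun h' => h'.elim (fun e => e ▸ h n) id, Or.inr⟩
    ext x
    rw [ev_of hev fun _ => mem_sg0, ev_of hev fun _ => mem_sg1]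
    simp only [k3]

end eval

/-- The truth lemma fails over every countable transitive model. -/
theorem fails_everywhere {ev : Set ZFSet.{0} → ZFSet.{0} → ZFSet.{0}} (hev : IsEval ev)
    {M : Set ZFSet.{0}} (hc : M.Countable) (hT : Trans M) (hM : ModelsZFrepl M) :
    ¬ TruthLemma ev M (Fml.eq 0 1) := by
  intro hTL
  obtain ⟨F, hinj, hF, hG, hF0, hbad⟩ := exists_generic_bad hT hM hc
  obtain ⟨p, ⟨hp, s, hs⟩, hforce⟩ := hTL (GF M F) (cons (sg0 OO) fun _ => sg1 OO) hG (by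
      intro i
      cases i with
      | zero => exact ⟨sg0_mem hT hM, name_sg0⟩
      | succ i => exact ⟨sg1_mem hT hM, name_sg1⟩)
    ((ev_sg hev hF hT).mpr hbad)
  obtain ⟨F', -, hF', hG', hFF, hgood⟩ := exists_generic_good hT hM hc (s.sup id + 1, F)
    ⟨by simp, hF0, fun i _ j _ e => hinj e, fun i _ => hF ▸ Set.mem_range_self i⟩
  have hpG : p ∈ GF M F' := ⟨hp, s, by
    rw [cnd_congr fun i hi => hFF i (Nat.lt_succ_of_le (Finset.le_sup (f := id) hi))]; exact hs⟩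
  obtain ⟨i, hi, hb⟩ := (ev_sg hev hF' hT).mp (hforce _ hG' hpG) (s.sup id + 1)
  exact hgood i hi hb

end Pool.Agent.Lib.MP_2c70cf_lc
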